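import Pool.Agent.X86.AF.Sys

/-! lower bounds for the dimension -/

set_option autoImplicit false

open Set Filter Topology
open scoped ENNReal NNReal

namespace Pool.Agent.X86.AF

/-- dimension from an expanding parametrization -/
theorem dim_ge_of_expand {E : Set ℝ} {g : ℝ → ℝ} {C r : ℝ} (hC : 0 ≤ C) (hr : 0 < r)
    (hE : ∀ t ∈ Ico (0:ℝ) 1, g t ∈ E)
    (h : ∀ t ∈ Ico (0:ℝ) 1, ∀ t' ∈ Ico (0:ℝ) 1, |t - t'| ≤ C * |g t - g t'| ^ r) :
    ENNReal.ofReal r ≤ dimH E := by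
  classical
  set X : Set ℝ := g '' Ico (0:ℝ) 1 with hX
  have hXsub : X ⊆ E := by
    rintro _ ⟨t, ht, rfl⟩
    exact hE t ht
  set f : ℝ → ℝ := fun x => if h : x ∈ X then Classical.choose h else 0 with hf
  have hfspec : ∀ x ∈ X, f x ∈ Ico (0:ℝ) 1 ∧ g (f x) = x := by
    intro x hx
    have : f x = Classical.choose hx := by simp [hf, hx]
    rw [this]
    exact Classical.choose_spec hx
  have hfg : ∀ t ∈ Ico (0:ℝ) 1, f (g t) = t := by
    intro t ht
    have hx : g t ∈ X := ⟨t, ht, rfl⟩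
    obtain ⟨h1, h2⟩ := hfspec _ hx
    have h3 := h _ h1 _ ht
    rw [h2, sub_self, abs_zero, Real.zero_rpow hr.ne', mul_zero] at h3
    have h5 : |f (g t) - t| = 0 := le_antisymm h3 (abs_nonneg _)
    linarith [abs_eq_zero.mp h5]
  set ρ : ℝ≥0 := ⟨r, hr.le⟩ with hρ
  have hρ0 : 0 < ρ := by rw [← NNReal.coe_pos]; exact hr
  set K : ℝ≥0 := ⟨C, hC⟩ with hK
  have hholder : HolderOnWith K ρ f X := by
    intro x hx y hy
    obtain ⟨h1, h2⟩ := hfspec _ hx
    obtain ⟨h3, h4⟩ := hfspec _ hy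
    have h5 := h _ h1 _ h3
    rw [h2, h4] at h5
    rw [edist_dist, edist_dist, ENNReal.ofReal_rpow_of_nonneg dist_nonneg (NNReal.coe_nonneg _)]
    rw [← ENNReal.ofReal_coe_nnreal, ← ENNReal.ofReal_mul (NNReal.coe_nonneg _)]
    apply ENNReal.ofReal_le_ofReal
    rw [Real.dist_eq, Real.dist_eq]
    exact h5
  have himg : Ico (0:ℝ) 1 ⊆ f '' X := by
    intro t ht
    exact ⟨g t, ⟨t, ht, rfl⟩, hfg t ht⟩
  have h1 : (1 : ℝ≥0∞) ≤ dimH (f '' X) := by
    have h2 : dimH (Ico (0:ℝ) 1) = 1 := by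
      have := Real.dimH_of_nonempty_interior (s := Ico (0:ℝ) 1) (by simp)
      simpa using this
    rw [← h2]
    exact dimH_mono himg
  have h3 := hholder.dimH_image_le hρ0
  have h4 : (1 : ℝ≥0∞) ≤ dimH X / ρ := h1.trans h3
  have hr' : (ρ : ℝ≥0∞) ≠ 0 := by simpa using hρ0.ne'
  rw [ENNReal.le_div_iff_mul_le (Or.inl hr') (Or.inl ENNReal.coe_ne_top), one_mul] at h4
  calc ENNReal.ofReal r = (ρ : ℝ≥0∞) := by rw [← ENNReal.ofReal_coe_nnreal]; rfl
    _ ≤ dimH X := h4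
    _ ≤ _ := dimH_mono hXsub

/-! ### binary digits in blocks -/

/-- partial sums of block lengths -/
def A (a : ℕ → ℕ) (k : ℕ) : ℕ := ∑ j ∈ Finset.range k, a j

lemma A_succ (a : ℕ → ℕ) (k : ℕ) : A a (k + 1) = A a k + a k := Finset.sum_range_succ _ _

/-- integer part of `2^n t` -/
noncomputable def D (t : ℝ) (n : ℕ) : ℕ := ⌊2 ^ n * t⌋₊

/-- blocks of binary digits -/
noncomputable def cc (a : ℕ → ℕ) (t : ℝ) (k : ℕ) : ℕ := D t (A a (k + 1)) % 2 ^ a k

lemma D_div (t : ℝ) (n m : ℕ) : D t (n + m) / 2 ^ m = D t n := by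
  unfold D
  have h : (2:ℝ) ^ n * t = (2 ^ (n + m) * t) / ((2 ^ m : ℕ) : ℝ) := by
    push_cast; rw [pow_add]; field_simp
  rw [h, Nat.floor_div_natCast]

lemma cc_lt (a : ℕ → ℕ) (t : ℝ) (k : ℕ) : cc a t k < 2 ^ a k := Nat.mod_lt _ (by positivity)

lemma D_rec (a : ℕ → ℕ) (t : ℝ) (k : ℕ) :
    D t (A a (k + 1)) = 2 ^ a k * D t (A a k) + cc a t k := by
  have h := Nat.div_add_mod (D t (A a (k + 1))) (2 ^ a k)
  rw [A_succ, D_div] at h
  unfold cc
  rw [A_succ]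
  exact h.symm

lemma D_eq_of {a : ℕ → ℕ} {t t' : ℝ} (h1 : t < 1) (h1' : t' < 1) (k : ℕ)
    (h : ∀ j < k, cc a t j = cc a t' j) : D t (A a k) = D t' (A a k) := by
  induction k with
  | zero =>
    have : ∀ x : ℝ, x < 1 → D x (A a 0) = 0 := by
      intro x hx
      unfold D A
      simp only [Finset.range_zero, Finset.sum_empty, pow_zero, one_mul]
      exact Nat.floor_eq_zero.mpr hx
    rw [this t h1, this t' h1']
  | succ k ih =>
    rw [D_rec, D_rec, ih (fun j hj => h j (by omega)), h k (by omega)]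

lemma D_close {t t' : ℝ} (h0 : 0 ≤ t) (h0' : 0 ≤ t') (n : ℕ) {δ : ℕ}
    (h : |(D t n : ℝ) - D t' n| ≤ δ) : |t - t'| ≤ (δ + 1) / 2 ^ n := by
  have hp : (0:ℝ) < 2 ^ n := by positivity
  have a1 := Nat.floor_le (a := 2 ^ n * t) (by positivity)
  have a2 := Nat.lt_floor_add_one (2 ^ n * t)
  have b1 := Nat.floor_le (a := 2 ^ n * t') (by positivity)
  have b2 := Nat.lt_floor_add_one (2 ^ n * t')
  unfold D at h
  rw [le_div_iff₀ hp]
  have e1 : |t - t'| * 2 ^ n = |2 ^ n * t - 2 ^ n * t'| := by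
    rw [← mul_sub, abs_mul, abs_of_pos hp]; ring
  rw [e1, abs_le]
  rw [abs_le] at h
  constructor <;> linarith [h.1, h.2]

/-- first difference -/
lemma first_diff {a : ℕ → ℕ} (ha : ∀ n, ∃ k, n ≤ A a k) {t t' : ℝ} (ht : t ∈ Ico (0:ℝ) 1)
    (ht' : t' ∈ Ico (0:ℝ) 1) (hne : t ≠ t') : ∃ k, cc a t k ≠ cc a t' k ∧
      (∀ j < k, cc a t j = cc a t' j) ∧
      |t - t'| ≤ 2 * |(cc a t k : ℝ) - cc a t' k| / 2 ^ A a (k + 1) := by
  classical
  have hex : ∃ k, cc a t k ≠ cc a t' k := by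
    by_contra hcon
    push Not at hcon
    apply hne
    have h1 : ∀ n : ℕ, |t - t'| ≤ (1 / 2 : ℝ) ^ n := by
      intro n
      obtain ⟨k, hk⟩ := ha n
      have h2 := D_eq_of (a := a) ht.2 ht'.2 k (fun j _ => hcon j)
      have h3 := D_close ht.1 ht'.1 (A a k) (δ := 0) (by rw [h2]; simp)
      refine h3.trans ?_
      rw [Nat.cast_zero, zero_add, one_div, one_div, inv_pow]
      gcongr
      norm_num
    have h2 : Tendsto (fun n : ℕ => (1 / 2 : ℝ) ^ n) atTop (𝓝 0) :=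
      tendsto_pow_atTop_nhds_zero_of_lt_one (by norm_num) (by norm_num)
    have h3 : |t - t'| ≤ 0 := ge_of_tendsto' h2 h1
    have h4 := abs_nonneg (t - t')
    linarith [abs_eq_zero.mp (le_antisymm h3 h4)]
  refine ⟨Nat.find hex, Nat.find_spec hex, fun j hj => not_not.mp (Nat.find_min hex hj), ?_⟩
  set k := Nat.find hex
  have h1 : ∀ j < k, cc a t j = cc a t' j := fun j hj => not_not.mp (Nat.find_min hex hj)
  have h2 := D_eq_of (a := a) ht.2 ht'.2 k h1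
  have hk : cc a t k ≠ cc a t' k := Nat.find_spec hex
  set δ : ℕ := ((cc a t k : ℤ) - cc a t' k).natAbs with hδ
  have hδ1 : 1 ≤ δ := by omega
  have hδr : (δ : ℝ) = |(cc a t k : ℝ) - cc a t' k| := by
    rw [hδ, Nat.cast_natAbs]; push_cast; rfl
  have h3 : |(D t (A a (k + 1)) : ℝ) - D t' (A a (k + 1))| ≤ δ := by
    rw [D_rec, D_rec, h2, hδr]
    push_cast
    apply le_of_eq; congr 1; ring
  refine (D_close ht.1 ht'.1 _ h3).trans ?_
  rw [← hδr]
  gcongr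
  have : (1:ℝ) ≤ δ := by exact_mod_cast hδ1
  linarith

namespace Sys
variable (Y : Sys)

/-- separation of points in different branches -/
lemma sep {e e' : ℕ} (he : 1 ≤ e) (hee : e < e') {M : ℕ} {u u' : ℝ} (hu : u ∈ Icc (0:ℝ) 1)
    (hu' : u' ∈ Icc (0:ℝ) 1) (h1 : 1 / ((M:ℝ) + 1) ≤ u) (h2 : 1 / ((M:ℝ) + 1) ≤ u') :
    ((e':ℝ) - e) / ((M + 1) * (e' + 1) ^ 2) ≤ Y.T e u - Y.T e' u' := by
  have he' : 1 ≤ e' := by omega
  have hm1 := Y.maps he hu
  have hm2 := Y.maps he' hu'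
  have her : (1:ℝ) ≤ e := by exact_mod_cast he
  have heer : (e:ℝ) + 1 ≤ e' := by exact_mod_cast hee
  have hM : (0:ℝ) < (M:ℝ) + 1 := by positivity
  have hmid : ((e':ℝ) - e - 1) / ((e' + 1) ^ 2) ≤ 1 / ((e:ℝ) + 1) - 1 / e' := by
    have : 1 / ((e:ℝ) + 1) - 1 / e' = (e' - e - 1) / ((e + 1) * e') := by
      have : (e':ℝ) ≠ 0 := by positivity
      field_simp
      ring
    rw [this]
    apply div_le_div_of_nonneg_left (by linarith) (by positivity)
    nlinarith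
  have hmid' : ((e':ℝ) - e - 1) / ((M + 1) * (e' + 1) ^ 2) ≤ 1 / ((e:ℝ) + 1) - 1 / e' := by
    refine le_trans ?_ hmid
    apply div_le_div_of_nonneg_left (by linarith) (by positivity)
    have : (1:ℝ) ≤ (M:ℝ) + 1 := by linarith [Nat.cast_nonneg (α := ℝ) M]
    nlinarith [sq_nonneg ((e':ℝ) + 1)]
  have hout : 1 / ((M + 1) * ((e':ℝ) + 1) ^ 2) ≤
      (Y.T e u - 1 / (e + 1)) + (1 / e' - Y.T e' u') := by
    rcases Y.ho with ho | ho
    · have h3 := Y.lo e he u hu Y.o Y.hoI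
      rw [Y.T_o e he, ho, sub_zero, abs_of_nonneg hu.1, abs_of_nonneg (by linarith [hm1.1])] at h3
      have h4 : 1 / ((M + 1) * ((e':ℝ) + 1) ^ 2) ≤ u / ((e:ℝ) + 1) ^ 2 := by
        rw [← div_div]
        gcongr
        linarith [hu.1]
      linarith [hm2.2]
    · have h3 := Y.lo e' he' (1 - Y.o) Y.hoI' u' hu'
      rw [Y.T_o' e' he', ho, sub_self, zero_sub, abs_neg, abs_of_nonneg hu'.1,
        abs_of_nonneg (by linarith [hm2.2])] at h3
      have h4 : 1 / ((M + 1) * ((e':ℝ) + 1) ^ 2) ≤ u' / ((e':ℝ) + 1) ^ 2 := by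
        rw [← div_div]
        gcongr
      linarith [hm1.1]
  have hsum : ((e':ℝ) - e) / ((M + 1) * (e' + 1) ^ 2) =
      ((e':ℝ) - e - 1) / ((M + 1) * (e' + 1) ^ 2) + 1 / ((M + 1) * ((e':ℝ) + 1) ^ 2) := by
    rw [← add_div]; congr 1; ring
  rw [hsum]
  linarith

lemma sep' {e e' : ℕ} (he : 1 ≤ e) (he' : 1 ≤ e') (hee : e ≠ e') {M Q : ℕ} (hQ : e + 1 ≤ Q)
    (hQ' : e' + 1 ≤ Q) {u u' : ℝ} (hu : u ∈ Icc (0:ℝ) 1)
    (hu' : u' ∈ Icc (0:ℝ) 1) (h1 : 1 / ((M:ℝ) + 1) ≤ u) (h2 : 1 / ((M:ℝ) + 1) ≤ u') :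
    |(e:ℝ) - e'| / ((M + 1) * Q ^ 2) ≤ |Y.T e u - Y.T e' u'| := by
  have hQr : (e:ℝ) + 1 ≤ Q := by exact_mod_cast hQ
  have hQr' : (e':ℝ) + 1 ≤ Q := by exact_mod_cast hQ'
  have her : (0:ℝ) ≤ e := Nat.cast_nonneg _
  have her' : (0:ℝ) ≤ e' := Nat.cast_nonneg _
  rcases lt_or_gt_of_ne hee with h | h
  · have h3 := Y.sep he h hu hu' h1 h2
    have hr : (e:ℝ) < e' := by exact_mod_cast h
    refine le_trans ?_ (h3.trans (le_abs_self _))
    rw [abs_sub_comm, abs_of_pos (by linarith)]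
    apply div_le_div_of_nonneg_left (by linarith) (by positivity)
    gcongr
  · have h3 := Y.sep he' h hu' hu h2 h1
    have hr : (e':ℝ) < e := by exact_mod_cast h
    rw [abs_sub_comm (Y.T e u)]
    refine le_trans ?_ (h3.trans (le_abs_self _))
    rw [abs_of_pos (by linarith)]
    apply div_le_div_of_nonneg_left (by linarith) (by positivity)
    gcongr

end Sys

open Sys

/-! ### the parametrized set -/

section
variable (s d a : ℕ → ℕ)

open Classical in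
/-- the digit sequence of the parameter `t` -/
noncomputable def mt (t : ℝ) (i : ℕ) : ℕ :=
  if h : ∃ k, s k = i then 2 ^ a h.choose + cc a t h.choose else d i

variable {s d a} (hs : ∀ k, s k + 2 ≤ s (k + 1))

include hs in
lemma s_mono : StrictMono s := strictMono_nat_of_lt_succ fun k => by have := hs k; omega

include hs in
lemma mt_s (t : ℝ) (k : ℕ) : mt s d a t (s k) = 2 ^ a k + cc a t k := by
  have h : ∃ j, s j = s k := ⟨k, rfl⟩
  unfold mt
  rw [dif_pos h, (s_mono hs).injective h.choose_spec]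

lemma mt_off (t : ℝ) {i : ℕ} (hi : ∀ k, s k ≠ i) : mt s d a t i = d i := by
  unfold mt
  rw [dif_neg (by push Not; exact hi)]

include hs in
lemma s_between {k i : ℕ} (h1 : s k < i) (h2 : i < s (k + 1)) : ∀ j, s j ≠ i := by
  rintro j rfl
  have h3 := (s_mono hs).lt_iff_lt.mp h1
  have h4 := (s_mono hs).lt_iff_lt.mp h2
  omega

include hs in
lemma s_before {i : ℕ} (h2 : i < s 0) : ∀ j, s j ≠ i := by
  rintro j rfl
  have := (s_mono hs).lt_iff_lt.mp h2
  omega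

variable {M : ℕ} (hd : ∀ i, 1 ≤ d i) (hdM : ∀ i, (∀ k, s k ≠ i) → d i ≤ M)

include hd in
lemma mt_pos (t : ℝ) (i : ℕ) : 1 ≤ mt s d a t i := by
  unfold mt
  split_ifs with h
  · have : 1 ≤ 2 ^ a h.choose := Nat.one_le_two_pow
    omega
  · exact hd i

lemma prod_le_of_le {m : ℕ → ℕ} {i n : ℕ} (h : ∀ j < n, m (i + j) ≤ M) :
    ((pre m i n).map fun m : ℕ => ((m:ℝ) + 1) ^ 2).prod ≤ ((M:ℝ) + 1) ^ (2 * n) := by
  induction n with
  | zero => simp [pre]
  | succ n ih =>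
    rw [pre_succ, List.map_append, List.prod_append, List.map_singleton, List.prod_singleton,
      show 2 * (n + 1) = 2 * n + 2 by ring, pow_add]
    have h1 : (m (i + n) : ℝ) ≤ M := by exact_mod_cast h n (by omega)
    have h2 := ih fun j hj => h j (by omega)
    have h3 : 0 ≤ ((pre m i n).map fun m : ℕ => ((m:ℝ) + 1) ^ 2).prod := by
      apply List.prod_nonneg
      intro x hx
      rw [List.mem_map] at hx
      obtain ⟨y, _, rfl⟩ := hx
      positivity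
    gcongr

lemma prod_pos' (w : List ℕ) : 0 < (w.map fun m : ℕ => ((m:ℝ) + 1) ^ 2).prod := by
  apply List.prod_pos
  intro x hx
  rw [List.mem_map] at hx
  obtain ⟨y, _, rfl⟩ := hx
  positivity

include hs hdM in
lemma prod_bound (t : ℝ) (k : ℕ) :
    ((pre (mt s d a t) 0 (s k)).map fun m : ℕ => ((m:ℝ) + 1) ^ 2).prod ≤
      ((M:ℝ) + 1) ^ (2 * s k) * 2 ^ (2 * A a k + 2 * k) := by
  induction k with
  | zero =>
    have := prod_le_of_le (M := M) (m := mt s d a t) (i := 0) (n := s 0) (fun j hj => by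
      rw [zero_add, mt_off t (s_before hs hj)]
      exact hdM _ (s_before hs hj))
    simpa [A] using this
  | succ k ih =>
    obtain ⟨n, hn⟩ : ∃ n, s (k + 1) = s k + (n + 1) := ⟨s (k + 1) - s k - 1, by have := hs k; omega⟩
    rw [hn, pre_add, zero_add, pre_succ', List.map_append, List.prod_append, List.map_cons,
      List.prod_cons, mt_s hs]
    have h1 := prod_le_of_le (M := M) (m := mt s d a t) (i := s k + 1) (n := n) (fun j hj => by
      have hb := s_between hs (k := k) (i := s k + 1 + j) (by omega) (by omega)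
      rw [mt_off t hb]
      exact hdM _ hb)
    have h2 : (((2 ^ a k + cc a t k : ℕ) : ℝ) + 1) ^ 2 ≤ 2 ^ (2 * a k + 2) := by
      have h3 : 2 ^ a k + cc a t k + 1 ≤ 2 ^ (a k + 1) := by
        have := cc_lt a t k; rw [pow_succ]; omega
      have h4 : (((2 ^ a k + cc a t k : ℕ) : ℝ) + 1) ≤ 2 ^ (a k + 1) := by exact_mod_cast h3
      calc _ ≤ ((2:ℝ) ^ (a k + 1)) ^ 2 := by gcongr
        _ = _ := by rw [← pow_mul]; congr 1; ring
    have hM1 : (1:ℝ) ≤ (M:ℝ) + 1 := by linarith [Nat.cast_nonneg (α := ℝ) M]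
    calc _ ≤ (((M:ℝ) + 1) ^ (2 * s k) * 2 ^ (2 * A a k + 2 * k)) *
          (2 ^ (2 * a k + 2) * ((M:ℝ) + 1) ^ (2 * n)) := by
          refine mul_le_mul ih (mul_le_mul h2 h1 (prod_pos' _).le (by positivity))
            (mul_nonneg (by positivity) (prod_pos' _).le) (by positivity)
      _ = ((M:ℝ) + 1) ^ (2 * s k + 2 * n) * 2 ^ (2 * A a (k + 1) + 2 * (k + 1)) := by
          rw [A_succ, pow_add ((M:ℝ) + 1),
            show 2 * (A a k + a k) + 2 * (k + 1) = (2 * A a k + 2 * k) + (2 * a k + 2) by ring,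
            pow_add (2:ℝ) (2 * A a k + 2 * k)]
          ring
      _ ≤ _ := by
          gcongr
          omega

/-! ### the expansion estimate -/

variable (Y : Sys)

include hs hd hdM in
theorem expand (ha : ∀ n, ∃ k, n ≤ A a k) {r C₀ : ℝ} (hr0 : 0 < r) (hr1 : r ≤ 1)
    (hcond : ∀ k, r * (a k + 2 * s k * Real.logb 2 (M + 1) + 2 * k) ≤ (1 - 2 * r) * A a k + C₀)
    {η η' : ℕ → ℝ} {t t' : ℝ} (ht : t ∈ Ico (0:ℝ) 1) (ht' : t' ∈ Ico (0:ℝ) 1)
    (hη : Y.Code (mt s d a t) η) (hη' : Y.Code (mt s d a t') η') :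
    |t - t'| ≤ 2 * ((M:ℝ) + 1) ^ r * 2 ^ (C₀ + 2 * r) * |η 0 - η' 0| ^ r := by
  rcases eq_or_ne t t' with rfl | hne
  · rw [sub_self, abs_zero]; positivity
  obtain ⟨k, hk1, hk2, hk3⟩ := first_diff ha ht ht' hne
  have hMr : (0:ℝ) < (M:ℝ) + 1 := by positivity
  have hM1 : (1:ℝ) ≤ (M:ℝ) + 1 := by linarith [Nat.cast_nonneg (α := ℝ) M]
  -- the common word
  have hword : pre (mt s d a t) 0 (s k) = pre (mt s d a t') 0 (s k) := by
    unfold pre
    apply List.map_congr_left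
    intro j hj
    rw [List.mem_range] at hj
    rw [zero_add]
    by_cases h : ∃ i, s i = j
    · obtain ⟨i, rfl⟩ := h
      have hi : i < k := (s_mono hs).lt_iff_lt.mp hj
      rw [mt_s hs, mt_s hs, hk2 i hi]
    · push Not at h
      rw [mt_off t h, mt_off t' h]
  have w1 := hη.word 0 (s k)
  have w2 := hη'.word 0 (s k)
  rw [zero_add] at w1 w2
  rw [← hword] at w2
  have hlow := Y.W_lo (pre_pos (mt_pos (s := s) (a := a) hd t) 0 (s k)) (hη.mem (s k)) (hη'.mem (s k))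
  rw [← w1, ← w2] at hlow
  -- the branch points
  have hoff := s_between hs (k := k) (i := s k + 1) (by omega) (by have := hs k; omega)
  have hu : 1 / ((M:ℝ) + 1) ≤ η (s k + 1) := by
    refine le_trans ?_ (hη.bounds Y (s k + 1)).1
    rw [mt_off t hoff]
    have : (d (s k + 1) : ℝ) ≤ M := by exact_mod_cast hdM _ hoff
    gcongr
  have hu' : 1 / ((M:ℝ) + 1) ≤ η' (s k + 1) := by
    refine le_trans ?_ (hη'.bounds Y (s k + 1)).1
    rw [mt_off t' hoff]
    have : (d (s k + 1) : ℝ) ≤ M := by exact_mod_cast hdM _ hoff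
    gcongr
  have p1 : 1 ≤ 2 ^ a k := Nat.one_le_two_pow
  have q1 := cc_lt a t k
  have q2 := cc_lt a t' k
  have hsep := Y.sep' (e := 2 ^ a k + cc a t k) (e' := 2 ^ a k + cc a t' k) (by omega) (by omega)
    (by omega) (M := M) (Q := 2 ^ (a k + 1)) (by rw [pow_succ]; omega) (by rw [pow_succ]; omega)
    (hη.mem (s k + 1)) (hη'.mem (s k + 1)) hu hu'
  have e1 := hη.eq (s k)
  have e2 := hη'.eq (s k)
  rw [mt_s hs] at e1 e2
  rw [← e1, ← e2] at hsep
  set Δ : ℝ := |(cc a t k : ℝ) - cc a t' k| with hΔ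
  have hΔe : |((2 ^ a k + cc a t k : ℕ) : ℝ) - ((2 ^ a k + cc a t' k : ℕ) : ℝ)| = Δ := by
    rw [hΔ]; push_cast; congr 1; ring
  rw [hΔe] at hsep
  have hΔ1 : 1 ≤ Δ := by
    have h1 : (1:ℤ) ≤ |(cc a t k : ℤ) - cc a t' k| := Int.one_le_abs (by omega)
    have h2 : ((1:ℤ) : ℝ) ≤ ((|(cc a t k : ℤ) - cc a t' k| : ℤ) : ℝ) := by exact_mod_cast h1
    rw [Int.cast_abs] at h2
    push_cast at h2
    exact h2
  have hΔ2 : Δ ≤ 2 ^ a k := by
    have h1 : (cc a t k : ℝ) ≤ 2 ^ a k := by exact_mod_cast q1.le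
    have h2 : (cc a t' k : ℝ) ≤ 2 ^ a k := by exact_mod_cast q2.le
    have h3 : (0:ℝ) ≤ cc a t k := Nat.cast_nonneg _
    have h4 : (0:ℝ) ≤ cc a t' k := Nat.cast_nonneg _
    rw [hΔ, abs_le]; constructor <;> linarith
  set P := ((pre (mt s d a t) 0 (s k)).map fun m : ℕ => ((m:ℝ) + 1) ^ 2).prod with hP
  have hP0 : 0 < P := prod_pos' _
  have hPb : P ≤ ((M:ℝ) + 1) ^ (2 * s k) * 2 ^ (2 * A a k + 2 * k) := prod_bound hs hdM t k
  -- lower bound for the distance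
  set L := Real.logb 2 ((M:ℝ) + 1) with hL
  have hLM : (2:ℝ) ^ L = (M:ℝ) + 1 := Real.rpow_logb (by norm_num) (by norm_num) hMr
  set X : ℝ := 2 * s k * L + (2 * A a k + 2 * k) + (2 * a k + 2) with hX
  have hdist : Δ / ((M + 1) * 2 ^ X) ≤ |η 0 - η' 0| := by
    refine le_trans ?_ hlow
    rw [le_div_iff₀ hP0]
    refine le_trans ?_ hsep
    have e3 : (2:ℝ) ^ X = ((M:ℝ) + 1) ^ (2 * s k) * 2 ^ (2 * A a k + 2 * k) * 2 ^ (2 * a k + 2) := by
      rw [hX, Real.rpow_add (by norm_num), Real.rpow_add (by norm_num)]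
      congr 1
      · congr 1
        · rw [mul_comm, Real.rpow_mul (by norm_num), hLM]
          rw [← Real.rpow_natCast]; push_cast; rfl
        · rw [← Real.rpow_natCast]; push_cast; rfl
      · rw [← Real.rpow_natCast]; push_cast; rfl
    have e4 : (((2 ^ (a k + 1) : ℕ) : ℝ)) ^ 2 = 2 ^ (2 * a k + 2) := by
      push_cast; rw [← pow_mul]; congr 1; ring
    rw [e4, e3, div_mul_eq_mul_div, div_le_div_iff₀ (by positivity) (by positivity)]
    have : Δ * P * ((M + 1) * 2 ^ (2 * a k + 2)) ≤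
        Δ * (((M:ℝ) + 1) ^ (2 * s k) * 2 ^ (2 * A a k + 2 * k)) * ((M + 1) * 2 ^ (2 * a k + 2)) := by
      gcongr
    refine this.trans (le_of_eq ?_)
    ring
  -- conclusion
  have hpow : (Δ / ((M + 1) * 2 ^ X)) ^ r ≤ |η 0 - η' 0| ^ r :=
    Real.rpow_le_rpow (by positivity) hdist hr0.le
  have e5 : (Δ / ((M + 1) * 2 ^ X)) ^ r = Δ ^ r / (((M:ℝ) + 1) ^ r * 2 ^ (X * r)) := by
    rw [Real.div_rpow (by positivity) (by positivity), Real.mul_rpow (by positivity) (by positivity),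
      ← Real.rpow_mul (by norm_num)]
  rw [e5] at hpow
  have hΔr : Δ ≤ Δ ^ r * 2 ^ (a k * (1 - r)) := by
    have h1 : Δ = Δ ^ r * Δ ^ (1 - r) := by
      rw [← Real.rpow_add (by linarith), add_sub_cancel, Real.rpow_one]
    have h2 : Δ ^ (1 - r) ≤ 2 ^ (a k * (1 - r)) := by
      rw [Real.rpow_mul (by norm_num), Real.rpow_natCast]
      exact Real.rpow_le_rpow (by linarith) hΔ2 (by linarith)
    calc Δ = Δ ^ r * Δ ^ (1 - r) := h1
      _ ≤ _ := by gcongr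
  calc |t - t'| ≤ 2 * Δ / 2 ^ A a (k + 1) := hk3
    _ ≤ 2 * (Δ ^ r * 2 ^ (a k * (1 - r))) / 2 ^ A a (k + 1) := by gcongr
    _ = 2 * Δ ^ r * 2 ^ ((a k * (1 - r)) - (A a k + a k)) := by
        rw [Real.rpow_sub (by norm_num), A_succ, ← Nat.cast_add, Real.rpow_natCast]
        ring
    _ ≤ 2 * Δ ^ r * 2 ^ ((C₀ + 2 * r) - X * r) := by
        apply mul_le_mul_of_nonneg_left _ (by positivity)
        apply Real.rpow_le_rpow_of_exponent_le (by norm_num)
        have := hcond k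
        rw [hX]
        nlinarith
    _ = 2 * ((M:ℝ) + 1) ^ r * 2 ^ (C₀ + 2 * r) * (Δ ^ r / (((M:ℝ) + 1) ^ r * 2 ^ (X * r))) := by
        rw [Real.rpow_sub (by norm_num)]
        field_simp
    _ ≤ _ := by gcongr

/-- **Lower bound** for the dimension of sets with free large digits at sparse places. -/
theorem dim_lower {E : Set ℝ} (hs : ∀ k, s k + 2 ≤ s (k + 1)) (hd : ∀ i, 1 ≤ d i)
    (hdM : ∀ i, (∀ k, s k ≠ i) → d i ≤ M) (ha : ∀ n, ∃ k, n ≤ A a k) {r C₀ : ℝ} (hr0 : 0 < r)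
    (hr1 : r ≤ 1)
    (hcond : ∀ k, r * (a k + 2 * s k * Real.logb 2 (M + 1) + 2 * k) ≤ (1 - 2 * r) * A a k + C₀)
    (hE : ∀ t ∈ Ico (0:ℝ) 1, ∀ η, Y.Code (mt s d a t) η → η 0 ∈ E) :
    ENNReal.ofReal r ≤ dimH E := by
  choose η hη using fun t : ℝ => Y.exists_code (mt s d a t) (mt_pos hd t)
  exact dim_ge_of_expand (g := fun t => η t 0)
    (C := 2 * ((M:ℝ) + 1) ^ r * 2 ^ (C₀ + 2 * r)) (by positivity) hr0
    (fun t ht => hE t ht _ (hη t))
    (fun t ht t' ht' => expand hs hd hdM Y ha hr0 hr1 hcond ht ht' (hη t) (hη t'))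

end

end Pool.Agent.X86.AF
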