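import Pool.Agent.X86.AF.Geo
import Pool.Agent.X86.AF.Lower

/-! asymptotic sets -/

set_option autoImplicit false

open Set Filter Topology MeasureTheory
open scoped ENNReal NNReal

namespace Pool.Agent.X86.AF

open Sys

/-- the map `F` on `D` is coded by the digit system `Y` -/
structure IsMap (Y : Sys) (D : Set ℝ) (F : ℝ → ℝ) : Prop where
  sub : D ⊆ Icc 0 1
  ioo : Ioo 0 1 ⊆ D
  zmem : (0:ℝ) ∈ D
  maps : ∀ y ∈ D, F y ∈ D
  zero : F 0 = 0
  inv : ∀ m, 1 ≤ m → ∀ u ∈ Ioo (0:ℝ) 1, F (Y.T m u) = u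
  fib : ∀ y ∈ D, y ≠ 0 → ∃ m, 1 ≤ m ∧ y = Y.T m (F y)

/-- asymptotic sets -/
def AS (F : ℝ → ℝ) (D : Set ℝ) (x : ℝ) : Set ℝ :=
  {y | y ∈ D ∧ Tendsto (fun n => |F^[n] x - F^[n] y|) atTop (𝓝 0)}

variable {Y : Sys} {D : Set ℝ} {F : ℝ → ℝ}

lemma IsMap.iter_mem (h : IsMap Y D F) {y : ℝ} (hy : y ∈ D) (n : ℕ) : F^[n] y ∈ D := by
  induction n with
  | zero => exact hy
  | succ n ih => rw [Function.iterate_succ_apply']; exact h.maps _ ih

lemma IsMap.iter_zero (h : IsMap Y D F) (n : ℕ) : F^[n] 0 = 0 := by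
  induction n with
  | zero => rfl
  | succ n ih => rw [Function.iterate_succ_apply', ih, h.zero]

lemma IsMap.code (h : IsMap Y D F) {y : ℝ} (hy : y ∈ D) (h0 : ∀ n, F^[n] y ≠ 0) :
    ∃ m, Y.Code m (fun n => F^[n] y) := by
  choose m hm1 hm2 using fun n => h.fib _ (h.iter_mem hy n) (h0 n)
  refine ⟨m, hm1, fun i => h.sub (h.iter_mem hy i), fun i => ?_⟩
  rw [Function.iterate_succ_apply']
  exact hm2 i

lemma IsMap.iter (h : IsMap Y D F) {m : ℕ → ℕ} {η : ℕ → ℝ} (hc : Y.Code m η)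
    (hinf : ∀ i, ∃ j, i ≤ j ∧ 2 ≤ m j) (n : ℕ) : F^[n] (η 0) = η n := by
  induction n with
  | zero => rfl
  | succ n ih =>
    rw [Function.iterate_succ_apply', ih, hc.eq n]
    exact h.inv _ (hc.one_le n) _ ⟨hc.pos Y _, hc.lt_one Y hinf _⟩

lemma IsMap.zero_count (h : IsMap Y D F) :
    {y | y ∈ D ∧ ∃ n, F^[n] y = 0} ⊆ range (fun w : List ℕ => W Y.T w 0) := by
  rintro y ⟨hy, n, hn⟩
  induction n generalizing y with
  | zero => exact ⟨[], by simpa using hn.symm⟩
  | succ n ih =>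
    rw [Function.iterate_succ_apply] at hn
    obtain ⟨w, hw⟩ := ih (h.maps _ hy) hn
    by_cases h0 : y = 0
    · exact ⟨[], by simp [h0]⟩
    · obtain ⟨m, _, hm⟩ := h.fib y hy h0
      refine ⟨m :: w, ?_⟩
      simp only at hw
      simp only [W_cons]
      rw [hw]; exact hm.symm

lemma tail_zero {x : ℝ} (h : IsMap Y D F) {n : ℕ} (hn : F^[n] x = 0) (k : ℕ) (hk : n ≤ k) :
    F^[k] x = 0 := by
  obtain ⟨j, rfl⟩ := Nat.exists_eq_add_of_le hk
  rw [add_comm, Function.iterate_add_apply, hn, h.iter_zero]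

/-- one step of the comparison of digits -/
lemma close_step {a b : ℕ} (ha : 1 ≤ a) (hab : a < b) {K : ℕ} (haK : a ≤ K) {u v : ℝ}
    (hu : u ∈ Icc (0:ℝ) 1) (hv : v ∈ Icc (0:ℝ) 1) {ε : ℝ}
    (hε : ε ≤ 1 / (4 * ((K:ℝ) + 2) ^ 2)) (h1 : |Y.T a u - Y.T b v| < ε) : ε < |u - v| := by
  have hb : 1 ≤ b := by omega
  have hm1 := Y.maps ha hu
  have hm2 := Y.maps hb hv
  have haR : (1:ℝ) ≤ a := by exact_mod_cast ha
  have haK' : (a:ℝ) ≤ K := by exact_mod_cast haK
  have hbR : (a:ℝ) + 1 ≤ b := by exact_mod_cast hab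
  have h2 : (1:ℝ) / b ≤ 1 / (a + 1) := one_div_le_one_div_of_le (by linarith) hbR
  rw [abs_lt] at h1
  -- closeness to the common endpoint
  have c1 : Y.T a u - 1 / (a + 1) < ε := by linarith [hm2.2]
  have c2 : 1 / ((a:ℝ) + 1) - Y.T b v < ε := by linarith [hm1.1]
  have hK2 : (0:ℝ) < (K:ℝ) + 2 := by positivity
  have hε0 : 0 < ε := by linarith [hm1.1]
  have hεK : ε * (4 * ((K:ℝ) + 2) ^ 2) ≤ 1 := by
    rw [le_div_iff₀ (by positivity)] at hε; exact hε
  -- b = a + 1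
  have hba : b = a + 1 := by
    by_contra hne
    have hb2 : a + 2 ≤ b := by omega
    have hb2R : (a:ℝ) + 2 ≤ b := by exact_mod_cast hb2
    have h3 : (1:ℝ) / b ≤ 1 / (a + 2) := one_div_le_one_div_of_le (by linarith) hb2R
    have h4 : 1 / ((a:ℝ) + 1) - 1 / (a + 2) = 1 / ((a + 1) * (a + 2)) := by field_simp; ring
    have h5 : 1 / ((K + 2) ^ 2 : ℝ) ≤ 1 / (((a:ℝ) + 1) * (a + 2)) := by
      apply one_div_le_one_div_of_le (by positivity)
      nlinarith
    have h6 : ε ≤ 1 / ((K + 2) ^ 2 : ℝ) := by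
      refine hε.trans ?_
      apply one_div_le_one_div_of_le (by positivity)
      nlinarith
    linarith [hm2.2]
  subst hba
  have d1 := Y.lo a ha u hu _ Y.hoI
  rw [Y.T_o a ha, abs_of_nonneg (a := Y.T a u - 1 / (a + 1)) (by linarith [hm1.1])] at d1
  have d2 := Y.lo (a + 1) hb v hv _ Y.hoI'
  rw [Y.T_o' (a + 1) hb] at d2
  push_cast at d2 c2 hm2
  rw [abs_sub_comm (Y.T (a + 1) v), abs_of_nonneg (a := 1 / ((a:ℝ) + 1) - Y.T (a + 1) v)
    (by linarith [hm2.2])] at d2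
  rw [div_le_iff₀ (by positivity)] at d1 d2
  have e1 : |u - Y.o| ≤ ε * (K + 2) ^ 2 := by
    refine d1.trans ?_
    have : ((a:ℝ) + 1) ^ 2 ≤ (K + 2) ^ 2 := by
      apply pow_le_pow_left₀ (by positivity); linarith
    exact mul_le_mul c1.le this (by positivity) hε0.le
  have e2 : |v - (1 - Y.o)| ≤ ε * (K + 2) ^ 2 := by
    refine d2.trans ?_
    have : ((a:ℝ) + 1 + 1) ^ 2 ≤ (K + 2) ^ 2 := by
      apply pow_le_pow_left₀ (by positivity); linarith
    exact mul_le_mul c2.le this (by positivity) hε0.le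
  have e3 : (1:ℝ) ≤ |u - v| + (|u - Y.o| + |v - (1 - Y.o)|) := by
    have e4 : (1:ℝ) = |Y.o - (1 - Y.o)| := by
      rcases Y.ho with ho | ho <;> rw [ho] <;> norm_num
    have e5 := abs_sub_le Y.o u (1 - Y.o)
    have e6 := abs_sub_le u v (1 - Y.o)
    rw [abs_sub_comm Y.o u] at e5
    linarith
  have e7 : ε ≤ 1 / 4 * 1 := by
    have : (1:ℝ) ≤ (K + 2) ^ 2 := by
      have : (0:ℝ) ≤ K := Nat.cast_nonneg _
      nlinarith
    nlinarith
  nlinarith

/-- digits of asymptotic points -/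
lemma close_digits {m m' : ℕ → ℕ} {ξ η : ℕ → ℝ} (hξ : Y.Code m ξ) (hη : Y.Code m' η)
    (h : Tendsto (fun n => |ξ n - η n|) atTop (𝓝 0)) (K : ℕ) :
    ∀ᶠ n in atTop, m' n = m n ∨ (K < m n ∧ K < m' n) := by
  set ε : ℝ := 1 / (4 * ((K:ℝ) + 2) ^ 2) with hε
  have hε0 : 0 < ε := by positivity
  have h1 := h.eventually_lt_const hε0
  have h2 := (tendsto_add_atTop_nat 1).eventually h1
  filter_upwards [h1, h2] with n hn hn'
  by_contra hcon
  push Not at hcon
  obtain ⟨hne, hK⟩ := hcon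
  rw [hξ.eq n, hη.eq n] at hn
  rcases lt_or_gt_of_ne hne with hlt | hgt
  · have : m' n ≤ K := by
      by_contra hc
      have := hK (by omega)
      omega
    have h3 := close_step (Y := Y) (hη.one_le n) hlt this (hη.mem (n + 1)) (hξ.mem (n + 1))
      (ε := ε) le_rfl (by rw [abs_sub_comm]; exact hn)
    rw [abs_sub_comm] at h3
    linarith
  · have : m n ≤ K := by
      by_contra hc
      have := hK (by omega)
      omega
    have h3 := close_step (Y := Y) (hξ.one_le n) hgt this (hξ.mem (n + 1)) (hη.mem (n + 1))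
      (ε := ε) le_rfl hn
    linarith

lemma zero_digits {m : ℕ → ℕ} {η : ℕ → ℝ} (hη : Y.Code m η)
    (h : Tendsto η atTop (𝓝 0)) (K : ℕ) : ∀ᶠ n in atTop, K < m n := by
  have hε0 : (0:ℝ) < 1 / ((K:ℝ) + 1) := by positivity
  filter_upwards [h.eventually_lt_const hε0] with n hn
  have h1 := lt_of_le_of_lt (hη.bounds Y n).1 hn
  rw [one_div_lt_one_div (by positivity) (by positivity)] at h1
  have : (K:ℝ) < m n := by linarith
  exact_mod_cast this

/-- points with the same digits off a sparse set, and digits tending to infinity on it -/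
lemma asym_of {m m' : ℕ → ℕ} {ξ η : ℕ → ℝ} (hξ : Y.Code m ξ) (hη : Y.Code m' η) {s : ℕ → ℕ}
    (hs : StrictMono s) (hoff : ∀ i, i ∉ range s → m' i = m i)
    (h1 : Tendsto (fun k => m (s k)) atTop atTop) (h2 : Tendsto (fun k => m' (s k)) atTop atTop) :
    Tendsto (fun n => |ξ n - η n|) atTop (𝓝 0) := by
  classical
  rw [Metric.tendsto_atTop]
  intro ε hε
  obtain ⟨q, hq⟩ := exists_nat_gt (1 / ε)
  obtain ⟨k₀, hk₀⟩ := eventually_atTop.mp ((h1.eventually_ge_atTop (q + 1)).and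
    (h2.eventually_ge_atTop (q + 1)))
  refine ⟨s k₀, fun n hn => ?_⟩
  rw [Real.dist_eq, sub_zero, abs_abs]
  have hex : ∃ j, n ≤ s j := ⟨n, hs.id_le n⟩
  set j := Nat.find hex with hj
  have hj1 : n ≤ s j := Nat.find_spec hex
  have hj2 : ∀ i < j, s i < n := fun i hi => not_le.mp (Nat.find_min hex hi)
  have hjk : k₀ ≤ j := by
    by_contra hc
    have h3 : s j < s k₀ := hs (not_le.mp hc)
    omega
  have hword : pre m n (s j - n) = pre m' n (s j - n) := by
    unfold pre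
    apply List.map_congr_left
    intro i hi
    rw [List.mem_range] at hi
    refine (hoff (n + i) ?_).symm
    rintro ⟨l, hl⟩
    rcases lt_or_ge l j with h | h
    · have := hj2 l h; omega
    · have := hs.monotone h; omega
  have w1 := hξ.word n (s j - n)
  have w2 := hη.word n (s j - n)
  rw [← hword] at w2
  rw [Nat.add_sub_cancel' hj1] at w1 w2
  rw [w1, w2]
  refine lt_of_le_of_lt (Y.W_up_one (pre_pos hξ.one_le _ _) (hξ.mem _) (hη.mem _)) ?_
  obtain ⟨b1, b2⟩ := hk₀ j hjk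
  have b3 : ((q:ℝ) + 1) ≤ m (s j) := by exact_mod_cast b1
  have b4 : ((q:ℝ) + 1) ≤ m' (s j) := by exact_mod_cast b2
  have hq0 : (0:ℝ) ≤ q := Nat.cast_nonneg _
  have c0 : 1 / ((q:ℝ) + 1) < ε := by
    rw [div_lt_iff₀ hε] at hq
    rw [div_lt_iff₀ (by linarith)]
    nlinarith
  have c1 : ξ (s j) < ε := by
    refine lt_of_le_of_lt ((hξ.bounds Y (s j)).2.trans ?_) c0
    exact one_div_le_one_div_of_le (by linarith) b3
  have c2 : η (s j) < ε := by
    refine lt_of_le_of_lt ((hη.bounds Y (s j)).2.trans ?_) c0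
    exact one_div_le_one_div_of_le (by linarith) b4
  rw [abs_lt]
  constructor <;> linarith [(hξ.mem (s j)).1, (hη.mem (s j)).1]

/-- points of the asymptotic set with nonvanishing orbit are coded with eventually the same small
digits -/
lemma AS_sub (h : IsMap Y D F) {x : ℝ} (hx : x ∈ D) (K : ℕ) : ∃ d : ℕ → ℕ, ∀ y ∈ AS F D x,
    (∀ n, F^[n] y ≠ 0) → ∃ m, Y.Code m (fun n => F^[n] y) ∧
      ∀ᶠ n in atTop, m n = d n ∨ K ≤ m n := by
  by_cases h0 : ∀ n, F^[n] x ≠ 0
  · obtain ⟨d, hd⟩ := h.code hx h0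
    refine ⟨d, fun y hy hy0 => ?_⟩
    obtain ⟨m, hm⟩ := h.code hy.1 hy0
    refine ⟨m, hm, ?_⟩
    filter_upwards [close_digits hd hm hy.2 K] with n hn
    rcases hn with h1 | h1
    · exact Or.inl h1
    · exact Or.inr h1.2.le
  · push Not at h0
    obtain ⟨N, hN⟩ := h0
    refine ⟨fun _ => 0, fun y hy hy0 => ?_⟩
    obtain ⟨m, hm⟩ := h.code hy.1 hy0
    refine ⟨m, hm, ?_⟩
    have h1 : Tendsto (fun n => F^[n] y) atTop (𝓝 0) := by
      refine (tendsto_congr' ?_).mp hy.2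
      filter_upwards [eventually_ge_atTop N] with n hn
      rw [tail_zero h hN n hn, zero_sub, abs_neg, abs_of_nonneg (h.sub (h.iter_mem hy.1 n)).1]
    filter_upwards [zero_digits hm h1 K] with n hn
    exact Or.inr hn.le

lemma dimH_countable_union {C S : Set ℝ} (hC : C.Countable) : dimH (C ∪ S) = dimH S := by
  rw [dimH_union, dimH_countable hC]; simp

/-- **All asymptotic sets have dimension at most `1/2`.** -/
theorem AS_le_half (h : IsMap Y D F) {x : ℝ} (hx : x ∈ D) : dimH (AS F D x) ≤ ENNReal.ofReal (1 / 2) := by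
  have key : ∀ t : ℝ, 1 / 2 < t → dimH (AS F D x) ≤ ENNReal.ofReal t := by
    intro t ht
    obtain ⟨K, hK2, hK⟩ := upper_half Y ht
    obtain ⟨d, hd⟩ := AS_sub h hx K
    set C := range (fun w : List ℕ => W Y.T w 0) with hC
    have hCc : C.Countable := countable_range _
    have hsub : AS F D x ⊆ C ∪ ⋃ n₀ : ℕ, ⋃ p : Fin n₀ → ℕ,
        ZZ Y fun i m => (∀ h : i < n₀, m = p ⟨i, h⟩) ∧ (n₀ ≤ i → m = d i ∨ K ≤ m) := by
      intro y hy
      by_cases h0 : ∀ n, F^[n] y ≠ 0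
      · right
        obtain ⟨m, hm, he⟩ := hd y hy h0
        obtain ⟨n₀, hn₀⟩ := eventually_atTop.mp he
        rw [mem_iUnion]
        refine ⟨n₀, ?_⟩
        rw [mem_iUnion]
        exact ⟨fun i => m i, m, _, hm, rfl, fun i => ⟨fun _ => rfl, fun hi => hn₀ i hi⟩⟩
      · left
        push Not at h0
        exact h.zero_count ⟨hy.1, h0⟩
    refine (dimH_mono hsub).trans ?_
    rw [dimH_countable_union hCc, dimH_iUnion]
    apply iSup_le
    intro n₀
    rw [dimH_iUnion]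
    apply iSup_le
    intro p
    exact hK n₀ p d
  apply ENNReal.le_of_forall_pos_le_add
  intro ε hε _
  have := key (1 / 2 + ε) (by have : (0:ℝ) < ε := hε; linarith)
  rw [ENNReal.ofReal_add (by norm_num) (NNReal.coe_nonneg _), ENNReal.ofReal_coe_nnreal] at this
  exact this

/-- bounded digits give countable asymptotic sets -/
theorem AS_bounded (h : IsMap Y D F) {m : ℕ → ℕ} {ξ : ℕ → ℝ} (hξ : Y.Code m ξ)
    (hinf : ∀ i, ∃ j, i ≤ j ∧ 2 ≤ m j) {M : ℕ} (hM : ∀ i, m i ≤ M) :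
    dimH (AS F D (ξ 0)) = 0 := by
  have hx : ξ 0 ∈ D := h.ioo ⟨hξ.pos Y _, hξ.lt_one Y hinf _⟩
  set C := range (fun w : List ℕ => W Y.T w 0) ∪ range (fun w : List ℕ × ℕ => W Y.T w.1 (ξ w.2))
    with hC
  have hCc : C.Countable := (countable_range _).union (countable_range _)
  apply dimH_countable
  refine hCc.mono ?_
  intro y hy
  by_cases h0 : ∀ n, F^[n] y ≠ 0
  · right
    obtain ⟨m', hm'⟩ := h.code hy.1 h0
    have h2 : Tendsto (fun n => |ξ n - F^[n] y|) atTop (𝓝 0) := by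
      refine hy.2.congr fun n => ?_
      rw [h.iter hξ hinf n]
    obtain ⟨n₀, hn₀⟩ := eventually_atTop.mp (close_digits hξ hm' h2 M)
    have h3 : ∀ n, n₀ ≤ n → m' n = m n := by
      intro n hn
      rcases hn₀ n hn with h4 | h4
      · exact h4
      · have := hM n; omega
    have h4 : F^[n₀] y = ξ n₀ := by
      have h5 : ∀ j : ℕ, |ξ n₀ - F^[n₀] y| ≤ 2 * (1 / 2) ^ j := by
        intro j
        have w1 := hξ.word n₀ j
        have w2 := hm'.word n₀ j
        have hword : pre m' n₀ j = pre m n₀ j := by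
          unfold pre
          apply List.map_congr_left
          intro i _
          exact h3 _ (by omega)
        rw [hword] at w2
        rw [w1, w2]
        refine (Y.W_geo j _ (pre_length _ _ _) (pre_pos hξ.one_le _ _) (hξ.mem _) (hm'.mem _)).trans ?_
        have : |ξ (n₀ + j) - F^[n₀ + j] y| ≤ 1 := by
          have a1 := hξ.mem (n₀ + j)
          have a2 := hm'.mem (n₀ + j)
          rw [abs_le]; constructor <;> linarith [a1.1, a1.2, a2.1, a2.2]
        have h6 : (0:ℝ) ≤ 2 * (1 / 2) ^ j := by positivity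
        nlinarith
      have h6 : Tendsto (fun j : ℕ => (2:ℝ) * (1 / 2) ^ j) atTop (𝓝 0) := by
        have := (tendsto_pow_atTop_nhds_zero_of_lt_one (r := (1 / 2 : ℝ)) (by norm_num)
          (by norm_num)).const_mul 2
        simpa using this
      have h7 : |ξ n₀ - F^[n₀] y| ≤ 0 := ge_of_tendsto' h6 h5
      have := abs_eq_zero.mp (le_antisymm h7 (abs_nonneg _))
      linarith
    refine ⟨(pre m' 0 n₀, n₀), ?_⟩
    have w := hm'.word 0 n₀
    simp only [zero_add] at w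
    change W Y.T (pre m' 0 n₀) (ξ n₀) = y
    rw [← h4]
    exact w.symm
  · left
    push Not at h0
    exact h.zero_count ⟨hy.1, h0⟩

end Pool.Agent.X86.AF
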