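import Pool.Agent.X86.AF.Theta

/-! block codings -/

set_option autoImplicit false

open Set Filter Topology MeasureTheory
open scoped ENNReal NNReal

namespace Pool.Agent.X86.AF

open Sys

/-- separating digits -/
def fq (q : ℕ) : ℕ := if Nat.sqrt q ^ 2 = q then Nat.sqrt q + 2 else 1

lemma fq_pos (q : ℕ) : 1 ≤ fq q := by unfold fq; split_ifs <;> omega

lemma fq_sq (k : ℕ) : fq (k ^ 2) = k + 2 := by
  unfold fq
  have : Nat.sqrt (k ^ 2) = k := Nat.sqrt_eq' k
  rw [this, if_pos rfl]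

lemma fq_le (q : ℕ) : fq q ≤ q + 2 := by
  unfold fq
  have := Nat.sqrt_le_self q
  split_ifs <;> omega

lemma fq_two_pow (q : ℕ) : fq q + 1 ≤ 2 ^ (1 + if Nat.sqrt q ^ 2 = q then Nat.sqrt q + 1 else 0) := by
  unfold fq
  split_ifs with h
  · have : Nat.sqrt q + 2 < 2 ^ (Nat.sqrt q + 2) := Nat.lt_two_pow_self
    rw [show 1 + (Nat.sqrt q + 1) = Nat.sqrt q + 2 by ring]
    omega
  · norm_num

lemma sum_sqrt (q : ℕ) : ∑ i ∈ Finset.range q, (if Nat.sqrt i ^ 2 = i then Nat.sqrt i + 1 else 0) ≤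
    3 * q + 1 := by
  classical
  rw [← Finset.sum_filter]
  have h1 : (Finset.range q).filter (fun i => Nat.sqrt i ^ 2 = i) ⊆
      (Finset.range (Nat.sqrt q + 1)).image (fun j => j ^ 2) := by
    intro i hi
    rw [Finset.mem_filter, Finset.mem_range] at hi
    rw [Finset.mem_image]
    refine ⟨Nat.sqrt i, ?_, hi.2⟩
    rw [Finset.mem_range]
    have := Nat.sqrt_le_sqrt hi.1.le
    omega
  calc ∑ i ∈ (Finset.range q).filter (fun i => Nat.sqrt i ^ 2 = i), (Nat.sqrt i + 1) ≤
      ∑ i ∈ (Finset.range (Nat.sqrt q + 1)).image (fun j => j ^ 2), (Nat.sqrt i + 1) :=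
        Finset.sum_le_sum_of_subset h1
    _ = ∑ j ∈ Finset.range (Nat.sqrt q + 1), (Nat.sqrt (j ^ 2) + 1) := by
        rw [Finset.sum_image]
        intro a _ b _ hab
        exact Nat.pow_left_injective (by norm_num : (2:ℕ) ≠ 0) hab
    _ ≤ ∑ j ∈ Finset.range (Nat.sqrt q + 1), (Nat.sqrt q + 1) := by
        apply Finset.sum_le_sum
        intro j hj
        rw [Nat.sqrt_eq']
        rw [Finset.mem_range] at hj
        omega
    _ = (Nat.sqrt q + 1) * (Nat.sqrt q + 1) := by simp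
    _ ≤ 3 * q + 1 := by
        have h2 := Nat.sqrt_le_self q
        have h3 := Nat.sqrt_le q
        nlinarith

lemma prod_fq (q : ℕ) : ∏ i ∈ Finset.range q, ((fq i : ℝ) + 1) ^ 2 ≤ 4 * 256 ^ q := by
  have h1 : ∏ i ∈ Finset.range q, (fq i + 1) ≤ 2 * 16 ^ q := by
    calc ∏ i ∈ Finset.range q, (fq i + 1) ≤ ∏ i ∈ Finset.range q,
          2 ^ (1 + if Nat.sqrt i ^ 2 = i then Nat.sqrt i + 1 else 0) :=
          Finset.prod_le_prod' fun i _ => fq_two_pow i
      _ = 2 ^ (∑ i ∈ Finset.range q, (1 + if Nat.sqrt i ^ 2 = i then Nat.sqrt i + 1 else 0)) := by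
          rw [Finset.prod_pow_eq_pow_sum]
      _ ≤ 2 ^ (q + (3 * q + 1)) := by
          apply Nat.pow_le_pow_right (by norm_num)
          rw [Finset.sum_add_distrib, Finset.sum_const, Finset.card_range, smul_eq_mul, mul_one]
          have := sum_sqrt q
          omega
      _ = 2 * 16 ^ q := by
          rw [show q + (3 * q + 1) = 1 + 4 * q by ring, pow_add, pow_mul]; norm_num
  have h2 : ∏ i ∈ Finset.range q, ((fq i : ℝ) + 1) ≤ 2 * 16 ^ q := by exact_mod_cast h1
  rw [Finset.prod_pow]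
  have h3 : (0:ℝ) ≤ ∏ i ∈ Finset.range q, ((fq i : ℝ) + 1) := Finset.prod_nonneg fun i _ => by positivity
  calc (∏ i ∈ Finset.range q, ((fq i : ℝ) + 1)) ^ 2 ≤ (2 * 16 ^ q) ^ 2 := pow_le_pow_left₀ h3 h2 2
    _ = 4 * 256 ^ q := by rw [mul_pow, ← pow_mul, mul_comm q 2, pow_mul]; norm_num

/-- digits of the block coding -/
def mm {N : ℕ} (n : ℕ) (β : Fin N → List ℕ) (b : ℕ → Fin N) (i : ℕ) : ℕ :=
  if i % (n + 1) < n then (β (b (i / (n + 1)))).getD (i % (n + 1)) 1 else fq (i / (n + 1))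

section
variable {N n M : ℕ} {β : Fin N → List ℕ} (hβl : ∀ b, (β b).length = n)
  (hβd : ∀ b, ∀ m ∈ β b, 1 ≤ m ∧ m ≤ M)

lemma mm_in {b : ℕ → Fin N} {q r : ℕ} (hr : r < n) :
    mm n β b ((n + 1) * q + r) = (β (b q)).getD r 1 := by
  unfold mm
  have h1 : ((n + 1) * q + r) % (n + 1) = r := by
    rw [Nat.mul_add_mod]; exact Nat.mod_eq_of_lt (by omega)
  have h2 : ((n + 1) * q + r) / (n + 1) = q := by
    rw [Nat.mul_add_div (by omega), Nat.div_eq_of_lt (by omega), add_zero]
  rw [h1, h2, if_pos hr]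

lemma mm_sep {b : ℕ → Fin N} {q : ℕ} : mm n β b ((n + 1) * q + n) = fq q := by
  unfold mm
  have h1 : ((n + 1) * q + n) % (n + 1) = n := by
    rw [Nat.mul_add_mod]; exact Nat.mod_eq_of_lt (by omega)
  have h2 : ((n + 1) * q + n) / (n + 1) = q := by
    rw [Nat.mul_add_div (by omega), Nat.div_eq_of_lt (by omega), add_zero]
  rw [h1, h2, if_neg (by omega)]

include hβl hβd in
lemma getD_dig (b : Fin N) {r : ℕ} (hr : r < n) : 1 ≤ (β b).getD r 1 ∧ (β b).getD r 1 ≤ M := by
  have hr' : r < (β b).length := by rw [hβl]; exact hr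
  rw [List.getD_eq_getElem _ _ hr']
  exact hβd b _ (List.getElem_mem hr')

include hβl hβd in
lemma mm_pos (b : ℕ → Fin N) (i : ℕ) : 1 ≤ mm n β b i := by
  unfold mm
  split_ifs with h
  · exact (getD_dig hβl hβd _ h).1
  · exact fq_pos _

include hβl in
lemma pre_block (b : ℕ → Fin N) (q : ℕ) : pre (mm n β b) ((n + 1) * q) n = β (b q) := by
  have e : (List.range n).map (fun i => (β (b q)).getD i 1) = β (b q) := by
    apply List.ext_getElem
    · simp [hβl]
    · intro i h1 h2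
      rw [List.getElem_map, List.getElem_range, List.getD_eq_getElem _ _ h2]
  refine Eq.trans ?_ e
  unfold pre
  apply List.map_congr_left
  intro i hi
  rw [List.mem_range] at hi
  rw [mm_in hi]

include hβl in
lemma pre_block' (b : ℕ → Fin N) (q : ℕ) :
    pre (mm n β b) ((n + 1) * q) (n + 1) = β (b q) ++ [fq q] := by
  rw [pre_succ, pre_block hβl, mm_sep]

variable (Y : Sys)

lemma len_append {v w : List ℕ} (hv : ∀ m ∈ v, 1 ≤ m) (hw : ∀ m ∈ w, 1 ≤ m) :
    len Y v * len Y w / 4 ≤ len Y (v ++ w) := by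
  unfold len
  rw [W_append, W_append]
  exact Y.dlo v hv _ (Y.W_maps hw o01) _ (Y.W_maps hw z01)

lemma len_single {m : ℕ} (hm : 1 ≤ m) : 1 / ((m:ℝ) + 1) ^ 2 ≤ len Y [m] := by
  have h := Y.lo m hm 1 o01 0 z01
  rw [sub_zero, abs_one] at h
  exact h

include hβl hβd in
lemma len_pre {δ : ℝ} (hδ : 0 < δ) (hβ : ∀ b, δ ≤ len Y (β b)) (b : ℕ → Fin N) (q : ℕ) :
    (δ / 16) ^ q / ∏ i ∈ Finset.range q, ((fq i : ℝ) + 1) ^ 2 ≤
      len Y (pre (mm n β b) 0 ((n + 1) * q)) := by
  induction q with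
  | zero => simp [pre, len_nil]
  | succ q ih =>
    rw [mul_add, mul_one, pre_add, zero_add, pre_block' hβl]
    have hp := pre_pos (mm_pos hβl hβd b) 0 ((n + 1) * q)
    have hβp : ∀ m ∈ β (b q), 1 ≤ m := fun m hm => (hβd _ m hm).1
    have hfp : ∀ m ∈ [fq q], 1 ≤ m := by
      intro m hm; rw [List.mem_singleton] at hm; rw [hm]; exact fq_pos q
    have hbp : ∀ m ∈ β (b q) ++ [fq q], 1 ≤ m := by
      intro m hm
      rw [List.mem_append] at hm
      rcases hm with h | h
      · exact hβp m h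
      · exact hfp m h
    refine le_trans ?_ (len_append Y hp hbp)
    have h1 : δ * (1 / ((fq q : ℝ) + 1) ^ 2) / 4 ≤ len Y (β (b q) ++ [fq q]) := by
      refine le_trans ?_ (len_append Y hβp hfp)
      have := len_single Y (fq_pos q)
      have h2 := hβ (b q)
      have h3 : δ * (1 / ((fq q : ℝ) + 1) ^ 2) ≤ len Y (β (b q)) * len Y [fq q] :=
        mul_le_mul h2 this (by positivity) (len_nonneg Y _)
      linarith
    rw [Finset.prod_range_succ, pow_succ]
    have hG : 0 < ∏ i ∈ Finset.range q, ((fq i : ℝ) + 1) ^ 2 :=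
      Finset.prod_pos fun i _ => by positivity
    set G := ∏ i ∈ Finset.range q, ((fq i : ℝ) + 1) ^ 2 with hGdef
    have h4 : (δ / 16) ^ q / G *
        (δ * (1 / ((fq q : ℝ) + 1) ^ 2) / 4) ≤ len Y (pre (mm n β b) 0 ((n + 1) * q)) *
        len Y (β (b q) ++ [fq q]) :=
      mul_le_mul ih h1 (by positivity) (len_nonneg Y _)
    refine le_trans (le_of_eq ?_) (div_le_div_of_nonneg_right h4 (by norm_num : (0:ℝ) ≤ 4))
    field_simp
    norm_num

include hβl hβd in
/-- separation of the block -/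
lemma block_sep (hβi : Function.Injective β) {b b' : ℕ → Fin N} {q : ℕ} (hne : b q ≠ b' q)
    {ξ ξ' : ℕ → ℝ} (hξ : Y.Code (mm n β b) ξ) (hξ' : Y.Code (mm n β b') ξ') :
    1 / (((M:ℝ) + 1) ^ (2 * n) * ((M + q + 3) * (M + 1) ^ 2)) ≤
      |ξ ((n + 1) * q) - ξ' ((n + 1) * q)| := by
  classical
  -- first difference
  have hex : ∃ r, r < n ∧ (β (b q)).getD r 1 ≠ (β (b' q)).getD r 1 := by
    by_contra hcon
    push Not at hcon
    apply hne
    apply hβi
    apply List.ext_getElem
    · rw [hβl, hβl]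
    · intro i h1 h2
      have h3 : i < n := by rw [hβl] at h1; exact h1
      have := hcon i h3
      rwa [List.getD_eq_getElem _ _ h1, List.getD_eq_getElem _ _ h2] at this
  set r := Nat.find hex with hr
  obtain ⟨hrn, hrd⟩ := Nat.find_spec hex
  rw [← hr] at hrn hrd
  have hrb : ∀ i < r, (β (b q)).getD i 1 = (β (b' q)).getD i 1 := by
    intro i hi
    have := Nat.find_min hex hi
    push Not at this
    exact this (by omega)
  have hword : pre (mm n β b) ((n + 1) * q) r = pre (mm n β b') ((n + 1) * q) r := by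
    unfold pre
    apply List.map_congr_left
    intro i hi
    rw [List.mem_range] at hi
    rw [mm_in (by omega), mm_in (by omega)]
    exact hrb i hi
  have w1 := hξ.word ((n + 1) * q) r
  have w2 := hξ'.word ((n + 1) * q) r
  rw [← hword] at w2
  have hpp := pre_pos (mm_pos hβl hβd b) ((n + 1) * q) r
  have hlow := Y.W_lo hpp (hξ.mem ((n + 1) * q + r)) (hξ'.mem ((n + 1) * q + r))
  rw [← w1, ← w2] at hlow
  -- bound of the product
  have hprod : ((pre (mm n β b) ((n + 1) * q) r).map fun m : ℕ => ((m:ℝ) + 1) ^ 2).prod ≤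
      ((M:ℝ) + 1) ^ (2 * n) := by
    have h1 := prod_le_of_le (M := M) (m := mm n β b) (i := (n + 1) * q) (n := r) (by
      intro j hj
      rw [mm_in (by omega)]
      exact (getD_dig hβl hβd _ (by omega)).2)
    refine h1.trans ?_
    apply pow_le_pow_right₀ (by linarith [Nat.cast_nonneg (α := ℝ) M])
    omega
  -- next digits
  have hnext : ∀ (c : ℕ → Fin N), mm n β c ((n + 1) * q + r + 1) ≤ M + q + 2 := by
    intro c
    rcases Nat.lt_or_ge (r + 1) n with h | h
    · rw [add_assoc, mm_in h]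
      have := (getD_dig hβl hβd (c q) h).2
      omega
    · have : r + 1 = n := by omega
      rw [add_assoc, this, mm_sep]
      have := fq_le q
      omega
  have hu : 1 / (((M + q + 2 : ℕ) : ℝ) + 1) ≤ ξ ((n + 1) * q + r + 1) := by
    refine le_trans ?_ (hξ.bounds Y _).1
    apply one_div_le_one_div_of_le (by positivity)
    have : (mm n β b ((n + 1) * q + r + 1) : ℝ) ≤ ((M + q + 2 : ℕ) : ℝ) := by exact_mod_cast hnext b
    linarith
  have hu' : 1 / (((M + q + 2 : ℕ) : ℝ) + 1) ≤ ξ' ((n + 1) * q + r + 1) := by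
    refine le_trans ?_ (hξ'.bounds Y _).1
    apply one_div_le_one_div_of_le (by positivity)
    have : (mm n β b' ((n + 1) * q + r + 1) : ℝ) ≤ ((M + q + 2 : ℕ) : ℝ) := by
      exact_mod_cast hnext b'
    linarith
  have d1 := getD_dig hβl hβd (b q) hrn
  have d2 := getD_dig hβl hβd (b' q) hrn
  have hsep := Y.sep' (e := (β (b q)).getD r 1) (e' := (β (b' q)).getD r 1) d1.1 d2.1 hrd
    (M := M + q + 2) (Q := M + 1) (by omega) (by omega)
    (hξ.mem ((n + 1) * q + r + 1)) (hξ'.mem ((n + 1) * q + r + 1)) hu hu'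
  have e1 := hξ.eq ((n + 1) * q + r)
  have e2 := hξ'.eq ((n + 1) * q + r)
  rw [mm_in hrn] at e1 e2
  rw [← e1, ← e2] at hsep
  have hone : (1:ℝ) ≤ |(((β (b q)).getD r 1 : ℕ) : ℝ) - ((β (b' q)).getD r 1 : ℕ)| := by
    have h1 : (1:ℤ) ≤ |(((β (b q)).getD r 1 : ℕ) : ℤ) - ((β (b' q)).getD r 1 : ℕ)| :=
      Int.one_le_abs (by omega)
    have h2 : ((1:ℤ) : ℝ) ≤ ((|(((β (b q)).getD r 1 : ℕ) : ℤ) - ((β (b' q)).getD r 1 : ℕ)| : ℤ) : ℝ) := by
      exact_mod_cast h1
    rw [Int.cast_abs] at h2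
    push_cast at h2
    exact h2
  have hP0 : 0 < ((pre (mm n β b) ((n + 1) * q) r).map fun m : ℕ => ((m:ℝ) + 1) ^ 2).prod :=
    prod_pos' _
  refine le_trans ?_ hlow
  rw [div_le_div_iff₀ (by positivity) hP0, one_mul]
  have h5 : 1 / (((M:ℝ) + q + 3) * (M + 1) ^ 2) ≤ |ξ ((n + 1) * q + r) - ξ' ((n + 1) * q + r)| := by
    refine le_trans ?_ hsep
    push_cast
    rw [show ((M:ℝ) + q + 2 + 1) = M + q + 3 by ring]
    apply div_le_div_of_nonneg_right hone (by positivity)
  rw [div_le_iff₀ (by positivity)] at h5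
  calc ((pre (mm n β b) ((n + 1) * q) r).map fun m : ℕ => ((m:ℝ) + 1) ^ 2).prod ≤
      ((M:ℝ) + 1) ^ (2 * n) * 1 := by rw [mul_one]; exact hprod
    _ ≤ ((M:ℝ) + 1) ^ (2 * n) * (|ξ ((n + 1) * q + r) - ξ' ((n + 1) * q + r)| *
          (((M:ℝ) + q + 3) * (M + 1) ^ 2)) := mul_le_mul_of_nonneg_left h5 (by positivity)
    _ = _ := by ring

end

variable {Y : Sys} {D : Set ℝ} {F : ℝ → ℝ}

/-- **The level set of `1/2` has dimension at least `s` for all `s < 1`.** -/
theorem theta_ge (h : IsMap Y D F) {s : ℝ} (hs0 : 0 < s) (hs1 : s < 1) :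
    ENNReal.ofReal s ≤ dimH {x | x ∈ D ∧ dimH (AS F D x) = ENNReal.ofReal (1 / 2)} := by
  classical
  obtain ⟨n, M, δ, B, hn, hM, hδ, hδ1, hB, hK⟩ := exists_blocks Y hs1
    (K := 2 * 4096 ^ s) (by positivity)
  set N := B.card with hN
  have hN2 : (2:ℝ) ≤ N := by
    have h1 : δ ^ s ≤ 1 := Real.rpow_le_one hδ.le hδ1 hs0.le
    have h2 : (1:ℝ) ≤ 4096 ^ s := Real.one_le_rpow (by norm_num) hs0.le
    have h3 : (0:ℝ) ≤ N := Nat.cast_nonneg N
    nlinarith
  have hN2' : 1 < N := by exact_mod_cast (lt_of_lt_of_le one_lt_two hN2)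
  have : NeZero N := ⟨by omega⟩
  set β : Fin N → List ℕ := fun b => (B.equivFin.symm b : List ℕ) with hβ
  have hβi : Function.Injective β := Subtype.val_injective.comp B.equivFin.symm.injective
  have hβm : ∀ b, β b ∈ B := fun b => (B.equivFin.symm b).2
  have hβl : ∀ b, (β b).length = n := fun b => (hB _ (hβm b)).1
  have hβd : ∀ b, ∀ m ∈ β b, 1 ≤ m ∧ m ≤ M := fun b => (hB _ (hβm b)).2.1
  have hβδ : ∀ b, δ ≤ len Y (β b) := fun b => (hB _ (hβm b)).2.2
  choose ξ hξ using fun t : ℝ => Y.exists_code (mm n β (Real.digits t N))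
    (mm_pos hβl hβd (Real.digits t N))
  set c₀ : ℝ := 1 / (((M:ℝ) + 1) ^ (2 * n) * (M + 1) ^ 2) with hc₀
  have hc₀0 : 0 < c₀ := by positivity
  have hc₀1 : c₀ ≤ 1 := by
    rw [hc₀, div_le_one (by positivity)]
    have h1 : (1:ℝ) ≤ (M:ℝ) + 1 := by linarith [Nat.cast_nonneg (α := ℝ) M]
    have h2 : (1:ℝ) ≤ ((M:ℝ) + 1) ^ (2 * n) := one_le_pow₀ h1
    have h3 : (1:ℝ) ≤ ((M:ℝ) + 1) ^ 2 := one_le_pow₀ h1
    nlinarith
  refine dim_ge_of_expand (g := fun t => ξ t 0) (C := 16 * (M + 4) / c₀) (by positivity) hs0 ?_ ?_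
  · -- membership
    intro t _
    set b := Real.digits t N with hb
    have hlim : Tendsto (fun k : ℕ => mm n β b ((n + 1) * k ^ 2 + n)) atTop atTop := by
      refine tendsto_atTop_mono (fun k => ?_) tendsto_id
      rw [mm_sep, fq_sq]
      simp only [id]
      omega
    have hinf : ∀ i, ∃ j, i ≤ j ∧ 2 ≤ mm n β b j := by
      intro i
      refine ⟨(n + 1) * i ^ 2 + n, ?_, ?_⟩
      · have : i ≤ i ^ 2 := Nat.le_self_pow (by norm_num) i
        nlinarith
      · rw [mm_sep, fq_sq]; omega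
    have hx : ξ t 0 ∈ D := h.ioo ⟨(hξ t).pos Y _, (hξ t).lt_one Y hinf _⟩
    refine ⟨hx, le_antisymm (AS_le_half h hx) ?_⟩
    refine AS_ge_half h (hξ t) (P := n + 1) (n := n) (by omega) (M := M) ?_ hlim
    intro i hi
    by_cases hr : i % (n + 1) < n
    · unfold mm
      rw [if_pos hr]
      exact (getD_dig hβl hβd _ hr).2
    · unfold mm
      rw [if_neg hr]
      unfold fq
      rw [if_neg]
      · exact hM
      · intro hsq
        apply hi
        refine ⟨Nat.sqrt (i / (n + 1)), ?_⟩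
        simp only
        rw [hsq]
        have h1 := Nat.div_add_mod i (n + 1)
        have h2 := Nat.mod_lt i (show 0 < n + 1 by omega)
        omega
  · -- expansion
    intro t ht t' ht'
    by_cases hd : ∀ i, Real.digits t N i = Real.digits t' N i
    · have h1 : t = t' := by
        rw [← Real.ofDigits_digits hN2' ht, ← Real.ofDigits_digits hN2' ht', funext hd]
      rw [h1, sub_self, abs_zero]
      positivity
    · push Not at hd
      set q := Nat.find hd with hq
      have hq1 : Real.digits t N q ≠ Real.digits t' N q := Nat.find_spec hd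
      have hq2 : ∀ i < q, Real.digits t N i = Real.digits t' N i := fun i hi =>
        not_not.mp (Nat.find_min hd hi)
      have hclose : |t - t'| ≤ ((N:ℝ) ^ q)⁻¹ := by
        have := Real.abs_ofDigits_sub_ofDigits_le hq2
        rwa [Real.ofDigits_digits hN2' ht, Real.ofDigits_digits hN2' ht'] at this
      set b := Real.digits t N with hb
      set b' := Real.digits t' N with hb'
      have hword : pre (mm n β b) 0 ((n + 1) * q) = pre (mm n β b') 0 ((n + 1) * q) := by
        unfold pre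
        apply List.map_congr_left
        intro i hi
        rw [List.mem_range] at hi
        rw [zero_add]
        unfold mm
        have h1 : i / (n + 1) < q := Nat.div_lt_of_lt_mul hi
        rw [hq2 _ h1]
      have w1 := (hξ t).word 0 ((n + 1) * q)
      have w2 := (hξ t').word 0 ((n + 1) * q)
      rw [← hword] at w2
      rw [zero_add] at w1 w2
      have hp := pre_pos (mm_pos hβl hβd b) 0 ((n + 1) * q)
      have hdlo := Y.dlo _ hp _ ((hξ t).mem ((n + 1) * q)) _ ((hξ t').mem ((n + 1) * q))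
      rw [← w1, ← w2] at hdlo
      have hlen := len_pre hβl hβd Y hδ hβδ b q
      have hbs := block_sep hβl hβd Y hβi hq1 (hξ t) (hξ t')
      have hpf := prod_fq q
      have hpf0 : 0 < ∏ i ∈ Finset.range q, ((fq i : ℝ) + 1) ^ 2 :=
        Finset.prod_pos fun i _ => by positivity
      -- the lower bound
      have hlow : (δ / 4096) ^ q * (c₀ / (16 * (M + q + 3))) ≤ |ξ t 0 - ξ t' 0| := by
        refine le_trans ?_ hdlo
        have h1 : (δ / 16) ^ q / (4 * 256 ^ q) ≤ len Y (pre (mm n β b) 0 ((n + 1) * q)) := by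
          refine le_trans ?_ hlen
          apply div_le_div_of_nonneg_left (by positivity) hpf0 hpf
        have h2 : (δ / 16) ^ q / (4 * 256 ^ q) = (δ / 4096) ^ q / 4 := by
          rw [show δ / 4096 = (δ / 16) / 256 by ring, div_pow (δ / 16) 256]
          field_simp
        rw [h2] at h1
        have h3 : c₀ / (M + q + 3) ≤ |ξ t ((n + 1) * q) - ξ t' ((n + 1) * q)| := by
          refine le_trans (le_of_eq ?_) hbs
          rw [hc₀]; field_simp
        have h4 := mul_le_mul h1 h3 (by positivity) (len_nonneg Y _)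
        unfold len at h4
        calc (δ / 4096) ^ q * (c₀ / (16 * (M + q + 3))) =
            (δ / 4096) ^ q / 4 * (c₀ / (M + q + 3)) / 4 := by field_simp; norm_num
          _ ≤ _ := div_le_div_of_nonneg_right h4 (by norm_num)
      have hpow : ((δ / 4096) ^ q * (c₀ / (16 * (M + q + 3)))) ^ s ≤ |ξ t 0 - ξ t' 0| ^ s :=
        Real.rpow_le_rpow (by positivity) hlow hs0.le
      rw [Real.mul_rpow (by positivity) (by positivity)] at hpow
      have hx1 : c₀ / (16 * (M + q + 3)) ≤ 1 := by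
        rw [div_le_one (by positivity)]
        have : (0:ℝ) ≤ M := Nat.cast_nonneg M
        have : (0:ℝ) ≤ q := Nat.cast_nonneg q
        linarith
      have hx2 : c₀ / (16 * (M + q + 3)) ≤ (c₀ / (16 * (M + q + 3))) ^ s := by
        have := Real.rpow_le_rpow_of_exponent_ge (x := c₀ / (16 * (M + q + 3))) (by positivity) hx1
          hs1.le
        rwa [Real.rpow_one] at this
      set θ := (δ / 4096) ^ s with hθ
      have hθ0 : 0 < θ := by positivity
      have hNθ : 2 ≤ N * θ := by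
        rw [hθ, Real.div_rpow hδ.le (by norm_num), ← mul_div_assoc, le_div_iff₀ (by positivity)]
        exact hK
      have hθq : ((δ / 4096) ^ q) ^ s = θ ^ q := by
        rw [← Real.rpow_natCast, ← Real.rpow_natCast, ← Real.rpow_mul (by positivity), hθ,
          ← Real.rpow_mul (by positivity), mul_comm]
      rw [hθq] at hpow
      have hN0 : (0:ℝ) < N := by linarith
      have hfin : ((N:ℝ) ^ q)⁻¹ ≤ θ ^ q * (1 / 2) ^ q := by
        rw [← mul_pow, ← inv_pow]
        apply pow_le_pow_left₀ (by positivity)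
        rw [inv_eq_one_div, div_le_iff₀ hN0]
        nlinarith
      have h2q : (1 / 2 : ℝ) ^ q * (M + q + 3) ≤ M + 4 := by
        have h1 : (q:ℝ) ≤ 2 ^ q := by exact_mod_cast (Nat.lt_two_pow_self (n := q)).le
        have h2 : (1:ℝ) ≤ 2 ^ q := one_le_pow₀ (by norm_num)
        have hM0 : (0:ℝ) ≤ M := Nat.cast_nonneg M
        rw [one_div, inv_pow, inv_mul_le_iff₀ (by positivity)]
        nlinarith
      calc |t - t'| ≤ θ ^ q * (1 / 2) ^ q := hclose.trans hfin
        _ ≤ θ ^ q * (16 * (M + 4) / c₀ * (c₀ / (16 * (M + q + 3)))) := by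
            apply mul_le_mul_of_nonneg_left _ (by positivity)
            have h3 : 16 * ((M:ℝ) + 4) / c₀ * (c₀ / (16 * (M + q + 3))) = (M + 4) / (M + q + 3) := by
              field_simp
            rw [h3, le_div_iff₀ (by positivity)]
            exact h2q
        _ = 16 * (M + 4) / c₀ * (θ ^ q * (c₀ / (16 * (M + q + 3)))) := by ring
        _ ≤ 16 * (M + 4) / c₀ * (θ ^ q * (c₀ / (16 * (M + q + 3))) ^ s) := by
            gcongr
        _ ≤ 16 * (M + 4) / c₀ * |ξ t 0 - ξ t' 0| ^ s := by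
            apply mul_le_mul_of_nonneg_left hpow (by positivity)

/-- **The level set of `1/2` has dimension one.** -/
theorem theta_eq_one (h : IsMap Y D F) :
    dimH {x | x ∈ D ∧ dimH (AS F D x) = ENNReal.ofReal (1 / 2)} = 1 := by
  apply le_antisymm
  · refine (dimH_mono (subset_univ _)).trans ?_
    rw [Real.dimH_univ]
  · rw [← ENNReal.ofReal_one]
    exact le_of_forall_ofReal_lt one_pos fun r h0 h1 => theta_ge h h0 h1

end Pool.Agent.X86.AF
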