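import Pool.Agent.X86.AF.Upper

/-! upper bounds for the dimension: sparse free digits at geometric places -/

set_option autoImplicit false

open Set Filter Topology MeasureTheory
open scoped ENNReal NNReal

namespace Pool.Agent.X86.AF

open Sys

lemma count_range {s : ℕ → ℕ} (hs : StrictMono s) (k : ℕ) [DecidablePred (· ∈ Set.range s)] :
    ((Finset.range (s k)).filter (· ∈ Set.range s)).card = k := by
  have : (Finset.range (s k)).filter (· ∈ Set.range s) = (Finset.range k).image s := by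
    ext i
    simp only [Finset.mem_filter, Finset.mem_range, Set.mem_range, Finset.mem_image]
    constructor
    · rintro ⟨h1, j, rfl⟩
      exact ⟨j, hs.lt_iff_lt.mp h1, rfl⟩
    · rintro ⟨j, hj, rfl⟩
      exact ⟨hs hj, j, rfl⟩
  rw [this, Finset.card_image_of_injective _ hs.injective, Finset.card_range]

variable (Y : Sys)

/-- growth: the digits at the free places are large infinitely often -/
lemma growth {lam ρ : ℝ} (hρ0 : 0 < ρ) (hρ : ρ < lam) {s : ℕ → ℕ}
    (hs : StrictMono s) (h1 : ∀ᶠ k in atTop, (s (k + 1) : ℝ) ≤ (lam + 1) * s k)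
    (h2 : ∀ B : ℝ, ∀ᶠ k : ℕ in atTop, B * k ≤ s k)
    (h3 : ∀ ρ C : ℝ, 0 < ρ → ρ < lam → ∀ᶠ k : ℕ in atTop, C * ρ ^ k < s k)
    {n₀ : ℕ} {m : ℕ → ℕ} (hm : ∀ i, 1 ≤ m i) (hm2 : ∀ i, n₀ ≤ i → i ∉ Set.range s → m i = 2)
    (k₀ : ℕ) : ∃ k, k₀ ≤ k ∧
      (∏ i ∈ Finset.range (s k), (m i : ℝ)) ^ (ρ - 1) * 2 ^ (-(lam * s k)) ≤ m (s k) := by
  classical
  by_contra hcon
  push Not at hcon
  set L : ℕ → ℝ := fun k => ∑ i ∈ Finset.range (s k), Real.logb 2 (m i) with hL
  have hlog0 : ∀ i, 0 ≤ Real.logb 2 (m i) := fun i =>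
    Real.logb_nonneg (by norm_num) (by exact_mod_cast hm i)
  have hLP : ∀ k, L k = Real.logb 2 (∏ i ∈ Finset.range (s k), (m i : ℝ)) := by
    intro k
    simp only [hL]
    rw [Real.logb_prod]
    intro i _
    have := hm i
    positivity
  -- lower bound
  have hlow : ∀ k, (s k : ℝ) - n₀ - k ≤ L k := by
    intro k
    have e1 : ∀ i ∈ Finset.range (s k), (1 : ℝ) - (if i < n₀ then 1 else 0) -
        (if i ∈ Set.range s then 1 else 0) ≤ Real.logb 2 (m i) := by
      intro i _
      by_cases a1 : i < n₀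
      · rw [if_pos a1]
        split_ifs <;> linarith [hlog0 i]
      · rw [if_neg a1]
        by_cases a2 : i ∈ Set.range s
        · rw [if_pos a2]; linarith [hlog0 i]
        · rw [if_neg a2, hm2 i (not_lt.mp a1) a2]
          norm_num
    have e2 := Finset.sum_le_sum e1
    refine le_trans ?_ e2
    rw [Finset.sum_sub_distrib, Finset.sum_sub_distrib]
    have e3 : ∑ i ∈ Finset.range (s k), (if i ∈ Set.range s then (1:ℝ) else 0) = k := by
      rw [← Finset.sum_filter, Finset.sum_const, count_range hs k]; simp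
    have e4 : ∑ i ∈ Finset.range (s k), (if i < n₀ then (1:ℝ) else 0) ≤ n₀ := by
      rw [← Finset.sum_filter, Finset.sum_const]
      simp only [nsmul_eq_mul, mul_one]
      have : (Finset.range (s k)).filter (· < n₀) ⊆ Finset.range n₀ := by
        intro i hi
        simp only [Finset.mem_filter, Finset.mem_range] at hi ⊢
        exact hi.2
      have := Finset.card_le_card this
      rw [Finset.card_range] at this
      exact_mod_cast this
    rw [e3]
    simp only [Finset.sum_const, Finset.card_range, nsmul_eq_mul, mul_one]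
    linarith
  -- recursion
  have hge : ∀ k, k ≤ s k := fun k => hs.id_le k
  obtain ⟨k₁, hk₁⟩ := eventually_atTop.mp h1
  set K := max (max k₀ k₁) n₀ with hK
  have hrec : ∀ k, K ≤ k → L (k + 1) ≤ ρ * L k := by
    intro k hk
    have hk0 : k₀ ≤ k := (le_max_left _ _).trans ((le_max_left _ _).trans hk)
    have hk1 : k₁ ≤ k := (le_max_right _ _).trans ((le_max_left _ _).trans hk)
    have hkn : n₀ ≤ k := (le_max_right _ _).trans hk
    have e1 : L (k + 1) = L k + (Real.logb 2 (m (s k)) +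
        ∑ i ∈ Finset.Ico (s k + 1) (s (k + 1)), Real.logb 2 (m i)) := by
      simp only [hL]
      rw [← Finset.sum_eq_sum_Ico_succ_bot (f := fun i => Real.logb 2 (m i))
        (show s k < s (k + 1) from hs (Nat.lt_succ_self k)), Finset.range_eq_Ico,
        Finset.range_eq_Ico, Finset.sum_Ico_consecutive _ (Nat.zero_le _)
          (hs (Nat.lt_succ_self k)).le]
    have e2 : ∑ i ∈ Finset.Ico (s k + 1) (s (k + 1)), Real.logb 2 (m i) =
        (s (k + 1) : ℝ) - s k - 1 := by
      rw [Finset.sum_congr rfl (g := fun _ => (1:ℝ))]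
      · rw [Finset.sum_const, Nat.card_Ico, nsmul_eq_mul, mul_one,
          Nat.cast_sub (hs (Nat.lt_succ_self k))]
        push_cast; ring
      · intro i hi
        rw [Finset.mem_Ico] at hi
        rw [hm2 i (by have := hge k; omega) ?_]
        · norm_num
        · rintro ⟨j, rfl⟩
          have a1 : k < j := hs.lt_iff_lt.mp (by omega)
          have a2 : j < k + 1 := hs.lt_iff_lt.mp hi.2
          omega
    have e3 : Real.logb 2 (m (s k)) ≤ (ρ - 1) * L k - lam * s k := by
      have b1 := hcon k hk0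
      have b2 : (0:ℝ) < m (s k) := by exact_mod_cast hm (s k)
      have b3 := (Real.logb_lt_logb (by norm_num : (1:ℝ) < 2) b2 b1).le
      have b4 : (0:ℝ) < ∏ i ∈ Finset.range (s k), (m i : ℝ) :=
        Finset.prod_pos fun i _ => by exact_mod_cast hm i
      rw [Real.logb_mul (by positivity) (by positivity), Real.logb_rpow_eq_mul_logb_of_pos b4,
        Real.logb_rpow (by norm_num) (by norm_num), ← hLP] at b3
      linarith
    have e4 := hk₁ k hk1
    rw [e1, e2]
    linarith
  have hiter : ∀ j, L (K + j) ≤ ρ ^ j * L K := by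
    intro j
    induction j with
    | zero => simp
    | succ j ih =>
      have := hrec (K + j) (by omega)
      rw [show K + (j + 1) = K + j + 1 by ring, pow_succ]
      nlinarith
  have h4 := h3 ρ (2 * (L K / ρ ^ K)) hρ0 hρ
  have h5 := h2 4
  obtain ⟨k, ⟨⟨hk1, hk2⟩, hk3⟩, hk4⟩ := (((h4.and h5).and (eventually_ge_atTop K)).and
    (eventually_ge_atTop n₀)).exists
  have h6 := hiter (k - K)
  rw [Nat.add_sub_cancel' hk3] at h6
  have h7 : ρ ^ (k - K) * L K = L K / ρ ^ K * ρ ^ k := by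
    rw [pow_sub₀ _ hρ0.ne' hk3]; field_simp
  have h8 := hlow k
  have h9 : (n₀ : ℝ) ≤ k := by exact_mod_cast hk4
  rw [h7] at h6
  have h10 : (0:ℝ) ≤ k := Nat.cast_nonneg k
  nlinarith

/-- **Upper bound for digits which are free at geometrically growing places only.** -/
theorem upper_geo {lam t : ℝ} (hl : 1 < lam) (ht : 1 / (1 + lam) < t) {s : ℕ → ℕ}
    (hs : StrictMono s) (h1 : ∀ᶠ k in atTop, (s (k + 1) : ℝ) ≤ (lam + 1) * s k)
    (h2 : ∀ B : ℝ, ∀ᶠ k : ℕ in atTop, B * k ≤ s k)
    (h3 : ∀ ρ C : ℝ, 0 < ρ → ρ < lam → ∀ᶠ k : ℕ in atTop, C * ρ ^ k < s k)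
    (n₀ : ℕ) (p : Fin n₀ → ℕ) :
    dimH (ZZ Y fun i m => (∀ h : i < n₀, m = p ⟨i, h⟩) ∧
      (n₀ ≤ i → i ∉ Set.range s → m = 2)) ≤ ENNReal.ofReal t := by
  classical
  have ht0 : 0 < t := lt_trans (by positivity) ht
  -- choice of ρ
  obtain ⟨ρ, hρ1, hρ2⟩ : ∃ ρ, max (lam - 1) (1 / t - 1) < ρ ∧ ρ < lam := by
    apply exists_between
    apply max_lt
    · linarith
    · have : 1 / t < 1 + lam := by
        rw [div_lt_iff₀ ht0]
        rw [div_lt_iff₀ (by linarith)] at ht
        linarith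
      linarith
  have hρa : lam - 1 < ρ := lt_of_le_of_lt (le_max_left _ _) hρ1
  have hρb : 1 / t - 1 < ρ := lt_of_le_of_lt (le_max_right _ _) hρ1
  have hρ0 : 0 < ρ := by linarith
  set σ : ℝ := t * (1 + ρ) with hσ
  have hσ1 : 1 < σ := by
    have : 1 / t < 1 + ρ := by linarith
    rw [div_lt_iff₀ ht0] at this
    rw [hσ]; linarith
  set κ : ℝ := t * (1 + ρ - lam) with hκ
  have hκ0 : 0 < κ := mul_pos ht0 (by linarith)
  have hsum0 : Summable (fun m : ℕ => (m:ℝ) ^ (-σ)) := by
    simp_rw [Real.rpow_neg (Nat.cast_nonneg _)]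
    exact Real.summable_nat_rpow_inv.mpr hσ1
  set ζ : ℝ := ∑' m : ℕ, (m:ℝ) ^ (-σ) with hζ
  have hζ1 : 1 ≤ ζ := by
    have := hsum0.le_tsum 1 (fun j _ => by positivity)
    simpa using this
  set Adm : ℕ → ℕ → Prop := fun i m => (∀ h : i < n₀, m = p ⟨i, h⟩) ∧
    (n₀ ≤ i → i ∉ Set.range s → m = 2) with hAdm
  set Z := ZZ Y Adm with hZ
  borelize ℝ
  set cc : (n : ℕ) → (Fin n → ℕ) → ℝ := fun n w => (∏ i, (w i : ℝ)) ^ (1 - ρ) * 2 ^ (lam * n)
    with hcc
  set cov : (k₀ : ℕ) → (Σ j : ℕ, (Fin (s (j + k₀)) → ℕ)) → Set ℝ := fun k₀ w =>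
    if ∀ i, 1 ≤ w.2 i ∧ Adm i (w.2 i) then CS Y w.2 (cc _ w.2) else ∅ with hcov
  have hr : Tendsto (fun n : ℕ => ENNReal.ofReal (2 * (1 / 2) ^ n)) atTop (𝓝 0) := by
    rw [← ENNReal.ofReal_zero]
    apply ENNReal.tendsto_ofReal
    have := (tendsto_pow_atTop_nhds_zero_of_lt_one (r := (1 / 2 : ℝ)) (by norm_num)
      (by norm_num)).const_mul 2
    simpa using this
  have hd1 : ∀ᶠ n : ℕ in atTop, ∀ w, Metric.ediam (cov n w) ≤
      ENNReal.ofReal (2 * (1 / 2) ^ n) := by
    refine Eventually.of_forall fun n w => ?_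
    simp only [hcov]
    split_ifs with h
    · refine (CS_diam' Y fun i => (h i).1).trans ?_
      apply ENNReal.ofReal_le_ofReal
      have : n ≤ s (w.1 + n) := le_trans (Nat.le_add_left n w.1) (hs.id_le _)
      have h5 : ((1:ℝ) / 2) ^ (s (w.1 + n)) ≤ (1 / 2) ^ n :=
        pow_le_pow_of_le_one (by norm_num) (by norm_num) this
      linarith
    · simp
  have hc1 : ∀ᶠ n : ℕ in atTop, Z ⊆ ⋃ w, cov n w := by
    refine Eventually.of_forall fun n z hz => ?_
    obtain ⟨m, η, hm, h0, hadm⟩ := hz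
    obtain ⟨k, hk, hk'⟩ := growth hρ0 hρ2 hs h1 h2 h3 hm.one_le (fun i hi => (hadm i).2 hi) n
    rw [mem_iUnion]
    obtain ⟨j, rfl⟩ : ∃ j, k = j + n := ⟨k - n, by omega⟩
    refine ⟨⟨j, fun i => m i⟩, ?_⟩
    simp only [hcov]
    rw [if_pos fun i => ⟨hm.one_le i, hadm i⟩]
    refine mem_CS Y hm h0 _ ?_
    have hb := (hm.bounds Y (s (j + n))).2
    refine hb.trans ?_
    simp only [hcc]
    have hP : (0:ℝ) < ∏ i ∈ Finset.range (s (j + n)), (m i : ℝ) :=
      Finset.prod_pos fun i _ => by exact_mod_cast hm.one_le i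
    have hE : (0:ℝ) < (∏ i ∈ Finset.range (s (j + n)), (m i : ℝ)) ^ (ρ - 1) *
        2 ^ (-(lam * s (j + n))) := by positivity
    refine (one_div_le_one_div_of_le hE hk').trans (le_of_eq ?_)
    rw [Fin.prod_univ_eq_prod_range (fun i => (m i : ℝ)), one_div, mul_inv,
      ← Real.rpow_neg hP.le, ← Real.rpow_neg (by norm_num : (0:ℝ) ≤ 2), neg_neg, neg_sub]
  have key := Measure.hausdorffMeasure_le_liminf_tsum (X := ℝ) (β := ℕ)
    (ι := fun k₀ => Σ j : ℕ, (Fin (s (j + k₀)) → ℕ)) t Z (l := atTop)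
    (fun n : ℕ => ENNReal.ofReal (2 * (1 / 2) ^ n)) hr cov hd1 hc1
  -- bounds of the terms
  set g : ℕ → ℕ → ℝ≥0∞ := fun i m =>
    if 1 ≤ m ∧ Adm i m then ENNReal.ofReal ((m:ℝ) ^ (-σ)) else 0 with hg
  have hterm : ∀ (k₀ : ℕ) (w : Σ j : ℕ, (Fin (s (j + k₀)) → ℕ)), Metric.ediam (cov k₀ w) ^ t ≤
      ENNReal.ofReal (2 ^ (lam * t * s (w.1 + k₀))) * ∏ i : Fin (s (w.1 + k₀)), g i (w.2 i) := by
    rintro k₀ ⟨j, w⟩
    simp only [hcov]
    split_ifs with h
    · have b2 := CS_diam Y (w := w) (c := cc _ w) fun i => (h i).1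
      have hwp : ∀ i, (1:ℝ) ≤ w i := fun i => by exact_mod_cast (h i).1
      have hP0 : (0:ℝ) < ∏ i, (w i : ℝ) := Finset.prod_pos fun i _ => by have := hwp i; positivity
      have h4 : ∏ i : Fin (s (j + k₀)), g i (w i) = ENNReal.ofReal (∏ i, (w i : ℝ) ^ (-σ)) := by
        rw [ENNReal.ofReal_prod_of_nonneg (fun i _ => by positivity)]
        refine Finset.prod_congr rfl fun i _ => ?_
        simp only [hg]
        rw [if_pos (h i)]
      rw [h4, ← ENNReal.ofReal_mul (by positivity)]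
      refine (ENNReal.rpow_le_rpow b2 ht0.le).trans ?_
      rw [ENNReal.ofReal_rpow_of_nonneg (by positivity) ht0.le]
      apply ENNReal.ofReal_le_ofReal
      apply le_of_eq
      have e4 : ∏ i, (w i : ℝ) ^ (-σ) = (∏ i, (w i : ℝ)) ^ (-σ) :=
        Real.finsetProd_rpow _ _ (fun i _ => by positivity) _
      rw [e4]
      simp only [hcc]
      rw [Finset.prod_inv_distrib, Finset.prod_pow]
      set P : ℝ := ∏ i, (w i : ℝ) with hP
      have e5 : P ^ (1 - ρ) * 2 ^ (lam * (s (j + k₀) : ℝ)) * (P ^ 2)⁻¹ =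
          2 ^ (lam * (s (j + k₀) : ℝ)) * P ^ (-(1 + ρ)) := by
        rw [← Real.rpow_natCast, ← Real.rpow_neg hP0.le, mul_right_comm, ← Real.rpow_add hP0,
          mul_comm]
        congr 2
        push_cast; ring
      rw [e5, Real.mul_rpow (by positivity) (by positivity), ← Real.rpow_mul (by norm_num),
        ← Real.rpow_mul hP0.le]
      congr 2
      · ring
      · rw [hσ]; ring
    · rw [Metric.ediam_empty, ENNReal.zero_rpow_of_pos ht0]; exact zero_le
  -- sums over the words of a given length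
  have hgi : ∀ i, ∑' m, g i m ≤ ENNReal.ofReal (2 ^ (-σ) * ((if i < n₀ then 2 ^ σ else 1) *
      (if i ∈ Set.range s then 2 ^ σ * ζ else 1))) := by
    intro i
    have hζ0 : 0 ≤ ζ := by linarith
    have h2σ : (1:ℝ) ≤ 2 ^ σ := Real.one_le_rpow (by norm_num) (by linarith)
    have h2m : (2:ℝ) ^ (-σ) * 2 ^ σ = 1 := by rw [← Real.rpow_add (by norm_num)]; simp
    by_cases a1 : i < n₀
    · -- a single digit
      have c1 : ∑' m, g i m ≤ ENNReal.ofReal 1 := by
        have : ∀ m, g i m ≤ if m = p ⟨i, a1⟩ then ENNReal.ofReal 1 else 0 := by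
          intro m
          simp only [hg]
          by_cases hm : 1 ≤ m ∧ Adm i m
          · rw [if_pos hm, if_pos (hm.2.1 a1)]
            apply ENNReal.ofReal_le_ofReal
            apply Real.rpow_le_one_of_one_le_of_nonpos
            · exact_mod_cast hm.1
            · linarith
          · rw [if_neg hm]; exact zero_le
        refine (ENNReal.tsum_le_tsum this).trans ?_
        rw [tsum_ite_eq]
      refine c1.trans (ENNReal.ofReal_le_ofReal ?_)
      rw [if_pos a1]
      have : (1:ℝ) ≤ if i ∈ Set.range s then 2 ^ σ * ζ else 1 := by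
        split_ifs
        · nlinarith
        · exact le_rfl
      nlinarith [Real.rpow_pos_of_pos (by norm_num : (0:ℝ) < 2) (-σ)]
    · rw [if_neg a1, one_mul]
      by_cases a2 : i ∈ Set.range s
      · rw [if_pos a2, ← mul_assoc, h2m, one_mul]
        have : ∀ m, g i m ≤ ENNReal.ofReal ((m:ℝ) ^ (-σ)) := by
          intro m
          simp only [hg]
          split_ifs <;> [exact le_rfl; exact zero_le]
        refine (ENNReal.tsum_le_tsum this).trans ?_
        rw [← ENNReal.ofReal_tsum_of_nonneg (fun m => by positivity) hsum0]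
      · rw [if_neg a2, mul_one]
        have : ∀ m, g i m ≤ if m = 2 then ENNReal.ofReal (2 ^ (-σ)) else 0 := by
          intro m
          simp only [hg]
          by_cases hm : 1 ≤ m ∧ Adm i m
          · have hm2 := hm.2.2 (not_lt.mp a1) a2
            rw [if_pos hm, if_pos hm2, hm2]
            norm_num
          · rw [if_neg hm]; exact zero_le
        refine (ENNReal.tsum_le_tsum this).trans ?_
        rw [tsum_ite_eq]
  set B : ℝ := 2 ^ σ * ζ with hB
  have hB1 : 1 ≤ B := by
    have h2σ : (1:ℝ) ≤ 2 ^ σ := Real.one_le_rpow (by norm_num) (by linarith)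
    rw [hB]; nlinarith
  set U : ℕ → ℝ := fun k => (2 ^ σ) ^ n₀ * (2 ^ (-κ * s k) * B ^ k) with hU
  have hword : ∀ k, ENNReal.ofReal (2 ^ (lam * t * s k)) *
      ∑' w : Fin (s k) → ℕ, ∏ i : Fin (s k), g i (w i) ≤ ENNReal.ofReal (U k) := by
    intro k
    rw [tsum_prod]
    have d1 : ∏ i ∈ Finset.range (s k), ∑' m, g i m ≤ ∏ i ∈ Finset.range (s k),
        ENNReal.ofReal (2 ^ (-σ) * ((if i < n₀ then 2 ^ σ else 1) *
        (if i ∈ Set.range s then B else 1))) := Finset.prod_le_prod' fun i _ => hgi i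
    have hB0 : 0 ≤ B := by linarith
    rw [← ENNReal.ofReal_prod_of_nonneg (fun i _ => by
      apply mul_nonneg (by positivity)
      apply mul_nonneg <;> split_ifs <;> positivity)] at d1
    refine (mul_le_mul' le_rfl d1).trans ?_
    rw [← ENNReal.ofReal_mul (by positivity)]
    apply ENNReal.ofReal_le_ofReal
    rw [Finset.prod_mul_distrib, Finset.prod_mul_distrib, Finset.prod_const, Finset.card_range,
      ← Finset.prod_filter, ← Finset.prod_filter, Finset.prod_const, Finset.prod_const,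
      count_range hs k]
    have d2 : ((2:ℝ) ^ σ) ^ ((Finset.range (s k)).filter (· < n₀)).card ≤ (2 ^ σ) ^ n₀ := by
      apply pow_le_pow_right₀ (Real.one_le_rpow (by norm_num) (by linarith))
      have : (Finset.range (s k)).filter (· < n₀) ⊆ Finset.range n₀ := by
        intro i hi
        simp only [Finset.mem_filter, Finset.mem_range] at hi ⊢
        exact hi.2
      have := Finset.card_le_card this
      rwa [Finset.card_range] at this
    have d3 : (2:ℝ) ^ (lam * t * s k) * ((2:ℝ) ^ (-σ)) ^ (s k) = 2 ^ (-κ * s k) := by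
      rw [← Real.rpow_natCast, ← Real.rpow_mul (by norm_num), ← Real.rpow_add (by norm_num)]
      congr 1
      rw [hσ, hκ]; ring
    simp only [hU]
    calc 2 ^ (lam * t * ↑(s k)) * (((2:ℝ) ^ (-σ)) ^ s k *
          ((2 ^ σ) ^ ((Finset.range (s k)).filter (· < n₀)).card * B ^ k))
        = (2 ^ (lam * t * ↑(s k)) * ((2:ℝ) ^ (-σ)) ^ s k) *
          ((2 ^ σ) ^ ((Finset.range (s k)).filter (· < n₀)).card * B ^ k) := by ring
      _ ≤ (2 ^ (lam * t * ↑(s k)) * ((2:ℝ) ^ (-σ)) ^ s k) * ((2 ^ σ) ^ n₀ * B ^ k) := by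
          gcongr
      _ = _ := by rw [d3]; ring
  -- summability
  have hUsum : Summable U := by
    have hb : ∀ᶠ k : ℕ in atTop, U k ≤ (2 ^ σ) ^ n₀ * (1 / 2) ^ k := by
      filter_upwards [h2 ((Real.logb 2 B + 1) / κ)] with k hk
      have e1 : (Real.logb 2 B + 1) * k ≤ κ * s k := by
        have := mul_le_mul_of_nonneg_left hk hκ0.le
        rw [← mul_assoc, mul_div_cancel₀ _ hκ0.ne'] at this
        exact this
      have e2 : B ^ k = 2 ^ (Real.logb 2 B * k) := by
        rw [Real.rpow_mul (by norm_num), Real.rpow_logb (by norm_num) (by norm_num) (by linarith),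
          Real.rpow_natCast]
      simp only [hU]
      apply mul_le_mul_of_nonneg_left _ (by positivity)
      rw [e2, ← Real.rpow_add (by norm_num)]
      have e3 : ((1:ℝ) / 2) ^ k = 2 ^ (-(k:ℝ)) := by
        rw [Real.rpow_neg (by norm_num), Real.rpow_natCast, one_div, inv_pow]
      rw [e3]
      apply Real.rpow_le_rpow_of_exponent_le (by norm_num)
      nlinarith
    have hg2 : Summable (fun k : ℕ => ((2:ℝ) ^ σ) ^ n₀ * (1 / 2) ^ k) :=
      (summable_geometric_of_lt_one (by norm_num) (by norm_num)).mul_left _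
    refine Summable.of_norm_bounded_eventually_nat hg2 ?_
    filter_upwards [hb] with k hk
    rw [Real.norm_of_nonneg]
    · exact hk
    · simp only [hU]
      have hB0 : 0 ≤ B := by linarith
      positivity
  have hU0 : ∀ k, 0 ≤ U k := by
    intro k
    simp only [hU]
    have hB0 : 0 ≤ B := by linarith
    positivity
  have hsum : ∀ k₀ : ℕ, ∑' w, Metric.ediam (cov k₀ w) ^ t ≤ ENNReal.ofReal (∑' k, U k) := by
    intro k₀
    refine (ENNReal.tsum_le_tsum (hterm k₀)).trans ?_
    rw [ENNReal.tsum_sigma']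
    rw [ENNReal.ofReal_tsum_of_nonneg hU0 hUsum]
    calc ∑' (j : ℕ) (w : Fin (s (j + k₀)) → ℕ), ENNReal.ofReal (2 ^ (lam * t * s (j + k₀))) *
          ∏ i : Fin (s (j + k₀)), g i (w i) ≤ ∑' j : ℕ, ENNReal.ofReal (U (j + k₀)) := by
          apply ENNReal.tsum_le_tsum
          intro j
          rw [ENNReal.tsum_mul_left]
          exact hword (j + k₀)
      _ ≤ ∑' k, ENNReal.ofReal (U k) := by
          exact ENNReal.tsum_comp_le_tsum_of_injective (add_left_injective k₀) _
  have h6 : μH[t] Z ≤ ENNReal.ofReal (∑' k, U k) := by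
    refine key.trans ?_
    refine (liminf_le_liminf (Eventually.of_forall hsum)).trans ?_
    simp
  have h7 : μH[((⟨t, ht0.le⟩ : ℝ≥0) : ℝ)] Z ≠ ∞ := (lt_of_le_of_lt h6 ENNReal.ofReal_lt_top).ne
  have h8 := dimH_le_of_hausdorffMeasure_ne_top h7
  refine h8.trans (le_of_eq ?_)
  exact (ENNReal.ofReal_eq_coe_nnreal ht0.le).symm

end Pool.Agent.X86.AF
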