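import Pool.Agent.X86.AF.AS

/-! values of the dimension of asymptotic sets -/

set_option autoImplicit false

open Set Filter Topology MeasureTheory
open scoped ENNReal NNReal

namespace Pool.Agent.X86.AF

open Sys

variable {Y : Sys} {D : Set ℝ} {F : ℝ → ℝ}

/-- lower bound: free digits in `AS` -/
lemma AS_ge (h : IsMap Y D F) {m : ℕ → ℕ} {ξ : ℕ → ℝ} (hξ : Y.Code m ξ)
    {s a : ℕ → ℕ} (hs : ∀ k, s k + 2 ≤ s (k + 1)) {M : ℕ}
    (hM : ∀ i, i ∉ range s → m i ≤ M) (hms : Tendsto (fun k => m (s k)) atTop atTop)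
    (ha1 : Tendsto a atTop atTop) {r C₀ : ℝ} (hr0 : 0 < r) (hr1 : r ≤ 1)
    (hcond : ∀ k, r * (a k + 2 * s k * Real.logb 2 (M + 1) + 2 * k) ≤ (1 - 2 * r) * A a k + C₀) :
    ENNReal.ofReal r ≤ dimH (AS F D (ξ 0)) := by
  have hsm : StrictMono s := s_mono hs
  have hinf : ∀ i, ∃ j, i ≤ j ∧ 2 ≤ m j := by
    intro i
    obtain ⟨k, hk1, hk2⟩ := ((hms.eventually_ge_atTop 2).and (eventually_ge_atTop i)).exists
    exact ⟨s k, hk2.trans (hsm.id_le k), hk1⟩
  have ha : ∀ n, ∃ k, n ≤ A a k := by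
    intro n
    obtain ⟨k, hk⟩ := (ha1.eventually_ge_atTop n).exists
    exact ⟨k + 1, by rw [A_succ]; omega⟩
  refine dim_lower (s := s) (d := m) (a := a) (M := M) Y hs hξ.one_le ?_ ha hr0 hr1 hcond ?_
  · intro i hi
    exact hM i (by rintro ⟨k, hk⟩; exact hi k hk)
  · intro t _ η hη
    have h2 : Tendsto (fun k => mt s m a t (s k)) atTop atTop := by
      refine tendsto_atTop_mono (fun k => ?_) ha1
      rw [mt_s hs]
      have : a k < 2 ^ a k := Nat.lt_two_pow_self
      omega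
    have hinf' : ∀ i, ∃ j, i ≤ j ∧ 2 ≤ mt s m a t j := by
      intro i
      obtain ⟨k, hk1, hk2⟩ := ((h2.eventually_ge_atTop 2).and (eventually_ge_atTop i)).exists
      exact ⟨s k, hk2.trans (hsm.id_le k), hk1⟩
    have h3 := asym_of hξ hη hsm (fun i hi => mt_off t (fun k hk => hi ⟨k, hk⟩)) hms h2
    refine ⟨h.ioo ⟨hη.pos Y _, hη.lt_one Y hinf' _⟩, ?_⟩
    refine h3.congr fun n => ?_
    rw [h.iter hξ hinf, h.iter hη hinf']

/-- a code with prescribed digits -/
lemma le_of_forall_ofReal_lt {v : ℝ} {X : ℝ≥0∞} (hv : 0 < v)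
    (h : ∀ r, 0 < r → r < v → ENNReal.ofReal r ≤ X) : ENNReal.ofReal v ≤ X := by
  apply le_of_forall_lt
  intro c hc
  have hcr : c.toReal < v := (ENNReal.lt_ofReal_iff_toReal_lt (ne_top_of_lt hc)).mp hc
  obtain ⟨r, hr1, hr2⟩ := exists_between (max_lt hcr hv)
  have hr0 : 0 < r := lt_of_le_of_lt (le_max_right _ _) hr1
  refine lt_of_lt_of_le ?_ (h r hr0 hr2)
  exact (ENNReal.lt_ofReal_iff_toReal_lt (ne_top_of_lt hc)).mpr
    (lt_of_le_of_lt (le_max_left _ _) hr1)

/-- **Lower bound `1/2`**: digits bounded off a quadratic sequence of places. -/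
theorem AS_ge_half (h : IsMap Y D F) {m : ℕ → ℕ} {ξ : ℕ → ℝ} (hξ : Y.Code m ξ)
    {P n : ℕ} (hP : 2 ≤ P) {M : ℕ}
    (hM : ∀ i, i ∉ range (fun k : ℕ => P * k ^ 2 + n) → m i ≤ M)
    (hms : Tendsto (fun k : ℕ => m (P * k ^ 2 + n)) atTop atTop) :
    ENNReal.ofReal (1 / 2) ≤ dimH (AS F D (ξ 0)) := by
  apply le_of_forall_ofReal_lt (by norm_num)
  intro r hr0 hr1
  set a : ℕ → ℕ := fun k => k ^ 2 with ha
  set L := Real.logb 2 ((M:ℝ) + 1) with hL
  have hL0 : 0 ≤ L := Real.logb_nonneg (by norm_num) (by linarith [Nat.cast_nonneg (α := ℝ) M])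
  have ha1 : Tendsto a atTop atTop := tendsto_pow_atTop (by norm_num)
  -- A a k ≥ (k^3 - 2 k^2... )
  have hA : ∀ k : ℕ, ((k:ℝ) - 1) ^ 3 / 3 ≤ (A a k : ℝ) := by
    intro k
    induction k with
    | zero => simp [A]; norm_num
    | succ k ih =>
      rw [A_succ]
      push_cast
      simp only [ha]
      push_cast
      have hk : (0:ℝ) ≤ k := Nat.cast_nonneg k
      nlinarith
  -- the condition
  set B : ℝ := r * (1 + 2 * P * L) with hB
  set E : ℝ := r * (2 * n * L) with hE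
  have hcond0 : ∃ C₀ : ℝ, ∀ k : ℕ, r * (a k + 2 * ((P * k ^ 2 + n : ℕ) : ℝ) * L + 2 * k) ≤
      (1 - 2 * r) * A a k + C₀ := by
    -- polynomial inequality
    have hc : 0 < (1 - 2 * r) / 3 := by linarith
    set c := (1 - 2 * r) / 3 with hcdef
    have hPn : (0:ℝ) ≤ P := Nat.cast_nonneg P
    have hnn : (0:ℝ) ≤ n := Nat.cast_nonneg n
    have hB0 : 0 ≤ B := by rw [hB]; positivity
    have hE0 : 0 ≤ E := by rw [hE]; positivity
    set B' : ℝ := 2 * B + 2 * r with hB'
    have hB'0 : 0 ≤ B' := by rw [hB']; positivity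
    refine ⟨2 * B + 4 * r + E + B' * (B' / c) ^ 2 + c, fun k => ?_⟩
    have hk0 : (0:ℝ) ≤ k := Nat.cast_nonneg k
    have e1 : r * ((a k : ℝ) + 2 * ((P * k ^ 2 + n : ℕ) : ℝ) * L + 2 * k) =
        B * k ^ 2 + E + 2 * r * k := by
      simp only [ha]; rw [hB, hE]; push_cast; ring
    rw [e1]
    have e2 : (1 - 2 * r) * ((k:ℝ) - 1) ^ 3 / 3 ≤ (1 - 2 * r) * A a k := by
      have := mul_le_mul_of_nonneg_left (hA k) (by linarith : (0:ℝ) ≤ 1 - 2 * r)
      linarith
    have e3 : (1 - 2 * r) * ((k:ℝ) - 1) ^ 3 / 3 = c * ((k:ℝ) - 1) ^ 3 := by rw [hcdef]; ring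
    rw [e3] at e2
    have e4 : 0 ≤ B' * (B' / c) ^ 2 := by positivity
    rcases Nat.eq_zero_or_pos k with hk | hk
    · subst hk
      simp only [Nat.cast_zero] at e2 ⊢
      nlinarith
    · have hk1 : (1:ℝ) ≤ k := by exact_mod_cast hk
      set q : ℝ := (k:ℝ) - 1 with hq
      have hq0 : 0 ≤ q := by linarith
      have hkq : (k:ℝ) = q + 1 := by rw [hq]; ring
      have f1 : B' * q ^ 2 ≤ c * q ^ 3 + B' * (B' / c) ^ 2 := by
        rcases le_total q (B' / c) with h1 | h1
        · have h2 : q ^ 2 ≤ (B' / c) ^ 2 := pow_le_pow_left₀ hq0 h1 2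
          have h3 : 0 ≤ c * q ^ 3 := by positivity
          nlinarith
        · rw [div_le_iff₀ hc] at h1
          have h2 : B' * q ^ 2 ≤ (q * c) * q ^ 2 := mul_le_mul_of_nonneg_right h1 (by positivity)
          nlinarith
      have f2 : B * (k:ℝ) ^ 2 ≤ B * (2 * q ^ 2 + 2) := by
        apply mul_le_mul_of_nonneg_left _ hB0
        rw [hkq]; nlinarith [sq_nonneg (q - 1)]
      have f3 : 2 * r * (k:ℝ) ≤ 2 * r * (q ^ 2 + 2) := by
        apply mul_le_mul_of_nonneg_left _ (by linarith)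
        rw [hkq]; nlinarith [sq_nonneg (q - 1)]
      have f4 : B' * q ^ 2 = 2 * B * q ^ 2 + 2 * r * q ^ 2 := by rw [hB']; ring
      linarith
  obtain ⟨C₀, hC₀⟩ := hcond0
  refine AS_ge h hξ (s := fun k => P * k ^ 2 + n) (a := a) (M := M) ?_ hM hms
    ha1 hr0 (by linarith) (C₀ := C₀) hC₀
  intro k
  have e1 : P * (k + 1) ^ 2 = P * k ^ 2 + P * (2 * k + 1) := by ring
  have e2 : 2 * 1 ≤ P * (2 * k + 1) := Nat.mul_le_mul hP (by omega)
  omega

/-! ### the geometric sequence -/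

/-- the places of the free digits -/
noncomputable def gs (lam : ℝ) (k : ℕ) : ℕ := ⌊lam ^ k⌋₊ + 2 * k

lemma gs_ge {lam : ℝ} (k : ℕ) : lam ^ k - 1 + 2 * k ≤ (gs lam k : ℝ) := by
  unfold gs
  push_cast
  have := Nat.lt_floor_add_one (lam ^ k)
  linarith

lemma gs_le {lam : ℝ} (hl : 1 < lam) (k : ℕ) : (gs lam k : ℝ) ≤ lam ^ k + 2 * k := by
  unfold gs
  push_cast
  have := Nat.floor_le (a := lam ^ k) (by positivity)
  linarith

lemma gs_step {lam : ℝ} (hl : 1 < lam) (k : ℕ) : gs lam k + 2 ≤ gs lam (k + 1) := by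
  unfold gs
  have : ⌊lam ^ k⌋₊ ≤ ⌊lam ^ (k + 1)⌋₊ := Nat.floor_le_floor (pow_le_pow_right₀ hl.le (by omega))
  omega

lemma lin_le_pow {lam : ℝ} (hl : 1 < lam) (B : ℝ) : ∀ᶠ k : ℕ in atTop, B * k ≤ lam ^ k := by
  have h := tendsto_pow_const_div_const_pow_of_one_lt 1 hl
  have h1 : ∀ᶠ k : ℕ in atTop, (k:ℝ) ^ 1 / lam ^ k < 1 / (|B| + 1) :=
    h.eventually_lt_const (by positivity)
  filter_upwards [h1] with k hk
  rw [pow_one, div_lt_div_iff₀ (by positivity) (by positivity)] at hk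
  have h2 : B * k ≤ |B| * k := mul_le_mul_of_nonneg_right (le_abs_self B) (Nat.cast_nonneg k)
  have h3 : (0:ℝ) ≤ k := Nat.cast_nonneg k
  nlinarith

lemma gs_h1 {lam : ℝ} (hl : 1 < lam) : ∀ᶠ k : ℕ in atTop, (gs lam (k + 1) : ℝ) ≤
    (lam + 1) * gs lam k := by
  filter_upwards [eventually_ge_atTop 2] with k hk
  have h1 := gs_le hl (k + 1)
  have h2 := gs_ge (lam := lam) k
  have hk2 : (2:ℝ) ≤ k := by exact_mod_cast hk
  have h3 : (1:ℝ) ≤ lam ^ k := one_le_pow₀ hl.le
  have h4 : (lam + 1) * (lam ^ k - 1 + 2 * k) ≤ (lam + 1) * gs lam k :=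
    mul_le_mul_of_nonneg_left h2 (by linarith)
  rw [pow_succ] at h1
  push_cast at h1
  have h5 : (0:ℝ) ≤ (lam - 1) * (2 * k - 1) := mul_nonneg (by linarith) (by linarith)
  nlinarith

lemma gs_h2 {lam : ℝ} (hl : 1 < lam) (B : ℝ) : ∀ᶠ k : ℕ in atTop, B * k ≤ gs lam k := by
  filter_upwards [lin_le_pow hl B, eventually_ge_atTop 1] with k hk hk1
  have h2 := gs_ge (lam := lam) k
  have hk2 : (1:ℝ) ≤ k := by exact_mod_cast hk1
  linarith

lemma gs_h3 {lam : ℝ} (hl : 1 < lam) (ρ C : ℝ) (hρ : 0 < ρ) (hρ' : ρ < lam) :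
    ∀ᶠ k : ℕ in atTop, C * ρ ^ k < gs lam k := by
  have h1 : Tendsto (fun k : ℕ => C * (ρ / lam) ^ k) atTop (𝓝 (C * 0)) :=
    (tendsto_pow_atTop_nhds_zero_of_lt_one (by positivity)
      ((div_lt_one (by linarith)).mpr hρ')).const_mul C
  rw [mul_zero] at h1
  filter_upwards [h1.eventually_lt_const (show (0:ℝ) < 1 by norm_num),
    eventually_ge_atTop 1] with k hk hk1
  have h2 := gs_ge (lam := lam) k
  have hk2 : (1:ℝ) ≤ k := by exact_mod_cast hk1
  have h3 : C * ρ ^ k < lam ^ k := by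
    rw [div_pow, ← mul_div_assoc, div_lt_one (by positivity)] at hk
    exact hk
  linarith

/-- **The dimension for geometric places.** -/
theorem AS_geo (h : IsMap Y D F) {lam : ℝ} (hl : 1 < lam) {m : ℕ → ℕ} {ξ : ℕ → ℝ}
    (hξ : Y.Code m ξ) (hm : ∀ i, i ∉ range (gs lam) → m i = 2)
    (hms : Tendsto (fun k => m (gs lam k)) atTop atTop) :
    dimH (AS F D (ξ 0)) = ENNReal.ofReal (1 / (1 + lam)) := by
  have hs : ∀ k, gs lam k + 2 ≤ gs lam (k + 1) := gs_step hl
  have hsm : StrictMono (gs lam) := s_mono hs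
  have hinf : ∀ i, ∃ j, i ≤ j ∧ 2 ≤ m j := by
    intro i
    obtain ⟨k, hk1, hk2⟩ := ((hms.eventually_ge_atTop 2).and (eventually_ge_atTop i)).exists
    exact ⟨gs lam k, hk2.trans (hsm.id_le k), hk1⟩
  apply le_antisymm
  · -- upper bound
    have key : ∀ t : ℝ, 1 / (1 + lam) < t → dimH (AS F D (ξ 0)) ≤ ENNReal.ofReal t := by
      intro t ht
      set C := range (fun w : List ℕ => W Y.T w 0) with hC
      have hCc : C.Countable := countable_range _
      have hsub : AS F D (ξ 0) ⊆ C ∪ ⋃ n₀ : ℕ, ⋃ p : Fin n₀ → ℕ,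
          ZZ Y fun i m => (∀ h : i < n₀, m = p ⟨i, h⟩) ∧ (n₀ ≤ i → i ∉ range (gs lam) → m = 2) := by
        intro y hy
        by_cases h0 : ∀ n, F^[n] y ≠ 0
        · right
          obtain ⟨m', hm'⟩ := h.code hy.1 h0
          have h2 : Tendsto (fun n => |ξ n - F^[n] y|) atTop (𝓝 0) := by
            refine hy.2.congr fun n => ?_
            rw [h.iter hξ hinf n]
          obtain ⟨n₀, hn₀⟩ := eventually_atTop.mp (close_digits hξ hm' h2 2)
          rw [mem_iUnion]
          refine ⟨n₀, ?_⟩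
          rw [mem_iUnion]
          refine ⟨fun i => m' i, m', _, hm', rfl, fun i => ⟨fun _ => rfl, fun hi hoff => ?_⟩⟩
          have h3 := hn₀ i hi
          rw [hm i hoff] at h3
          omega
        · left
          push Not at h0
          exact h.zero_count ⟨hy.1, h0⟩
      refine (dimH_mono hsub).trans ?_
      rw [dimH_countable_union hCc, dimH_iUnion]
      apply iSup_le
      intro n₀
      rw [dimH_iUnion]
      apply iSup_le
      intro p
      exact upper_geo Y hl ht hsm (gs_h1 hl) (gs_h2 hl) (gs_h3 hl) n₀ p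
    apply ENNReal.le_of_forall_pos_le_add
    intro ε hε _
    have := key (1 / (1 + lam) + ε) (by have : (0:ℝ) < ε := hε; linarith)
    rw [ENNReal.ofReal_add (by positivity) (NNReal.coe_nonneg _), ENNReal.ofReal_coe_nnreal] at this
    exact this
  · -- lower bound
    apply le_of_forall_ofReal_lt (by positivity)
    intro r hr0 hr1
    set L := Real.logb 2 (((2:ℕ):ℝ) + 1) with hL
    have hL0 : 0 ≤ L := Real.logb_nonneg (by norm_num) (by norm_num)
    have hr2 : r * (lam - 1) < 1 - 2 * r := by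
      rw [lt_div_iff₀ (by linarith)] at hr1
      linarith
    have hr3 : r < 1 / 2 := by
      have : r * (lam - 1) ≥ 0 := mul_nonneg hr0.le (by linarith)
      linarith
    set δ := (1 - 2 * r) / (lam - 1) - r with hδ
    have hδ0 : 0 < δ := by
      have : r < (1 - 2 * r) / (lam - 1) := by rw [lt_div_iff₀ (by linarith)]; exact hr2
      linarith
    set α := (2 * r * L + 1) / δ with hα
    have hα0 : 0 < α := by positivity
    set a : ℕ → ℕ := fun k => ⌊α * lam ^ k⌋₊ with ha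
    have ha1 : Tendsto a atTop atTop :=
      tendsto_nat_floor_atTop.comp ((tendsto_pow_atTop_atTop_of_one_lt hl).const_mul_atTop hα0)
    have hA : ∀ k : ℕ, α * (lam ^ k - 1) / (lam - 1) - k ≤ (A a k : ℝ) := by
      intro k
      induction k with
      | zero => simp [A]
      | succ k ih =>
        rw [A_succ]
        have h1 := Nat.lt_floor_add_one (α * lam ^ k)
        have h2 : α * (lam ^ (k + 1) - 1) / (lam - 1) = α * (lam ^ k - 1) / (lam - 1) +
            α * lam ^ k := by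
          have : lam - 1 ≠ 0 := by linarith
          field_simp; ring
        rw [h2]
        push_cast
        simp only [ha]
        linarith
    set B := r * (4 * L + 2) + (1 - 2 * r) with hB
    have hB0 : 0 ≤ B := by
      have : 0 ≤ r * (4 * L + 2) := by positivity
      linarith
    obtain ⟨N, hN⟩ := eventually_atTop.mp (lin_le_pow hl B)
    have hBN : ∀ k : ℕ, B * k ≤ lam ^ k + B * N := by
      intro k
      rcases le_total N k with h1 | h1
      · have := hN k h1
        have h2 : 0 ≤ B * N := by positivity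
        linarith
      · have h2 : (k:ℝ) ≤ N := by exact_mod_cast h1
        have h3 : 0 ≤ lam ^ k := by positivity
        nlinarith
    refine AS_ge h hξ (s := gs lam) (a := a) (M := 2) hs (fun i hi => (hm i hi).le) hms ha1 hr0
      (by linarith) (C₀ := B * N + (1 - 2 * r) * α / (lam - 1)) (fun k => ?_)
    have g1 := gs_le hl k
    have g2 : (a k : ℝ) ≤ α * lam ^ k := Nat.floor_le (by positivity)
    have g3 := hA k
    have g4 := hBN k
    have g5 : α * δ = 2 * r * L + 1 := by rw [hα]; field_simp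
    have g6 : (1 - 2 * r) * (α * (lam ^ k - 1) / (lam - 1) - k) ≤ (1 - 2 * r) * A a k :=
      mul_le_mul_of_nonneg_left g3 (by linarith)
    have g7 : (1 - 2 * r) * (α * (lam ^ k - 1) / (lam - 1) - k) =
        (1 - 2 * r) / (lam - 1) * α * lam ^ k - (1 - 2 * r) * α / (lam - 1) - (1 - 2 * r) * k := by
      have : lam - 1 ≠ 0 := by linarith
      field_simp
    have g8 : (1 - 2 * r) / (lam - 1) * α * lam ^ k = (r * α + 2 * r * L + 1) * lam ^ k := by
      have : (1 - 2 * r) / (lam - 1) = δ + r := by rw [hδ]; ring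
      rw [this]
      have : (δ + r) * α = α * δ + r * α := by ring
      rw [this, g5]; ring
    have g9 : r * ((a k : ℝ) + 2 * gs lam k * L + 2 * k) ≤
        r * (α * lam ^ k + 2 * (lam ^ k + 2 * k) * L + 2 * k) := by
      apply mul_le_mul_of_nonneg_left _ hr0.le
      have : 2 * (gs lam k : ℝ) * L ≤ 2 * (lam ^ k + 2 * k) * L :=
        mul_le_mul_of_nonneg_right (by linarith) hL0
      linarith
    refine g9.trans ?_
    have g10 : r * (α * lam ^ k + 2 * (lam ^ k + 2 * k) * L + 2 * k) =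
      (r * α + 2 * r * L) * lam ^ k + r * (4 * L + 2) * k := by ring
    rw [g10]
    have g11 : B * k = r * (4 * L + 2) * k + (1 - 2 * r) * k := by rw [hB]; ring
    linarith

/-- **The image of the dimension function.** -/
theorem image_eq (h : IsMap Y D F) :
    (fun x => dimH (AS F D x)) '' D = ENNReal.ofReal '' Icc 0 (1 / 2) := by
  classical
  apply Subset.antisymm
  · rintro _ ⟨x, hx, rfl⟩
    have h1 := AS_le_half h hx
    refine ⟨(dimH (AS F D x)).toReal, ⟨ENNReal.toReal_nonneg, ?_⟩, ?_⟩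
    · exact ENNReal.toReal_le_of_le_ofReal (by norm_num) h1
    · exact ENNReal.ofReal_toReal (ne_top_of_le_ne_top ENNReal.ofReal_ne_top h1)
  · rintro _ ⟨v, ⟨hv0, hv1⟩, rfl⟩
    rcases eq_or_lt_of_le hv0 with h0 | h0
    · -- value 0
      obtain ⟨ξ, hξ⟩ := Y.exists_code (fun _ => 2) (fun _ => by norm_num)
      have hinf : ∀ i, ∃ j, i ≤ j ∧ 2 ≤ (fun _ : ℕ => 2) j := fun i => ⟨i, le_rfl, le_rfl⟩
      refine ⟨ξ 0, h.ioo ⟨hξ.pos Y _, hξ.lt_one Y hinf _⟩, ?_⟩
      rw [← h0, ENNReal.ofReal_zero]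
      exact AS_bounded h hξ hinf (M := 2) (fun _ => le_rfl)
    rcases eq_or_lt_of_le hv1 with h1 | h1
    · -- value 1/2
      set s : ℕ → ℕ := fun k => 2 * k ^ 2 + 0 with hs
      have hsm : StrictMono s := strictMono_nat_of_lt_succ fun k => by
        simp only [hs]
        have : 2 * (k + 1) ^ 2 = 2 * k ^ 2 + (4 * k + 2) := by ring
        omega
      set m : ℕ → ℕ := fun i => if i ∈ range s then i + 2 else 2 with hm
      obtain ⟨ξ, hξ⟩ := Y.exists_code m (fun i => by simp only [hm]; split_ifs <;> omega)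
      have hinf : ∀ i, ∃ j, i ≤ j ∧ 2 ≤ m j := fun i =>
        ⟨i, le_rfl, by simp only [hm]; split_ifs <;> omega⟩
      have hx : ξ 0 ∈ D := h.ioo ⟨hξ.pos Y _, hξ.lt_one Y hinf _⟩
      refine ⟨ξ 0, hx, ?_⟩
      rw [h1]
      apply le_antisymm (AS_le_half h hx)
      refine AS_ge_half h hξ (P := 2) (n := 0) le_rfl (M := 2) ?_ ?_
      · intro i hi
        simp only [hm]
        rw [if_neg hi]
      · refine tendsto_atTop_mono (fun k => ?_) hsm.tendsto_atTop
        simp only [hm]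
        rw [if_pos ⟨k, rfl⟩]
        simp only [hs]
        omega
    · -- values in between
      set lam : ℝ := 1 / v - 1 with hlam
      have hl : 1 < lam := by
        have : 2 < 1 / v := by rw [lt_div_iff₀ h0]; linarith
        linarith
      have hv : 1 / (1 + lam) = v := by rw [hlam]; field_simp; ring
      have hsm : StrictMono (gs lam) := s_mono (gs_step hl)
      set m : ℕ → ℕ := fun i => if i ∈ range (gs lam) then i + 2 else 2 with hm
      obtain ⟨ξ, hξ⟩ := Y.exists_code m (fun i => by simp only [hm]; split_ifs <;> omega)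
      have hinf : ∀ i, ∃ j, i ≤ j ∧ 2 ≤ m j := fun i =>
        ⟨i, le_rfl, by simp only [hm]; split_ifs <;> omega⟩
      have hx : ξ 0 ∈ D := h.ioo ⟨hξ.pos Y _, hξ.lt_one Y hinf _⟩
      refine ⟨ξ 0, hx, ?_⟩
      rw [← hv]
      refine AS_geo h hl hξ ?_ ?_
      · intro i hi
        simp only [hm]
        rw [if_neg hi]
      · refine tendsto_atTop_mono (fun k => ?_) hsm.tendsto_atTop
        simp only [hm]
        rw [if_pos ⟨k, rfl⟩]
        omega

end Pool.Agent.X86.AF
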