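import Pool.Agent.X86.AF.Block

/-! the Lüroth and the Gauss digit systems -/

set_option autoImplicit false

open Set Filter Topology MeasureTheory
open scoped ENNReal NNReal

namespace Pool.Agent.X86.AF

open Sys

/-! ### Lüroth -/

/-- inverse branches of the Lüroth map -/
noncomputable def LT (m : ℕ) (y : ℝ) : ℝ := (y + m) / (m * (m + 1))

lemma LT_sub (m : ℕ) (y y' : ℝ) : LT m y - LT m y' = (y - y') / (m * (m + 1)) := by
  unfold LT; rw [← sub_div]; congr 1; ring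

lemma LT_aff (w : List ℕ) : ∀ y y' : ℝ, |W LT w y - W LT w y'| =
    |W LT w 1 - W LT w 0| * |y - y'| := by
  induction w with
  | nil => intro y y'; simp
  | cons m w ih =>
    intro y y'
    simp only [W_cons]
    rw [LT_sub, LT_sub, abs_div, abs_div, ih y y']
    ring

/-- the Lüroth digit system -/
noncomputable def lurothSys : Sys where
  T := LT
  o := 0
  ho := Or.inl rfl
  T_o := by
    intro m hm
    have : (m:ℝ) ≠ 0 := by positivity
    unfold LT; field_simp; ring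
  T_o' := by
    intro m hm
    have : (m:ℝ) ≠ 0 := by positivity
    unfold LT; field_simp; ring
  lo := by
    intro m hm y _ y' _
    have : (1:ℝ) ≤ m := by exact_mod_cast hm
    rw [LT_sub, abs_div, abs_of_pos (a := (m:ℝ) * (m + 1)) (by positivity)]
    apply div_le_div_of_nonneg_left (abs_nonneg _) (by positivity)
    nlinarith
  up := by
    intro m hm y _ y' _
    have : (1:ℝ) ≤ m := by exact_mod_cast hm
    rw [LT_sub, abs_div, abs_of_pos (a := (m:ℝ) * (m + 1)) (by positivity)]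
    apply div_le_div_of_nonneg_left (abs_nonneg _) (by positivity)
    nlinarith
  mono := by
    left
    intro m hm y _ y' _ h
    have h1 := LT_sub m y' y
    have h2 : 0 ≤ (y' - y) / ((m:ℝ) * (m + 1)) := div_nonneg (by linarith) (by positivity)
    linarith
  two := by
    intro m hm m' hm' y _ y' _
    have h1 : (1:ℝ) ≤ m := by exact_mod_cast hm
    have h1' : (1:ℝ) ≤ m' := by exact_mod_cast hm'
    rw [LT_sub, LT_sub, abs_div, abs_div, abs_of_pos (a := (m:ℝ) * (m + 1)) (by positivity),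
      abs_of_pos (a := (m':ℝ) * (m' + 1)) (by positivity), div_div]
    apply div_le_div_of_nonneg_left (abs_nonneg _) (by positivity)
    have h2 : (2:ℝ) ≤ (m:ℝ) * (m + 1) := by nlinarith
    have h2' : (2:ℝ) ≤ (m':ℝ) * (m' + 1) := by nlinarith
    nlinarith
  dlo := by
    intro w _ y _ y' _
    rw [LT_aff w y y']
    have : 0 ≤ |W LT w 1 - W LT w 0| * |y - y'| := by positivity
    linarith
  dup := by
    intro w _ y _ y' _
    rw [LT_aff w y y']
    have : 0 ≤ |W LT w 1 - W LT w 0| * |y - y'| := by positivity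
    linarith

/-! ### Gauss -/

/-- inverse branches of the Gauss map -/
noncomputable def GT (m : ℕ) (y : ℝ) : ℝ := 1 / (m + y)

lemma GT_sub {m : ℕ} (hm : 1 ≤ m) {y y' : ℝ} (hy : y ∈ Icc (0:ℝ) 1) (hy' : y' ∈ Icc (0:ℝ) 1) :
    |GT m y - GT m y'| = |y - y'| / ((m + y) * (m + y')) := by
  have h1 : (1:ℝ) ≤ m := by exact_mod_cast hm
  have h2 : 0 < (m:ℝ) + y := by linarith [hy.1]
  have h3 : 0 < (m:ℝ) + y' := by linarith [hy'.1]
  unfold GT
  rw [div_sub_div _ _ h2.ne' h3.ne', abs_div, abs_of_pos (a := ((m:ℝ) + y) * (m + y')) (by positivity)]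
  congr 1
  rw [abs_sub_comm y y']
  congr 1; ring

/-- Möbius representation of the word maps -/
lemma GT_word (w : List ℕ) (hw : ∀ m ∈ w, 1 ≤ m) : ∃ p p' q q' : ℝ, 0 ≤ p ∧ 0 ≤ p' ∧ 0 ≤ q' ∧
    1 ≤ q ∧ q' ≤ q ∧ p' + q' ≤ p + q ∧ |p * q' - p' * q| = 1 ∧
    ∀ y ∈ Icc (0:ℝ) 1, W GT w y = (p + p' * y) / (q + q' * y) := by
  induction w with
  | nil =>
    refine ⟨0, 1, 1, 0, le_rfl, zero_le_one, le_rfl, le_rfl, zero_le_one, by norm_num, by norm_num,
      fun y _ => by simp⟩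
  | cons m w ih =>
    obtain ⟨p, p', q, q', h1, h2, h3, h4, h5, h6, h7, h8⟩ :=
      ih fun k hk => hw k (List.mem_cons_of_mem _ hk)
    have hm : (1:ℝ) ≤ m := by exact_mod_cast hw m List.mem_cons_self
    refine ⟨q, q', m * q + p, m * q' + p', by linarith, h3, by positivity, by nlinarith, ?_, ?_, ?_,
      ?_⟩
    · nlinarith
    · nlinarith
    · rw [← h7, ← abs_neg]; congr 1; ring
    · intro y hy
      rw [W_cons, h8 y hy]
      unfold GT
      have h9 : 0 < q + q' * y := by nlinarith [hy.1]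
      have h10 : 0 < (m:ℝ) * q + p + (m * q' + p') * y := by
        have : 0 ≤ ((m:ℝ) * q' + p') * y := mul_nonneg (by positivity) hy.1
        nlinarith
      rw [div_eq_div_iff]
      · field_simp
        ring
      · have : 0 ≤ (p + p' * y) / (q + q' * y) :=
          div_nonneg (add_nonneg h1 (mul_nonneg h2 hy.1)) h9.le
        linarith
      · exact h10.ne'

lemma GT_diff {w : List ℕ} {p p' q q' : ℝ} (h3 : 0 ≤ q') (h4 : 1 ≤ q)
    (h7 : |p * q' - p' * q| = 1)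
    (h8 : ∀ y ∈ Icc (0:ℝ) 1, W GT w y = (p + p' * y) / (q + q' * y))
    {y y' : ℝ} (hy : y ∈ Icc (0:ℝ) 1) (hy' : y' ∈ Icc (0:ℝ) 1) :
    |W GT w y - W GT w y'| = |y - y'| / ((q + q' * y) * (q + q' * y')) := by
  have h9 : 0 < q + q' * y := by nlinarith [hy.1]
  have h9' : 0 < q + q' * y' := by nlinarith [hy'.1]
  rw [h8 y hy, h8 y' hy', div_sub_div _ _ h9.ne' h9'.ne', abs_div,
    abs_of_pos (a := (q + q' * y) * (q + q' * y')) (by positivity)]
  congr 1
  have : (p + p' * y) * (q + q' * y') - (q + q' * y) * (p + p' * y') =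
      (p * q' - p' * q) * (y' - y) := by ring
  rw [this, abs_mul, h7, one_mul, abs_sub_comm]

/-- the Gauss digit system -/
noncomputable def gaussSys : Sys where
  T := GT
  o := 1
  ho := Or.inr rfl
  T_o := by intro m _; rfl
  T_o' := by intro m _; unfold GT; norm_num
  lo := by
    intro m hm y hy y' hy'
    have : (1:ℝ) ≤ m := by exact_mod_cast hm
    have h2 : 0 < (m:ℝ) + y := by linarith [hy.1]
    have h3 : 0 < (m:ℝ) + y' := by linarith [hy'.1]
    rw [GT_sub hm hy hy']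
    apply div_le_div_of_nonneg_left (abs_nonneg _) (by positivity)
    nlinarith [hy.2, hy'.2]
  up := by
    intro m hm y hy y' hy'
    have : (1:ℝ) ≤ m := by exact_mod_cast hm
    have h2 : 0 < (m:ℝ) + y := by linarith [hy.1]
    have h3 : 0 < (m:ℝ) + y' := by linarith [hy'.1]
    rw [GT_sub hm hy hy']
    apply div_le_div_of_nonneg_left (abs_nonneg _) (by positivity)
    nlinarith [hy.1, hy'.1, mul_nonneg hy.1 hy'.1]
  mono := by
    right
    intro m hm y hy y' hy' h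
    have : (1:ℝ) ≤ m := by exact_mod_cast hm
    unfold GT
    apply one_div_le_one_div_of_le (by linarith [hy.1])
    linarith
  two := by
    intro m hm m' hm' y hy y' hy'
    have h1 : (1:ℝ) ≤ m := by exact_mod_cast hm
    have h1' : (1:ℝ) ≤ m' := by exact_mod_cast hm'
    obtain ⟨a1, a2, a3, a4⟩ : 0 ≤ y ∧ y ≤ 1 ∧ 0 ≤ y' ∧ y' ≤ 1 := ⟨hy.1, hy.2, hy'.1, hy'.2⟩
    have hp : 0 < (m':ℝ) + y := by linarith
    have hp' : 0 < (m':ℝ) + y' := by linarith
    have hb : 2 ≤ (m:ℝ) * (m' + y) + 1 := by nlinarith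
    have hb' : 2 ≤ (m:ℝ) * (m' + y') + 1 := by nlinarith
    have e1 : ∀ z : ℝ, 0 < (m':ℝ) + z → GT m (GT m' z) = (m' + z) / (m * (m' + z) + 1) := by
      intro z hz
      unfold GT
      have : (m:ℝ) * (m' + z) + 1 ≠ 0 := by positivity
      field_simp
    rw [e1 y hp, e1 y' hp', div_sub_div _ _ (by linarith) (by linarith), abs_div,
      abs_of_pos (a := ((m:ℝ) * (m' + y) + 1) * (m * (m' + y') + 1)) (by positivity)]
    have e2 : ((m':ℝ) + y) * (m * (m' + y') + 1) - (m * (m' + y) + 1) * (m' + y') = y - y' := by ring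
    rw [e2]
    apply div_le_div_of_nonneg_left (abs_nonneg _) (by norm_num)
    nlinarith
  dlo := by
    intro w hw y hy y' hy'
    obtain ⟨p, p', q, q', h1, h2, h3, h4, h5, h6, h7, h8⟩ := GT_word w hw
    rw [GT_diff h3 h4 h7 h8 hy hy', GT_diff h3 h4 h7 h8 o01 z01]
    obtain ⟨a1, a2, a3, a4⟩ : 0 ≤ y ∧ y ≤ 1 ∧ 0 ≤ y' ∧ y' ≤ 1 := ⟨hy.1, hy.2, hy'.1, hy'.2⟩
    have b1 : 0 ≤ q' * y := mul_nonneg h3 a1
    have b2 : q' * y ≤ q' := by nlinarith
    have b3 : 0 ≤ q' * y' := mul_nonneg h3 a3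
    have b4 : q' * y' ≤ q' := by nlinarith
    rw [mul_one, mul_zero, add_zero, sub_zero, abs_one]
    have c1 : |y - y'| / 4 / (q * q) ≤ |y - y'| / ((q + q' * y) * (q + q' * y')) := by
      rw [div_div]
      apply div_le_div_of_nonneg_left (abs_nonneg _) (by positivity)
      nlinarith
    refine le_trans ?_ c1
    have c2 : 1 / ((q + q') * q) * |y - y'| / 4 = |y - y'| / 4 / ((q + q') * q) := by ring
    rw [c2]
    apply div_le_div_of_nonneg_left (by positivity) (by positivity)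
    nlinarith
  dup := by
    intro w hw y hy y' hy'
    obtain ⟨p, p', q, q', h1, h2, h3, h4, h5, h6, h7, h8⟩ := GT_word w hw
    rw [GT_diff h3 h4 h7 h8 hy hy', GT_diff h3 h4 h7 h8 o01 z01]
    obtain ⟨a1, a2, a3, a4⟩ : 0 ≤ y ∧ y ≤ 1 ∧ 0 ≤ y' ∧ y' ≤ 1 := ⟨hy.1, hy.2, hy'.1, hy'.2⟩
    have b1 : 0 ≤ q' * y := mul_nonneg h3 a1
    have b3 : 0 ≤ q' * y' := mul_nonneg h3 a3
    rw [mul_one, mul_zero, add_zero, sub_zero, abs_one]
    have c1 : |y - y'| / ((q + q' * y) * (q + q' * y')) ≤ |y - y'| / (q * q) := by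
      apply div_le_div_of_nonneg_left (abs_nonneg _) (by positivity)
      nlinarith
    refine c1.trans ?_
    have c2 : 4 * (1 / ((q + q') * q) * |y - y'|) = |y - y'| / ((q + q') * q / 4) := by
      field_simp
    rw [c2]
    apply div_le_div_of_nonneg_left (abs_nonneg _) (by positivity)
    nlinarith

/-! ### the Gauss map -/

/-- the Gauss map -/
lemma gauss_isMap {G : ℝ → ℝ} (h0 : G 0 = 0) (h1 : ∀ x ∈ Ioo (0:ℝ) 1, G x = 1 / x - ⌊1 / x⌋) :
    IsMap gaussSys (Ico 0 1) G where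
  sub := fun y hy => ⟨hy.1, hy.2.le⟩
  ioo := fun y hy => ⟨hy.1.le, hy.2⟩
  zmem := ⟨le_rfl, zero_lt_one⟩
  maps := by
    intro y hy
    rcases eq_or_lt_of_le hy.1 with h | h
    · rw [← h, h0]; exact ⟨le_rfl, zero_lt_one⟩
    · rw [h1 y ⟨h, hy.2⟩]
      exact ⟨sub_nonneg.mpr (Int.floor_le _), by linarith [Int.lt_floor_add_one (1 / y)]⟩
  zero := h0
  inv := by
    intro m hm u hu
    have h2 : (1:ℝ) ≤ m := by exact_mod_cast hm
    have h3 : (gaussSys.T m u) = 1 / (m + u) := rfl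
    have h4 : 0 < (m:ℝ) + u := by linarith [hu.1]
    have h5 : 1 < (m:ℝ) + u := by linarith [hu.1]
    rw [h3, h1 _ ⟨by positivity, by rw [div_lt_one h4]; exact h5⟩, one_div_one_div]
    have h6 : ⌊(m:ℝ) + u⌋ = (m:ℤ) := by
      rw [Int.floor_eq_iff]
      push_cast
      exact ⟨by linarith [hu.1], by linarith [hu.2]⟩
    rw [h6]; push_cast; ring
  fib := by
    intro y hy hy0
    have h : 0 < y := lt_of_le_of_ne hy.1 (Ne.symm hy0)
    have h2 : 1 < 1 / y := by rw [lt_div_iff₀ h]; linarith [hy.2]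
    have h3 : (1:ℤ) ≤ ⌊1 / y⌋ := by rw [Int.le_floor]; push_cast; exact h2.le
    refine ⟨⌊1 / y⌋.toNat, by omega, ?_⟩
    have h4 : ((⌊1 / y⌋.toNat : ℕ) : ℝ) = (⌊1 / y⌋ : ℝ) := by
      have : ((⌊1 / y⌋.toNat : ℕ) : ℤ) = ⌊1 / y⌋ := Int.toNat_of_nonneg (by omega)
      exact_mod_cast this
    have h5 : ∀ m u, (gaussSys.T m u) = 1 / (m + u) := fun _ _ => rfl
    rw [h5, h4, h1 y ⟨h, hy.2⟩]
    rw [add_sub_cancel, one_div_one_div]

/-- existence of the branch containing a point, left closed branches -/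
lemma exists_branch {y : ℝ} (h0 : 0 < y) (h1 : y < 1) :
    ∃ m : ℕ, 1 ≤ m ∧ y ∈ Ico (1 / ((m:ℝ) + 1)) (1 / m) := by
  have h2 : 1 < 1 / y := by rw [lt_div_iff₀ h0]; linarith
  have h3 : 1 < ⌈1 / y⌉₊ := Nat.lt_ceil.mpr (by push_cast; exact h2)
  refine ⟨⌈1 / y⌉₊ - 1, by omega, ?_⟩
  have h4 : ((⌈1 / y⌉₊ - 1 : ℕ) : ℝ) = (⌈1 / y⌉₊ : ℝ) - 1 := by
    rw [Nat.cast_sub h3.le, Nat.cast_one]
  rw [h4]
  have h5 := Nat.le_ceil (1 / y)
  have h6 := Nat.ceil_lt_add_one (a := 1 / y) (by positivity)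
  have h7 : (1:ℝ) < ⌈1 / y⌉₊ := by exact_mod_cast h3
  constructor
  · rw [sub_add_cancel, div_le_iff₀ (by linarith)]
    rw [div_le_iff₀ h0] at h5
    linarith
  · rw [lt_div_iff₀ (by linarith)]
    have h8 : (⌈1 / y⌉₊ : ℝ) - 1 < 1 / y := by linarith
    rw [lt_div_iff₀ h0] at h8
    linarith

lemma exists_branch' {y : ℝ} (h0 : 0 < y) (h1 : y ≤ 1) :
    ∃ m : ℕ, 1 ≤ m ∧ y ∈ Ioc (1 / ((m:ℝ) + 1)) (1 / m) := by
  have h2 : 1 ≤ 1 / y := by rw [le_div_iff₀ h0]; linarith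
  have h3 : 1 ≤ ⌊1 / y⌋₊ := Nat.le_floor (by push_cast; exact h2)
  refine ⟨⌊1 / y⌋₊, h3, ?_⟩
  have h5 := Nat.floor_le (a := 1 / y) (by positivity)
  have h6 := Nat.lt_floor_add_one (1 / y)
  have h7 : (1:ℝ) ≤ ⌊1 / y⌋₊ := by exact_mod_cast h3
  constructor
  · rw [div_lt_iff₀ (by linarith)]
    rw [div_lt_iff₀ h0] at h6
    linarith
  · rw [le_div_iff₀ (by linarith)]
    rw [le_div_iff₀ h0] at h5
    linarith

/-- the Lüroth map with left closed branches, on `[0, 1)` -/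
lemma luroth_isMap {L : ℝ → ℝ} (h0 : L 0 = 0)
    (h1 : ∀ n : ℕ, 1 ≤ n → ∀ x ∈ Ico (1 / ((n:ℝ) + 1)) (1 / n), L x = n * (n + 1) * x - n) :
    IsMap lurothSys (Ico 0 1) L where
  sub := fun y hy => ⟨hy.1, hy.2.le⟩
  ioo := fun y hy => ⟨hy.1.le, hy.2⟩
  zmem := ⟨le_rfl, zero_lt_one⟩
  maps := by
    intro y hy
    rcases eq_or_lt_of_le hy.1 with h | h
    · rw [← h, h0]; exact ⟨le_rfl, zero_lt_one⟩
    · obtain ⟨m, hm, hm'⟩ := exists_branch h hy.2
      have hmr : (1:ℝ) ≤ m := by exact_mod_cast hm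
      rw [h1 m hm y hm']
      obtain ⟨a1, a2⟩ := hm'
      rw [div_le_iff₀ (by linarith)] at a1
      rw [lt_div_iff₀ (by linarith)] at a2
      constructor <;> nlinarith
  zero := h0
  inv := by
    intro m hm u hu
    have h2 : (1:ℝ) ≤ m := by exact_mod_cast hm
    have h3 : (lurothSys.T m u) = (u + m) / (m * (m + 1)) := rfl
    have h4 : (0:ℝ) < m * (m + 1) := by positivity
    rw [h3, h1 m hm]
    · field_simp; ring
    · constructor
      · rw [div_le_div_iff₀ (by linarith) h4]; nlinarith [hu.1]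
      · rw [div_lt_div_iff₀ h4 (by linarith)]; nlinarith [hu.2]
  fib := by
    intro y hy hy0
    have h : 0 < y := lt_of_le_of_ne hy.1 (Ne.symm hy0)
    obtain ⟨m, hm, hm'⟩ := exists_branch h hy.2
    refine ⟨m, hm, ?_⟩
    have h5 : ∀ m u, (lurothSys.T m u) = (u + m) / (m * (m + 1)) := fun _ _ => rfl
    have : (m:ℝ) ≠ 0 := by positivity
    rw [h5, h1 m hm y hm']
    field_simp; ring

/-- the Lüroth map with right closed branches, on `[0, 1]` -/
lemma luroth_isMap' {L : ℝ → ℝ} (h0 : L 0 = 0)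
    (h1 : ∀ n : ℕ, 1 ≤ n → ∀ x ∈ Ioc (1 / ((n:ℝ) + 1)) (1 / n), L x = n * (n + 1) * x - n) :
    IsMap lurothSys (Icc 0 1) L where
  sub := subset_rfl
  ioo := Ioo_subset_Icc_self
  zmem := z01
  maps := by
    intro y hy
    rcases eq_or_lt_of_le hy.1 with h | h
    · rw [← h, h0]; exact z01
    · obtain ⟨m, hm, hm'⟩ := exists_branch' h hy.2
      have hmr : (1:ℝ) ≤ m := by exact_mod_cast hm
      rw [h1 m hm y hm']
      obtain ⟨a1, a2⟩ := hm'
      rw [div_lt_iff₀ (by linarith)] at a1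
      rw [le_div_iff₀ (by linarith)] at a2
      constructor <;> nlinarith
  zero := h0
  inv := by
    intro m hm u hu
    have h2 : (1:ℝ) ≤ m := by exact_mod_cast hm
    have h3 : (lurothSys.T m u) = (u + m) / (m * (m + 1)) := rfl
    have h4 : (0:ℝ) < m * (m + 1) := by positivity
    rw [h3, h1 m hm]
    · field_simp; ring
    · constructor
      · rw [div_lt_div_iff₀ (by linarith) h4]; nlinarith [hu.1]
      · rw [div_le_div_iff₀ h4 (by linarith)]; nlinarith [hu.2]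
  fib := by
    intro y hy hy0
    have h : 0 < y := lt_of_le_of_ne hy.1 (Ne.symm hy0)
    obtain ⟨m, hm, hm'⟩ := exists_branch' h hy.2
    refine ⟨m, hm, ?_⟩
    have h5 : ∀ m u, (lurothSys.T m u) = (u + m) / (m * (m + 1)) := fun _ _ => rfl
    have : (m:ℝ) ≠ 0 := by positivity
    rw [h5, h1 m hm y hm']
    field_simp; ring

lemma image_Icc : ENNReal.ofReal '' Icc (0:ℝ) (1 / 2) = Icc (0:ℝ≥0∞) (1 / 2) := by
  have h2 : ENNReal.ofReal (1 / 2) = 1 / 2 := by
    rw [ENNReal.ofReal_div_of_pos (by norm_num)]; norm_num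
  apply Subset.antisymm
  · rintro _ ⟨v, hv, rfl⟩
    refine ⟨zero_le, ?_⟩
    rw [← h2]
    exact ENNReal.ofReal_le_ofReal hv.2
  · rintro x ⟨_, hx⟩
    rw [← h2] at hx
    refine ⟨x.toReal, ⟨ENNReal.toReal_nonneg, ENNReal.toReal_le_of_le_ofReal (by norm_num) hx⟩, ?_⟩
    exact ENNReal.ofReal_toReal (ne_top_of_le_ne_top ENNReal.ofReal_ne_top hx)

end Pool.Agent.X86.AF
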