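import Mathlib

/-!
# Digit systems

A common framework for the Gauss map and the Lüroth map.
-/

set_option autoImplicit false

open Set Filter Topology

namespace Pool.Agent.X86.AF

/-- word maps -/
def W (T : ℕ → ℝ → ℝ) (w : List ℕ) (y : ℝ) : ℝ := w.foldr (fun m z => T m z) y

@[simp] lemma W_nil (T : ℕ → ℝ → ℝ) (y : ℝ) : W T [] y = y := rfl
@[simp] lemma W_cons (T : ℕ → ℝ → ℝ) (m : ℕ) (w : List ℕ) (y : ℝ) :
    W T (m :: w) y = T m (W T w y) := rfl
lemma W_append (T : ℕ → ℝ → ℝ) (v w : List ℕ) (y : ℝ) : W T (v ++ w) y = W T v (W T w y) := by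
  unfold W; rw [List.foldr_append]

/-- digit systems -/
structure Sys where
  T : ℕ → ℝ → ℝ
  o : ℝ
  ho : o = 0 ∨ o = 1
  T_o : ∀ m, 1 ≤ m → T m o = 1 / (m + 1)
  T_o' : ∀ m, 1 ≤ m → T m (1 - o) = 1 / m
  lo : ∀ m, 1 ≤ m → ∀ y ∈ Icc (0:ℝ) 1, ∀ y' ∈ Icc (0:ℝ) 1, |y - y'| / (m + 1) ^ 2 ≤ |T m y - T m y'|
  up : ∀ m, 1 ≤ m → ∀ y ∈ Icc (0:ℝ) 1, ∀ y' ∈ Icc (0:ℝ) 1, |T m y - T m y'| ≤ |y - y'| / m ^ 2
  mono : (∀ m, 1 ≤ m → MonotoneOn (T m) (Icc 0 1)) ∨ (∀ m, 1 ≤ m → AntitoneOn (T m) (Icc 0 1))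
  two : ∀ m, 1 ≤ m → ∀ m', 1 ≤ m' → ∀ y ∈ Icc (0:ℝ) 1, ∀ y' ∈ Icc (0:ℝ) 1,
    |T m (T m' y) - T m (T m' y')| ≤ |y - y'| / 4
  dlo : ∀ w : List ℕ, (∀ m ∈ w, 1 ≤ m) → ∀ y ∈ Icc (0:ℝ) 1, ∀ y' ∈ Icc (0:ℝ) 1,
    |W T w 1 - W T w 0| * |y - y'| / 4 ≤ |W T w y - W T w y'|
  dup : ∀ w : List ℕ, (∀ m ∈ w, 1 ≤ m) → ∀ y ∈ Icc (0:ℝ) 1, ∀ y' ∈ Icc (0:ℝ) 1,
    |W T w y - W T w y'| ≤ 4 * (|W T w 1 - W T w 0| * |y - y'|)

namespace Sys
variable (Y : Sys)

lemma z01 : (0:ℝ) ∈ Icc (0:ℝ) 1 := ⟨le_rfl, zero_le_one⟩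
lemma o01 : (1:ℝ) ∈ Icc (0:ℝ) 1 := ⟨zero_le_one, le_rfl⟩

lemma hoI : Y.o ∈ Icc (0:ℝ) 1 := by rcases Y.ho with h | h <;> rw [h] <;> norm_num
lemma hoI' : 1 - Y.o ∈ Icc (0:ℝ) 1 := by rcases Y.ho with h | h <;> rw [h] <;> norm_num

lemma maps {m : ℕ} (hm : 1 ≤ m) {y : ℝ} (hy : y ∈ Icc (0:ℝ) 1) :
    Y.T m y ∈ Icc (1 / ((m:ℝ) + 1)) (1 / m) := by
  have h0 := Y.T_o m hm
  have h1 := Y.T_o' m hm
  have hm0 : (0:ℝ) < m := by exact_mod_cast hm
  have hlt : 1 / ((m:ℝ) + 1) < 1 / m := one_div_lt_one_div_of_lt hm0 (by linarith)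
  rcases Y.mono with h | h
  · rcases Y.ho with ho | ho
    · rw [ho] at h0 h1
      rw [sub_zero] at h1
      rw [← h0, ← h1]
      exact ⟨h m hm z01 hy hy.1, h m hm hy o01 hy.2⟩
    · rw [ho] at h0 h1
      rw [sub_self] at h1
      have := h m hm z01 o01 zero_le_one
      rw [h0, h1] at this
      linarith
  · rcases Y.ho with ho | ho
    · rw [ho] at h0 h1
      rw [sub_zero] at h1
      have := h m hm z01 o01 zero_le_one
      rw [h0, h1] at this
      linarith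
    · rw [ho] at h0 h1
      rw [sub_self] at h1
      rw [← h0, ← h1]
      exact ⟨h m hm hy o01 hy.2, h m hm z01 hy hy.1⟩

lemma maps' {m : ℕ} (hm : 1 ≤ m) {y : ℝ} (hy : y ∈ Icc (0:ℝ) 1) : Y.T m y ∈ Icc (0:ℝ) 1 := by
  have h := Y.maps hm hy
  have hm0 : (1:ℝ) ≤ m := by exact_mod_cast hm
  refine ⟨le_trans (by positivity) h.1, h.2.trans ?_⟩
  rw [div_le_one (by linarith)]; exact hm0

lemma W_maps {w : List ℕ} (hw : ∀ m ∈ w, 1 ≤ m) {y : ℝ} (hy : y ∈ Icc (0:ℝ) 1) :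
    W Y.T w y ∈ Icc (0:ℝ) 1 := by
  induction w with
  | nil => exact hy
  | cons m w ih =>
    rw [W_cons]
    exact Y.maps' (hw m List.mem_cons_self) (ih fun k hk => hw k (List.mem_cons_of_mem _ hk))

/-- product bounds -/
lemma W_lo {w : List ℕ} (hw : ∀ m ∈ w, 1 ≤ m) {y y' : ℝ} (hy : y ∈ Icc (0:ℝ) 1)
    (hy' : y' ∈ Icc (0:ℝ) 1) :
    |y - y'| / (w.map fun m : ℕ => ((m:ℝ) + 1) ^ 2).prod ≤ |W Y.T w y - W Y.T w y'| := by
  induction w with
  | nil => simp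
  | cons m w ih =>
    have hw' : ∀ k ∈ w, 1 ≤ k := fun k hk => hw k (List.mem_cons_of_mem _ hk)
    have hm : 1 ≤ m := hw m List.mem_cons_self
    rw [W_cons, W_cons, List.map_cons, List.prod_cons]
    refine le_trans ?_ (Y.lo m hm _ (Y.W_maps hw' hy) _ (Y.W_maps hw' hy'))
    rw [mul_comm, ← div_div]
    gcongr
    exact ih hw'

lemma W_up {w : List ℕ} (hw : ∀ m ∈ w, 1 ≤ m) {y y' : ℝ} (hy : y ∈ Icc (0:ℝ) 1)
    (hy' : y' ∈ Icc (0:ℝ) 1) :
    |W Y.T w y - W Y.T w y'| ≤ |y - y'| / (w.map fun m : ℕ => (m:ℝ) ^ 2).prod := by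
  induction w with
  | nil => simp
  | cons m w ih =>
    have hw' : ∀ k ∈ w, 1 ≤ k := fun k hk => hw k (List.mem_cons_of_mem _ hk)
    have hm : 1 ≤ m := hw m List.mem_cons_self
    rw [W_cons, W_cons, List.map_cons, List.prod_cons]
    refine le_trans (Y.up m hm _ (Y.W_maps hw' hy) _ (Y.W_maps hw' hy')) ?_
    rw [mul_comm, ← div_div]
    gcongr
    exact ih hw'

lemma prod_one_le {w : List ℕ} (hw : ∀ m ∈ w, 1 ≤ m) : 1 ≤ (w.map fun m : ℕ => (m:ℝ) ^ 2).prod := by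
  induction w with
  | nil => simp
  | cons m w ih =>
    rw [List.map_cons, List.prod_cons]
    have hm : (1:ℝ) ≤ m := by exact_mod_cast hw m List.mem_cons_self
    have h1 := ih fun k hk => hw k (List.mem_cons_of_mem _ hk)
    nlinarith

lemma W_up_one {w : List ℕ} (hw : ∀ m ∈ w, 1 ≤ m) {y y' : ℝ} (hy : y ∈ Icc (0:ℝ) 1)
    (hy' : y' ∈ Icc (0:ℝ) 1) : |W Y.T w y - W Y.T w y'| ≤ |y - y'| := by
  refine (Y.W_up hw hy hy').trans ?_
  exact div_le_self (abs_nonneg _) (prod_one_le hw)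

lemma W_geo : ∀ (n : ℕ) (w : List ℕ), w.length = n → (∀ m ∈ w, 1 ≤ m) → ∀ {y y' : ℝ},
    y ∈ Icc (0:ℝ) 1 → y' ∈ Icc (0:ℝ) 1 →
    |W Y.T w y - W Y.T w y'| ≤ 2 * (1 / 2) ^ n * |y - y'| := by
  intro n
  induction n using Nat.strong_induction_on with
  | _ n ih =>
    intro w hlen hw y y' hy hy'
    match w, hlen, hw with
    | [], hlen, hw =>
      simp only [List.length_nil] at hlen
      rw [← hlen]
      simp only [W_nil, pow_zero, mul_one]
      have := abs_nonneg (y - y')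
      linarith
    | [m], hlen, hw =>
      simp only [List.length_cons, List.length_nil] at hlen
      rw [← hlen]
      have := Y.W_up_one hw hy hy'
      simpa using this
    | m :: m' :: w, hlen, hw =>
      simp only [List.length_cons] at hlen
      have hm : 1 ≤ m := hw m (by simp)
      have hm' : 1 ≤ m' := hw m' (by simp)
      have hw' : ∀ k ∈ w, 1 ≤ k := fun k hk => hw k (by simp [hk])
      have h1 := ih w.length (by omega) w rfl hw' hy hy'
      have h2 := Y.two m hm m' hm' _ (Y.W_maps hw' hy) _ (Y.W_maps hw' hy')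
      simp only [W_cons]
      refine h2.trans ?_
      rw [← hlen, pow_succ, pow_succ]
      linarith

/-- codings -/
structure Code (m : ℕ → ℕ) (η : ℕ → ℝ) : Prop where
  one_le : ∀ i, 1 ≤ m i
  mem : ∀ i, η i ∈ Icc (0:ℝ) 1
  eq : ∀ i, η i = Y.T (m i) (η (i + 1))

/-- words of consecutive digits -/
def pre (m : ℕ → ℕ) (i n : ℕ) : List ℕ := (List.range n).map fun j => m (i + j)

lemma pre_length (m : ℕ → ℕ) (i n : ℕ) : (pre m i n).length = n := by simp [pre]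

lemma pre_succ (m : ℕ → ℕ) (i n : ℕ) : pre m i (n + 1) = pre m i n ++ [m (i + n)] := by
  unfold pre; rw [List.range_succ, List.map_append]; simp

lemma pre_succ' (m : ℕ → ℕ) (i n : ℕ) : pre m i (n + 1) = m i :: pre m (i + 1) n := by
  unfold pre
  rw [List.range_succ_eq_map, List.map_cons, List.map_map]
  congr 1
  apply List.map_congr_left
  intro j _
  simp only [Function.comp, Nat.succ_eq_add_one]
  congr 1; omega

lemma pre_add (m : ℕ → ℕ) (i n k : ℕ) : pre m i (n + k) = pre m i n ++ pre m (i + n) k := by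
  unfold pre
  rw [List.range_add, List.map_append, List.map_map]
  congr 1
  apply List.map_congr_left
  intro j _
  simp only [Function.comp]
  congr 1; omega

lemma pre_pos {m : ℕ → ℕ} (hm : ∀ i, 1 ≤ m i) (i n : ℕ) : ∀ k ∈ pre m i n, 1 ≤ k := by
  intro k hk
  unfold pre at hk
  rw [List.mem_map] at hk
  obtain ⟨j, _, rfl⟩ := hk
  exact hm _

variable {Y}

lemma Code.word {m : ℕ → ℕ} {η : ℕ → ℝ} (h : Y.Code m η) (i n : ℕ) :
    η i = W Y.T (pre m i n) (η (i + n)) := by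
  induction n generalizing i with
  | zero => simp [pre]
  | succ n ih =>
    rw [pre_succ', W_cons, h.eq i, ih (i + 1)]
    congr 3; omega

variable (Y)

/-- existence of codings -/
theorem exists_code (m : ℕ → ℕ) (hm : ∀ i, 1 ≤ m i) : ∃ η, Y.Code m η := by
  set u : ℕ → ℕ → ℝ := fun i n => W Y.T (pre m i n) 0 with hu
  have hmem : ∀ i n, u i n ∈ Icc (0:ℝ) 1 := fun i n => Y.W_maps (pre_pos hm i n) z01
  have hc : ∀ i, CauchySeq (u i) := by
    intro i
    apply cauchySeq_of_le_geometric (1 / 2) 2 (by norm_num)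
    intro n
    rw [Real.dist_eq, abs_sub_comm]
    simp only [hu]
    rw [pre_succ, W_append]
    have h1 := Y.W_geo n (pre m i n) (pre_length m i n) (pre_pos hm i n)
      (Y.W_maps (w := [m (i + n)]) (by simp [hm]) z01) z01
    refine h1.trans ?_
    have h2 := Y.W_maps (w := [m (i + n)]) (by simp [hm]) z01
    rw [sub_zero, abs_of_nonneg h2.1]
    have : (0:ℝ) ≤ 2 * (1 / 2) ^ n := by positivity
    nlinarith [h2.2]
  choose η hη using fun i => cauchySeq_tendsto_of_complete (hc i)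
  have hηm : ∀ i, η i ∈ Icc (0:ℝ) 1 := fun i =>
    isClosed_Icc.mem_of_tendsto (hη i) (Eventually.of_forall fun n => hmem i n)
  refine ⟨η, hm, hηm, fun i => ?_⟩
  have h1 : Tendsto (fun n => u i (n + 1)) atTop (𝓝 (η i)) := (hη i).comp (tendsto_add_atTop_nat 1)
  have h2 : Tendsto (fun n => u i (n + 1)) atTop (𝓝 (Y.T (m i) (η (i + 1)))) := by
    rw [tendsto_iff_dist_tendsto_zero]
    have h3 : Tendsto (fun n => dist (u (i + 1) n) (η (i + 1))) atTop (𝓝 0) :=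
      tendsto_iff_dist_tendsto_zero.mp (hη (i + 1))
    refine squeeze_zero (fun _ => dist_nonneg) (fun n => ?_) h3
    simp only [hu, pre_succ', W_cons, Real.dist_eq]
    refine (Y.up (m i) (hm i) _ (hmem (i + 1) n) _ (hηm (i + 1))).trans ?_
    apply div_le_self (abs_nonneg _)
    have : (1:ℝ) ≤ m i := by exact_mod_cast hm i
    nlinarith
  exact tendsto_nhds_unique h1 h2

/-- strictness -/
lemma Code.pos {m : ℕ → ℕ} {η : ℕ → ℝ} (h : Y.Code m η) (i : ℕ) : 0 < η i := by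
  rw [h.eq i]
  exact lt_of_lt_of_le (by positivity) (Y.maps (h.one_le i) (h.mem (i + 1))).1

lemma Code.bounds {m : ℕ → ℕ} {η : ℕ → ℝ} (h : Y.Code m η) (i : ℕ) :
    1 / ((m i : ℝ) + 1) ≤ η i ∧ η i ≤ 1 / m i := by
  rw [h.eq i]
  exact Y.maps (h.one_le i) (h.mem (i + 1))

lemma Code.lt_one {m : ℕ → ℕ} {η : ℕ → ℝ} (h : Y.Code m η) (hinf : ∀ i, ∃ j, i ≤ j ∧ 2 ≤ m j)
    (i : ℕ) : η i < 1 := by
  have key : ∀ n i, 2 ≤ m (i + n) → η i < 1 := by
    intro n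
    induction n with
    | zero =>
      intro i hi
      have h1 := (h.bounds Y i).2
      have h2 : (2:ℝ) ≤ m i := by exact_mod_cast hi
      refine lt_of_le_of_lt h1 ?_
      rw [div_lt_one (by linarith)]; linarith
    | succ n ih =>
      intro i hi
      have h1 : η (i + 1) < 1 := ih (i + 1) (by rwa [show i + 1 + n = i + (n + 1) by omega])
      have h2 := h.pos Y (i + 1)
      have h3 := (h.bounds Y i).2
      have h4 : (1:ℝ) ≤ m i := by exact_mod_cast h.one_le i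
      have h5 : 1 / (m i : ℝ) ≤ 1 := by rw [div_le_one (by linarith)]; exact h4
      rcases lt_or_eq_of_le (h3.trans h5) with h6 | h6
      · exact h6
      exfalso
      have h7 : (m i : ℝ) = 1 := by
        have : 1 ≤ 1 / (m i : ℝ) := h6.symm.le.trans h3
        rw [le_div_iff₀ (by linarith)] at this
        linarith
      have h8 := Y.lo (m i) (h.one_le i) _ (h.mem (i + 1)) _ Y.hoI'
      rw [← h.eq i, Y.T_o' (m i) (h.one_le i), h6, h7] at h8
      norm_num at h8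
      have h9 : |η (i + 1) - (1 - Y.o)| = 0 := le_antisymm (by linarith) (abs_nonneg _)
      rw [abs_eq_zero] at h9
      rcases Y.ho with ho | ho <;> rw [ho] at h9 <;> linarith
  obtain ⟨j, hj, hm⟩ := hinf i
  exact key (j - i) i (by rwa [Nat.add_sub_cancel' hj])

end Sys

end Pool.Agent.X86.AF
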