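import Pool.Agent.X86.AF.Image

/-! the dimension of the level set of `1/2` -/

set_option autoImplicit false

open Set Filter Topology MeasureTheory
open scoped ENNReal NNReal

namespace Pool.Agent.X86.AF

open Sys

/-! ### lengths of cylinders -/

/-- length of a cylinder -/
noncomputable def len (Y : Sys) (w : List ℕ) : ℝ := |W Y.T w 1 - W Y.T w 0|

variable (Y : Sys)

lemma W_mono (w : List ℕ) (hw : ∀ m ∈ w, 1 ≤ m) :
    MonotoneOn (W Y.T w) (Icc 0 1) ∨ AntitoneOn (W Y.T w) (Icc 0 1) := by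
  induction w with
  | nil => left; intro a _ b _ hab; exact hab
  | cons m w ih =>
    have hw' : ∀ k ∈ w, 1 ≤ k := fun k hk => hw k (List.mem_cons_of_mem _ hk)
    have hm : 1 ≤ m := hw m List.mem_cons_self
    have hM : MapsTo (W Y.T w) (Icc 0 1) (Icc 0 1) := fun y hy => Y.W_maps hw' hy
    have e : W Y.T (m :: w) = Y.T m ∘ W Y.T w := rfl
    rw [e]
    rcases Y.mono with h | h <;> rcases ih hw' with h' | h'
    · exact Or.inl ((h m hm).comp h' hM)
    · exact Or.inr ((h m hm).comp_AntitoneOn h' hM)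
    · exact Or.inr ((h m hm).comp_MonotoneOn h' hM)
    · exact Or.inl ((h m hm).comp h' hM)

lemma W_split {w : List ℕ} (hw : ∀ m ∈ w, 1 ≤ m) {a b c : ℝ} (ha : a ∈ Icc (0:ℝ) 1)
    (hb : b ∈ Icc (0:ℝ) 1) (hc : c ∈ Icc (0:ℝ) 1) (h1 : c ≤ b) (h2 : b ≤ a) :
    |W Y.T w a - W Y.T w c| = |W Y.T w a - W Y.T w b| + |W Y.T w b - W Y.T w c| := by
  rcases W_mono Y w hw with h | h
  · have e1 := h hc hb h1
    have e2 := h hb ha h2
    rw [abs_of_nonneg (by linarith), abs_of_nonneg (by linarith), abs_of_nonneg (by linarith)]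
    ring
  · have e1 := h hc hb h1
    have e2 := h hb ha h2
    rw [abs_of_nonpos (by linarith), abs_of_nonpos (by linarith), abs_of_nonpos (by linarith)]
    ring

lemma inv_mem (M : ℕ) : (1:ℝ) / (M + 1) ∈ Icc (0:ℝ) 1 := by
  constructor
  · positivity
  · rw [div_le_one (by positivity)]; linarith [Nat.cast_nonneg (α := ℝ) M]

lemma T_ends {m : ℕ} (hm : 1 ≤ m) (g : ℝ → ℝ) :
    |g (Y.T m 1) - g (Y.T m 0)| = |g (1 / m) - g (1 / (m + 1))| := by
  have h0 := Y.T_o m hm
  have h1 := Y.T_o' m hm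
  rcases Y.ho with ho | ho
  · rw [ho] at h0 h1; rw [sub_zero] at h1; rw [h0, h1]
  · rw [ho] at h0 h1; rw [sub_self] at h1; rw [h0, h1, abs_sub_comm]

lemma len_last_sum {w : List ℕ} (hw : ∀ m ∈ w, 1 ≤ m) (M : ℕ) :
    ∑ m ∈ Finset.Icc 1 M, len Y (w ++ [m]) = |W Y.T w 1 - W Y.T w (1 / (M + 1))| := by
  induction M with
  | zero => simp
  | succ M ih =>
    rw [Finset.sum_Icc_succ_top (by omega), ih]
    have e : len Y (w ++ [M + 1]) = |W Y.T w (1 / (M + 1)) - W Y.T w (1 / (((M + 1 : ℕ) : ℝ) + 1))| := by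
      unfold len
      rw [W_append, W_append]
      simp only [W_cons, W_nil]
      rw [T_ends Y (by omega) (W Y.T w)]
      push_cast; rfl
    rw [e]
    refine (W_split Y hw o01 (inv_mem M) (inv_mem (M + 1)) ?_ (inv_mem M).2).symm
    apply one_div_le_one_div_of_le (by positivity)
    push_cast; linarith

lemma len_last_ge {w : List ℕ} (hw : ∀ m ∈ w, 1 ≤ m) (M : ℕ) :
    (1 - 4 / ((M:ℝ) + 1)) * len Y w ≤ ∑ m ∈ Finset.Icc 1 M, len Y (w ++ [m]) := by
  rw [len_last_sum Y hw]
  have h1 := W_split Y hw o01 (inv_mem M) z01 (inv_mem M).1 (inv_mem M).2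
  have h2 := Y.dup w hw _ (inv_mem M) _ z01
  rw [sub_zero, abs_of_nonneg (inv_mem M).1] at h2
  unfold len
  have e : 4 * (|W Y.T w 1 - W Y.T w 0| * (1 / ((M:ℝ) + 1))) =
      4 / ((M:ℝ) + 1) * |W Y.T w 1 - W Y.T w 0| := by ring
  rw [e] at h2
  linarith

/-- words of length `n` with digits in `[1, M]` -/
def words (M : ℕ) : ℕ → Finset (List ℕ)
  | 0 => {[]}
  | n + 1 => ((words M n) ×ˢ (Finset.Icc 1 M)).image fun p => p.1 ++ [p.2]

lemma words_len {M : ℕ} : ∀ {n : ℕ} {w : List ℕ}, w ∈ words M n → w.length = n := by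
  intro n
  induction n with
  | zero => intro w hw; simp only [words, Finset.mem_singleton] at hw; rw [hw]; rfl
  | succ n ih =>
    intro w hw
    simp only [words, Finset.mem_image, Finset.mem_product] at hw
    obtain ⟨p, hp, rfl⟩ := hw
    rw [List.length_append, ih hp.1]; rfl

lemma words_dig {M : ℕ} : ∀ {n : ℕ} {w : List ℕ}, w ∈ words M n → ∀ m ∈ w, 1 ≤ m ∧ m ≤ M := by
  intro n
  induction n with
  | zero => intro w hw; simp only [words, Finset.mem_singleton] at hw; rw [hw]; simp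
  | succ n ih =>
    intro w hw m hm
    simp only [words, Finset.mem_image, Finset.mem_product] at hw
    obtain ⟨p, hp, rfl⟩ := hw
    rw [List.mem_append] at hm
    rcases hm with hm | hm
    · exact ih hp.1 m hm
    · rw [List.mem_singleton] at hm
      rw [hm]
      exact Finset.mem_Icc.mp hp.2

lemma len_nil : len Y [] = 1 := by simp [len]

lemma len_nonneg (w : List ℕ) : 0 ≤ len Y w := abs_nonneg _

lemma mass (M : ℕ) (hM : 3 ≤ M) (n : ℕ) :
    (1 - 4 / ((M:ℝ) + 1)) ^ n ≤ ∑ w ∈ words M n, len Y w := by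
  have h0 : 0 ≤ 1 - 4 / ((M:ℝ) + 1) := by
    have : (3:ℝ) ≤ M := by exact_mod_cast hM
    have : 4 / ((M:ℝ) + 1) ≤ 1 := by rw [div_le_one (by linarith)]; linarith
    linarith
  induction n with
  | zero => simp [words, len_nil]
  | succ n ih =>
    simp only [words]
    rw [Finset.sum_image, Finset.sum_product]
    · calc (1 - 4 / ((M:ℝ) + 1)) ^ (n + 1) = (1 - 4 / ((M:ℝ) + 1)) * (1 - 4 / ((M:ℝ) + 1)) ^ n := by
            ring
        _ ≤ (1 - 4 / ((M:ℝ) + 1)) * ∑ w ∈ words M n, len Y w := mul_le_mul_of_nonneg_left ih h0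
        _ = ∑ w ∈ words M n, (1 - 4 / ((M:ℝ) + 1)) * len Y w := by rw [Finset.mul_sum]
        _ ≤ _ := Finset.sum_le_sum fun w hw => len_last_ge Y (fun m hm => (words_dig hw m hm).1) M
    · intro p _ p' _ he
      have h2 := List.append_inj' he rfl
      simp only [List.cons.injEq, and_true] at h2
      exact Prod.ext h2.1 h2.2

lemma len_pos {w : List ℕ} (hw : ∀ m ∈ w, 1 ≤ m) : 0 < len Y w := by
  have h := Y.W_lo hw o01 z01
  rw [sub_zero, abs_one] at h
  refine lt_of_lt_of_le ?_ h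
  have : 0 < (w.map fun m : ℕ => ((m:ℝ) + 1) ^ 2).prod := prod_pos' w
  positivity

lemma len_le_one {w : List ℕ} (hw : ∀ m ∈ w, 1 ≤ m) : len Y w ≤ 1 := by
  have h := Y.W_up_one hw o01 z01
  rwa [sub_zero, abs_one] at h

/-- **pigeonhole**: many words of comparable length -/
theorem exists_blocks {s : ℝ} (hs1 : s < 1) {K : ℝ} (hK : 0 < K) :
    ∃ (n M : ℕ) (δ : ℝ) (B : Finset (List ℕ)), 1 ≤ n ∧ 1 ≤ M ∧ 0 < δ ∧ δ ≤ 1 ∧
      (∀ w ∈ B, w.length = n ∧ (∀ m ∈ w, 1 ≤ m ∧ m ≤ M) ∧ δ ≤ len Y w) ∧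
      K ≤ B.card * δ ^ s := by
  classical
  set θ : ℝ := (1 / 2) ^ (1 - s) with hθ
  have hθ0 : 0 < θ := by positivity
  have hθ1 : θ < 1 := Real.rpow_lt_one (by norm_num) (by norm_num) (by linarith)
  obtain ⟨j₀, hj₀⟩ : ∃ j₀ : ℕ, K * 2 ^ s * (θ ^ j₀ / (1 - θ)) < 1 / 2 := by
    have h1 : Tendsto (fun j : ℕ => K * 2 ^ s * (θ ^ j / (1 - θ))) atTop
        (𝓝 (K * 2 ^ s * (0 / (1 - θ)))) :=
      ((tendsto_pow_atTop_nhds_zero_of_lt_one hθ0.le hθ1).div_const _).const_mul _
    rw [zero_div, mul_zero] at h1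
    exact (h1.eventually_lt_const (by norm_num)).exists
  set n := j₀ + 1 with hn
  set M := 8 * n with hM
  -- mass
  have hmass : 1 / 2 ≤ ∑ w ∈ words M n, len Y w := by
    refine le_trans ?_ (mass Y M (by omega) n)
    have hMr : (M:ℝ) = 8 * n := by rw [hM]; push_cast; ring
    have hn1 : (1:ℝ) ≤ n := by rw [hn]; push_cast; linarith [Nat.cast_nonneg (α := ℝ) j₀]
    have h4 : 4 / ((M:ℝ) + 1) ≤ 1 / (2 * n) := by
      rw [hMr, div_le_div_iff₀ (by positivity) (by positivity)]; linarith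
    have h5 : 1 / (2 * (n:ℝ)) ≤ 1 / 2 := by
      apply one_div_le_one_div_of_le (by norm_num); linarith
    have h3 := one_add_mul_le_pow (a := -(4 / ((M:ℝ) + 1))) (by linarith) n
    rw [← sub_eq_add_neg] at h3
    refine le_trans ?_ h3
    have h6 : (n:ℝ) * (4 / ((M:ℝ) + 1)) ≤ n * (1 / (2 * n)) :=
      mul_le_mul_of_nonneg_left h4 (by linarith)
    have h7 : (n:ℝ) * (1 / (2 * n)) = 1 / 2 := by field_simp
    linarith
  -- classes
  have hcl : ∀ w ∈ words M n, ∃ j : ℕ, (1 / 2 : ℝ) ^ (j + 1) < len Y w ∧ len Y w ≤ (1 / 2) ^ j := by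
    intro w hw
    have hd := fun m hm => (words_dig hw m hm).1
    exact exists_nat_pow_near_of_lt_one (len_pos Y hd) (len_le_one Y hd) (by norm_num) (by norm_num)
  set jj : List ℕ → ℕ := fun w => if h : w ∈ words M n then (hcl w h).choose else 0 with hjj
  have hjs : ∀ w ∈ words M n, (1 / 2 : ℝ) ^ (jj w + 1) < len Y w ∧ len Y w ≤ (1 / 2) ^ (jj w) := by
    intro w hw
    simp only [hjj]
    rw [dif_pos hw]
    exact (hcl w hw).choose_spec
  have hjge : ∀ w ∈ words M n, j₀ ≤ jj w := by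
    intro w hw
    have h1 := Y.W_geo n w (words_len hw) (fun m hm => (words_dig hw m hm).1) o01 z01
    rw [sub_zero, abs_one, mul_one] at h1
    have h2 := (hjs w hw).1
    have h3 : (1 / 2 : ℝ) ^ (jj w + 1) < (1 / 2) ^ j₀ := by
      refine lt_of_lt_of_le h2 (h1.trans (le_of_eq ?_))
      rw [hn, pow_succ]; ring
    have h4 := (pow_lt_pow_iff_right_of_lt_one₀ (by norm_num) (by norm_num)).mp h3
    omega
  by_contra hcon
  push Not at hcon
  -- the number of elements of a class
  have hcard : ∀ j : ℕ, (((words M n).filter (fun w => jj w = j)).card : ℝ) <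
      K * 2 ^ (s * (j + 1)) := by
    intro j
    have h1 := hcon n M ((1 / 2) ^ (j + 1)) ((words M n).filter (fun w => jj w = j))
      (by omega) (by omega) (by positivity) (pow_le_one₀ (by norm_num) (by norm_num)) (by
        intro w hw
        rw [Finset.mem_filter] at hw
        refine ⟨words_len hw.1, words_dig hw.1, ?_⟩
        rw [← hw.2]
        exact (hjs w hw.1).1.le)
    have h2 : (((1:ℝ) / 2) ^ (j + 1)) ^ s = 2 ^ (-(s * (j + 1))) := by
      rw [one_div, inv_pow, Real.inv_rpow (by positivity), ← Real.rpow_natCast,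
        ← Real.rpow_mul (by norm_num), ← Real.rpow_neg (by norm_num)]
      congr 1; push_cast; ring
    rw [h2, Real.rpow_neg (by norm_num), ← div_eq_mul_inv, div_lt_iff₀ (by positivity)] at h1
    exact h1
  have hsum : ∑ w ∈ words M n, len Y w ≤ K * 2 ^ s * (θ ^ j₀ / (1 - θ)) := by
    set T := (words M n).image jj with hT
    calc ∑ w ∈ words M n, len Y w ≤ ∑ w ∈ words M n, (1 / 2 : ℝ) ^ (jj w) :=
          Finset.sum_le_sum fun w hw => (hjs w hw).2
      _ = ∑ j ∈ T, ∑ w ∈ (words M n).filter (fun w => jj w = j), (1 / 2 : ℝ) ^ (jj w) := by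
          rw [Finset.sum_fiberwise_of_maps_to]
          intro w hw
          exact Finset.mem_image_of_mem _ hw
      _ = ∑ j ∈ T, (((words M n).filter (fun w => jj w = j)).card : ℝ) * (1 / 2 : ℝ) ^ j := by
          refine Finset.sum_congr rfl fun j _ => ?_
          rw [Finset.sum_congr rfl (g := fun _ => (1 / 2 : ℝ) ^ j)]
          · rw [Finset.sum_const, nsmul_eq_mul]
          · intro w hw
            rw [(Finset.mem_filter.mp hw).2]
      _ ≤ ∑ j ∈ T, K * 2 ^ s * θ ^ j := by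
          refine Finset.sum_le_sum fun j _ => ?_
          have h1 := (hcard j).le
          have h2 : K * 2 ^ (s * ((j:ℝ) + 1)) * (1 / 2 : ℝ) ^ j = K * 2 ^ s * θ ^ j := by
            have h3 : θ ^ j = 2 ^ (s * (j:ℝ)) * (1 / 2 : ℝ) ^ j := by
              rw [hθ, one_div, ← Real.rpow_natCast, ← Real.rpow_natCast, ← Real.rpow_mul (by norm_num),
                Real.inv_rpow (by norm_num), Real.inv_rpow (by norm_num), ← Real.rpow_neg (by norm_num),
                ← Real.rpow_neg (by norm_num), ← Real.rpow_add (by norm_num)]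
              congr 1; ring
            rw [h3, mul_add, mul_one, Real.rpow_add (by norm_num)]; ring
          rw [← h2]
          exact mul_le_mul_of_nonneg_right h1 (by positivity)
      _ ≤ ∑ j ∈ Finset.Ico j₀ (T.sup id + 1), K * 2 ^ s * θ ^ j := by
          apply Finset.sum_le_sum_of_subset_of_nonneg
          · intro j hj
            rw [Finset.mem_Ico]
            constructor
            · rw [hT, Finset.mem_image] at hj
              obtain ⟨w, hw, rfl⟩ := hj
              exact hjge w hw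
            · have : j ≤ T.sup id := Finset.le_sup (f := id) hj
              omega
          · intro j _ _; positivity
      _ = K * 2 ^ s * ∑ j ∈ Finset.Ico j₀ (T.sup id + 1), θ ^ j := by rw [Finset.mul_sum]
      _ ≤ _ := by
          apply mul_le_mul_of_nonneg_left _ (by positivity)
          exact geom_sum_Ico_le_of_lt_one hθ0.le hθ1
  linarith

end Pool.Agent.X86.AF
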