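import Pool.Agent.X86.AF.Sys

/-! upper bounds for the dimension -/

set_option autoImplicit false

open Set Filter Topology MeasureTheory
open scoped ENNReal NNReal

namespace Pool.Agent.X86.AF

open Sys

/-- sums of products over words -/
lemma tsum_prod : ∀ (n : ℕ) (g : ℕ → ℕ → ℝ≥0∞),
    ∑' w : Fin n → ℕ, ∏ i : Fin n, g i (w i) = ∏ i ∈ Finset.range n, ∑' m, g i m := by
  intro n
  induction n with
  | zero =>
    intro g
    simp
  | succ n ih =>
    intro g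
    rw [Finset.prod_range_succ', ← (Fin.consEquiv fun _ => ℕ).tsum_eq]
    have h1 : ∀ z : ℕ × (Fin n → ℕ), ∏ i : Fin (n + 1), g i ((Fin.consEquiv fun _ => ℕ) z i) =
        g 0 z.1 * ∏ i : Fin n, g (i + 1) (z.2 i) := by
      intro z
      rw [Fin.prod_univ_succ]
      simp [Fin.consEquiv]
    simp_rw [h1]
    rw [ENNReal.tsum_prod']
    simp_rw [ENNReal.tsum_mul_left]
    rw [ENNReal.tsum_mul_right, ih (fun i => g (i + 1)), mul_comm]

lemma pre_eq_ofFn (m : ℕ → ℕ) (n : ℕ) : pre m 0 n = List.ofFn (fun i : Fin n => m i) := by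
  unfold pre
  apply List.ext_getElem
  · simp
  · intro i h1 h2
    simp

variable (Y : Sys)

/-- covering sets -/
def CS {n : ℕ} (w : Fin n → ℕ) (c : ℝ) : Set ℝ :=
  (fun y => W Y.T (List.ofFn w) y) '' (Icc (0:ℝ) 1 ∩ Iic c)

lemma CS_diam {n : ℕ} {w : Fin n → ℕ} (hw : ∀ i, 1 ≤ w i) {c : ℝ} :
    Metric.ediam (CS Y w c) ≤ ENNReal.ofReal (c * ∏ i, ((w i : ℝ) ^ 2)⁻¹) := by
  have hw' : ∀ m ∈ List.ofFn w, 1 ≤ m := by
    intro m hm
    rw [List.mem_ofFn] at hm
    obtain ⟨i, rfl⟩ := hm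
    exact hw i
  apply Metric.ediam_le
  rintro _ ⟨y, hy, rfl⟩ _ ⟨y', hy', rfl⟩
  rw [edist_dist, Real.dist_eq]
  apply ENNReal.ofReal_le_ofReal
  refine (Y.W_up hw' hy.1 hy'.1).trans ?_
  rw [List.map_ofFn, List.prod_ofFn, Finset.prod_inv_distrib, ← div_eq_mul_inv]
  have h1 : |y - y'| ≤ c := by
    rw [abs_le]
    constructor <;> linarith [hy.1.1, hy'.1.1, hy.2.out, hy'.2.out]
  have h2 : (0:ℝ) ≤ ∏ i, (w i : ℝ) ^ 2 := Finset.prod_nonneg fun i _ => by positivity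
  simp only [Function.comp]
  gcongr

lemma CS_diam' {n : ℕ} {w : Fin n → ℕ} (hw : ∀ i, 1 ≤ w i) {c : ℝ} :
    Metric.ediam (CS Y w c) ≤ ENNReal.ofReal (2 * (1 / 2) ^ n) := by
  have hw' : ∀ m ∈ List.ofFn w, 1 ≤ m := by
    intro m hm
    rw [List.mem_ofFn] at hm
    obtain ⟨i, rfl⟩ := hm
    exact hw i
  apply Metric.ediam_le
  rintro _ ⟨y, hy, rfl⟩ _ ⟨y', hy', rfl⟩
  rw [edist_dist, Real.dist_eq]
  apply ENNReal.ofReal_le_ofReal
  refine (Y.W_geo n _ (List.length_ofFn) hw' hy.1 hy'.1).trans ?_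
  have h1 : |y - y'| ≤ 1 := by
    rw [abs_le]
    constructor <;> linarith [hy.1.1, hy'.1.1, hy.1.2, hy'.1.2]
  have h2 : (0:ℝ) ≤ 2 * (1 / 2) ^ n := by positivity
  nlinarith

/-- points with admissible codings -/
def ZZ (Adm : ℕ → ℕ → Prop) : Set ℝ :=
  {z | ∃ m η, Y.Code m η ∧ η 0 = z ∧ ∀ i, Adm i (m i)}

lemma mem_CS {z : ℝ} {m : ℕ → ℕ} {η : ℕ → ℝ} (h : Y.Code m η)
    (h0 : η 0 = z) (n : ℕ) {c : ℝ} (hc : η n ≤ c) :
    z ∈ CS Y (fun i : Fin n => m i) c := by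
  refine ⟨η n, ⟨h.mem n, hc⟩, ?_⟩
  have := h.word 0 n
  rw [zero_add, pre_eq_ofFn] at this
  rw [← h0]
  exact this.symm

/-- Uniform bound of digit sums. -/
lemma exists_K {σ ν : ℝ} (hσ : 1 < σ) (hν : ν < 1) (hν0 : 0 < ν) : ∃ K : ℕ, 2 ≤ K ∧ ∀ d : ℕ,
    ∑' m : ℕ, (if 1 ≤ m ∧ (m = d ∨ K ≤ m) then ENNReal.ofReal (ν * (m:ℝ) ^ (-σ)) else 0) ≤ 1 := by
  have hs : Summable (fun m : ℕ => (m:ℝ) ^ (-σ)) := by
    simp_rw [Real.rpow_neg (Nat.cast_nonneg _)]
    exact Real.summable_nat_rpow_inv.mpr hσ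
  have ht := hs.hasSum.tendsto_sum_nat
  set s : ℝ := ∑' m : ℕ, (m:ℝ) ^ (-σ) with hsdef
  have hpos : 0 < (1 - ν) / ν := by apply div_pos <;> linarith
  obtain ⟨K, hK1, hK2⟩ := ((ht.eventually_const_lt (show s - (1 - ν) / ν < s by linarith)).and
    (eventually_ge_atTop 2)).exists
  refine ⟨K, hK2, fun d => ?_⟩
  have h1 : ∀ m : ℕ, (if 1 ≤ m ∧ (m = d ∨ K ≤ m) then ENNReal.ofReal (ν * (m:ℝ) ^ (-σ)) else 0) ≤
      (if m = d then ENNReal.ofReal ν else 0) +
      (if K ≤ m then ENNReal.ofReal (ν * (m:ℝ) ^ (-σ)) else 0) := by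
    intro m
    by_cases hm : 1 ≤ m ∧ (m = d ∨ K ≤ m)
    · rw [if_pos hm]
      rcases hm.2 with h | h
      · rw [if_pos h]
        refine le_trans ?_ le_self_add
        apply ENNReal.ofReal_le_ofReal
        have : (m:ℝ) ^ (-σ) ≤ 1 := by
          apply Real.rpow_le_one_of_one_le_of_nonpos
          · exact_mod_cast hm.1
          · linarith
        nlinarith
      · rw [if_pos h]
        exact le_add_self
    · rw [if_neg hm]; exact zero_le
  refine (ENNReal.tsum_le_tsum h1).trans ?_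
  rw [ENNReal.tsum_add, tsum_ite_eq]
  have h2 : ∑' m : ℕ, (if K ≤ m then ENNReal.ofReal (ν * (m:ℝ) ^ (-σ)) else 0) =
      ENNReal.ofReal (∑' m : ℕ, (if K ≤ m then ν * (m:ℝ) ^ (-σ) else 0)) := by
    rw [ENNReal.ofReal_tsum_of_nonneg]
    · congr 1; funext m; split_ifs <;> simp
    · intro m; split_ifs <;> positivity
    · refine Summable.of_nonneg_of_le (fun m => ?_) (fun m => ?_) (hs.mul_left ν)
      · split_ifs <;> positivity
      · split_ifs <;> [exact le_rfl; positivity]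
  rw [h2, ← ENNReal.ofReal_add hν0.le (tsum_nonneg fun m => by split_ifs <;> positivity),
    ← ENNReal.ofReal_one]
  apply ENNReal.ofReal_le_ofReal
  have h3 : ∑' m : ℕ, (if K ≤ m then ν * (m:ℝ) ^ (-σ) else 0) =
      ν * (s - ∑ m ∈ Finset.range K, (m:ℝ) ^ (-σ)) := by
    have h4 := hs.sum_add_tsum_nat_add K
    have h5 : s - ∑ m ∈ Finset.range K, (m:ℝ) ^ (-σ) = ∑' i : ℕ, ((i + K : ℕ) : ℝ) ^ (-σ) := by
      rw [hsdef]; linarith
    rw [h5, ← tsum_mul_left]
    have h6 : Function.Injective (fun i : ℕ => i + K) := fun x y h => by simpa using h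
    rw [← h6.tsum_eq (f := fun m : ℕ => if K ≤ m then ν * (m:ℝ) ^ (-σ) else 0)]
    · congr 1; funext i
      rw [if_pos (by omega)]
    · intro m hm
      simp only [Function.mem_support, ne_eq, ite_eq_right_iff, Classical.not_imp] at hm
      exact ⟨m - K, Nat.sub_add_cancel hm.1⟩
  rw [h3]
  have h7 : ν * (s - ∑ m ∈ Finset.range K, (m:ℝ) ^ (-σ)) ≤ ν * ((1 - ν) / ν) := by
    apply mul_le_mul_of_nonneg_left _ hν0.le
    linarith
  have h8 : ν * ((1 - ν) / ν) = 1 - ν := by field_simp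
  linarith

/-- **Upper bound `1/2`**. -/
theorem upper_half {t : ℝ} (ht : 1 / 2 < t) : ∃ K : ℕ, 2 ≤ K ∧ ∀ (n₀ : ℕ) (p : Fin n₀ → ℕ) (d : ℕ → ℕ),
    dimH (ZZ Y fun i m => (∀ h : i < n₀, m = p ⟨i, h⟩) ∧ (n₀ ≤ i → m = d i ∨ K ≤ m)) ≤
      ENNReal.ofReal t := by
  have ht0 : 0 < t := by linarith
  set δ : ℝ := (2 * t - 1) / (4 * t) with hδ
  have hδ0 : 0 < δ := by apply div_pos <;> linarith
  have hδ1 : δ < 1 := by rw [hδ, div_lt_one (by linarith)]; linarith
  set σ : ℝ := 2 * t * (1 - δ) with hσ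
  have hσ1 : 1 < σ := by
    have : σ = t + 1 / 2 := by rw [hσ, hδ]; field_simp; ring
    linarith
  set ν : ℝ := (1 / 2) ^ (δ * t) with hν
  have hν0 : 0 < ν := by positivity
  have hν1 : ν < 1 := Real.rpow_lt_one (by norm_num) (by norm_num) (by positivity)
  obtain ⟨K, hK2, hK⟩ := exists_K hσ1 hν1 hν0
  refine ⟨K, hK2, fun n₀ p d => ?_⟩
  classical
  set Adm : ℕ → ℕ → Prop := fun i m => (∀ h : i < n₀, m = p ⟨i, h⟩) ∧ (n₀ ≤ i → m = d i ∨ K ≤ m)
    with hAdm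
  set Z := ZZ Y Adm with hZ
  borelize ℝ
  set cov : (n : ℕ) → (Fin n → ℕ) → Set ℝ := fun n w =>
    if ∀ i : Fin n, 1 ≤ w i ∧ Adm i (w i) then CS Y w 1 else ∅ with hcov
  have hr : Tendsto (fun n : ℕ => ENNReal.ofReal (2 * (1 / 2) ^ n)) atTop (𝓝 0) := by
    rw [← ENNReal.ofReal_zero]
    apply ENNReal.tendsto_ofReal
    have := (tendsto_pow_atTop_nhds_zero_of_lt_one (r := (1 / 2 : ℝ)) (by norm_num)
      (by norm_num)).const_mul 2
    simpa using this
  have hd1 : ∀ᶠ n : ℕ in atTop, ∀ w : Fin n → ℕ, Metric.ediam (cov n w) ≤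
      ENNReal.ofReal (2 * (1 / 2) ^ n) := by
    refine Eventually.of_forall fun n w => ?_
    simp only [hcov]
    split_ifs with h
    · exact CS_diam' Y fun i => (h i).1
    · simp
  have hc1 : ∀ᶠ n : ℕ in atTop, Z ⊆ ⋃ w : Fin n → ℕ, cov n w := by
    refine Eventually.of_forall fun n z hz => ?_
    obtain ⟨m, η, hm, h0, hadm⟩ := hz
    rw [mem_iUnion]
    refine ⟨fun i : Fin n => m i, ?_⟩
    simp only [hcov]
    rw [if_pos fun i => ⟨hm.one_le i, hadm i⟩]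
    exact mem_CS Y hm h0 n (hm.mem n).2
  have key := Measure.hausdorffMeasure_le_liminf_tsum (X := ℝ) (β := ℕ)
    (ι := fun n => Fin n → ℕ) t Z (l := atTop)
    (fun n : ℕ => ENNReal.ofReal (2 * (1 / 2) ^ n)) hr cov hd1 hc1
  -- the bound of the sums
  set g : ℕ → ℕ → ℝ≥0∞ := fun i m =>
    if 1 ≤ m ∧ Adm i m then ENNReal.ofReal (ν * (m:ℝ) ^ (-σ)) else 0 with hg
  have hterm : ∀ (n : ℕ) (w : Fin n → ℕ), Metric.ediam (cov n w) ^ t ≤
      ENNReal.ofReal (2 ^ (δ * t)) * ∏ i : Fin n, g i (w i) := by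
    intro n w
    simp only [hcov]
    split_ifs with h
    · have b1 := CS_diam' Y (w := w) (c := 1) fun i => (h i).1
      have b2 := CS_diam Y (w := w) (c := 1) fun i => (h i).1
      rw [one_mul] at b2
      set Q : ℝ := ∏ i, ((w i : ℝ) ^ 2)⁻¹ with hQ
      have hwp : ∀ i, (1:ℝ) ≤ w i := fun i => by exact_mod_cast (h i).1
      have hQ0 : 0 < Q := Finset.prod_pos fun i _ => by have := hwp i; positivity
      have h3 : Metric.ediam (CS Y w 1) ≤ ENNReal.ofReal ((2 * (1 / 2) ^ n) ^ δ * Q ^ (1 - δ)) := by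
        have e1 : Metric.ediam (CS Y w 1) = Metric.ediam (CS Y w 1) ^ δ *
            Metric.ediam (CS Y w 1) ^ (1 - δ) := by
          rw [← ENNReal.rpow_add_of_nonneg _ _ hδ0.le (by linarith), add_sub_cancel,
            ENNReal.rpow_one]
        rw [e1, ENNReal.ofReal_mul (by positivity), ← ENNReal.ofReal_rpow_of_nonneg (by positivity)
          hδ0.le, ← ENNReal.ofReal_rpow_of_nonneg hQ0.le (by linarith)]
        exact mul_le_mul' (ENNReal.rpow_le_rpow b1 hδ0.le) (ENNReal.rpow_le_rpow b2 (by linarith))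
      have h4 : ∏ i : Fin n, g i (w i) = ENNReal.ofReal (∏ i : Fin n, (ν * (w i : ℝ) ^ (-σ))) := by
        rw [ENNReal.ofReal_prod_of_nonneg (fun i _ => by positivity)]
        refine Finset.prod_congr rfl fun i _ => ?_
        simp only [hg]
        rw [if_pos (h i)]
      rw [h4, ← ENNReal.ofReal_mul (by positivity)]
      refine (ENNReal.rpow_le_rpow h3 ht0.le).trans ?_
      rw [ENNReal.ofReal_rpow_of_nonneg (by positivity) ht0.le]
      apply ENNReal.ofReal_le_ofReal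
      apply le_of_eq
      rw [Real.mul_rpow (by positivity) (by positivity), ← Real.rpow_mul (by positivity),
        ← Real.rpow_mul hQ0.le, Real.mul_rpow (by norm_num) (by positivity),
        Finset.prod_mul_distrib, Finset.prod_const, Finset.card_univ, Fintype.card_fin, mul_assoc]
      congr 1
      congr 1
      · rw [hν, ← Real.rpow_natCast, ← Real.rpow_natCast, ← Real.rpow_mul (by norm_num),
          ← Real.rpow_mul (by norm_num), mul_comm]
      · have e3 : (1 - δ) * t = σ / 2 := by rw [hσ]; ring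
        have e4 : ∏ i : Fin n, (w i : ℝ) ^ (-σ) = (∏ i : Fin n, (w i : ℝ)) ^ (-σ) :=
          Real.finsetProd_rpow _ _ (fun i _ => by positivity) _
        rw [e3, e4, hQ, Finset.prod_inv_distrib, Finset.prod_pow, Real.inv_rpow (by positivity),
          ← Real.rpow_natCast, ← Real.rpow_mul (by positivity), ← Real.rpow_neg (by positivity)]
        congr 1
        push_cast; ring
    · rw [Metric.ediam_empty, ENNReal.zero_rpow_of_pos ht0]; exact zero_le
  have hsum : ∀ n : ℕ, ∑' w : Fin n → ℕ, Metric.ediam (cov n w) ^ t ≤ ENNReal.ofReal (2 ^ (δ * t)) := by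
    intro n
    refine (ENNReal.tsum_le_tsum (hterm n)).trans ?_
    rw [ENNReal.tsum_mul_left, tsum_prod]
    have h5 : ∏ i ∈ Finset.range n, ∑' m, g i m ≤ 1 := by
      apply Finset.prod_le_one'
      intro i _
      by_cases hi : n₀ ≤ i
      · refine le_trans (ENNReal.tsum_le_tsum fun m => ?_) (hK (d i))
        simp only [hg]
        by_cases hm : 1 ≤ m ∧ Adm i m
        · rw [if_pos hm, if_pos ⟨hm.1, hm.2.2 hi⟩]
        · rw [if_neg hm]; exact zero_le
      · refine le_trans (ENNReal.tsum_le_tsum fun m => ?_) (hK (p ⟨i, not_le.mp hi⟩))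
        simp only [hg]
        by_cases hm : 1 ≤ m ∧ Adm i m
        · rw [if_pos hm, if_pos ⟨hm.1, Or.inl (hm.2.1 (not_le.mp hi))⟩]
        · rw [if_neg hm]; exact zero_le
    calc _ ≤ ENNReal.ofReal (2 ^ (δ * t)) * 1 := by gcongr
      _ = _ := mul_one _
  have h6 : μH[t] Z ≤ ENNReal.ofReal (2 ^ (δ * t)) := by
    refine key.trans ?_
    refine (liminf_le_liminf (Eventually.of_forall hsum)).trans ?_
    simp
  have h7 : μH[((⟨t, ht0.le⟩ : ℝ≥0) : ℝ)] Z ≠ ∞ := (lt_of_le_of_lt h6 ENNReal.ofReal_lt_top).ne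
  have h8 := dimH_le_of_hausdorffMeasure_ne_top h7
  refine h8.trans (le_of_eq ?_)
  exact (ENNReal.ofReal_eq_coe_nnreal ht0.le).symm

end Pool.Agent.X86.AF
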